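import Pool.Agent.Lib_helper87.D2.SizeFn

/-!
# The necessity of the condition
-/

namespace Pool.Agent.Lib_helper87.D2

open Filter Set

section enum

open Nat.Partrec (Code)
open Nat.Partrec.Code

theorem exists_enum {α : Type*} [Primcodable α] {p : α → Prop} (h : REPred p) :
    ∃ g : α → ℕ → Bool, Computable₂ g ∧ ∀ a, p a ↔ ∃ s, g a s = true := by
  obtain ⟨c, hc⟩ := Code.exists_code.1 h
  refine ⟨fun a s => (evaln s c (Encodable.encode a)).isSome, ?_, fun a => ?_⟩
  · have h1 : Primrec (fun q : α × ℕ => evaln q.2 c (Encodable.encode q.1)) := by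
      have := primrec_evaln.comp (f := fun a : (ℕ × Code) × ℕ => evaln a.1.1 a.1.2 a.2)
        (g := fun q : α × ℕ => ((q.2, c), Encodable.encode q.1))
        ((Primrec.snd.pair (Primrec.const c)).pair (Primrec.encode.comp Primrec.fst))
      exact this
    exact (Primrec.option_isSome.comp h1).to_comp
  · have h1 : (eval c (Encodable.encode a)).Dom ↔ p a := by
      rw [hc]
      simp [Encodable.encodek, Part.assert]
    rw [← h1]
    constructor
    · intro hd
      obtain ⟨k, hk⟩ := evaln_complete.1 (Part.get_mem hd)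
      exact ⟨k, by rw [Option.isSome_iff_exists]; exact ⟨_, hk⟩⟩
    · rintro ⟨s, hs⟩
      rw [Option.isSome_iff_exists] at hs
      obtain ⟨x, hx⟩ := hs
      exact (Part.dom_iff_mem).2 ⟨x, evaln_sound hx⟩

end enum

namespace SizeFn

/-- every uniformly computably enumerable sequence has a size function -/
theorem exists_of_unifCE {V : ℕ → Set ℕ} (h : UnifCE V) :
    ∃ v : SizeFn, ∀ j, v.lim j = (V j).encard := by
  obtain ⟨g, hg, h1⟩ := exists_enum h
  have c0 : Computable₂ (fun (a : (ℕ × ℕ) × ℕ) (t : ℕ) => !(g (a.1.1, a.2) t)) := by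
    refine Primrec.not.to_comp.comp (Computable₂.comp hg ?_ Computable.snd)
    exact (Computable.fst.comp (Computable.fst.comp Computable.fst)).pair
      (Computable.snd.comp Computable.fst)
  have c1 : Computable₂ (fun (a : ℕ × ℕ) (y : ℕ) => !(ball (fun t => !(g (a.1, y) t)) a.2)) := by
    have e := computable_ball c0 (Computable.snd.comp (Computable.fst (α := ℕ × ℕ) (β := ℕ)))
    exact Primrec.not.to_comp.comp e
  have c2 := computable_bcount c1 (Computable.snd (α := ℕ) (β := ℕ))
  let n : ℕ → ℕ → ℕ := fun j s => bcount (fun y => !(ball (fun t => !(g (j, y) t)) s)) s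
  have key : ∀ j s y, (!(ball (fun t => !(g (j, y) t)) s)) = true ↔ ∃ t < s, g (j, y) t = true := by
    intro j s y
    rw [Bool.not_eq_true', ← Bool.not_eq_true, ball_eq_true]
    push Not
    simp
  have n_eq : ∀ j s, n j s =
      ((Finset.range s).filter (fun y => ∃ t < s, g (j, y) t = true)).card := by
    intro j s
    simp only [n]
    rw [bcount_eq, Nat.count_eq_card_filter_range]
    congr 1
    exact Finset.filter_congr (fun y _ => key j s y)
  let v : SizeFn := ⟨n, c2, fun j s => by
    rw [n_eq, n_eq]
    apply Finset.card_le_card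
    intro y hy
    rw [Finset.mem_filter, Finset.mem_range] at hy ⊢
    obtain ⟨h2, t, ht, h3⟩ := hy
    exact ⟨by omega, t, by omega, h3⟩⟩
  refine ⟨v, fun j => ?_⟩
  have ub : ∀ s, ((n j s : ℕ) : ℕ∞) ≤ (V j).encard := by
    intro s
    rw [n_eq, ← Set.encard_coe_eq_coe_finsetCard]
    apply Set.encard_le_encard
    intro y hy
    rw [Finset.mem_coe, Finset.mem_filter] at hy
    obtain ⟨_, t, _, h3⟩ := hy
    exact (h1 (j, y)).2 ⟨t, h3⟩
  have lb : ∀ T : Finset ℕ, (T : Set ℕ) ⊆ V j → ∃ s, T.card ≤ n j s := by
    intro T hT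
    have h2 : ∀ y ∈ T, ∃ t, g (j, y) t = true := fun y hy => (h1 (j, y)).1 (hT hy)
    choose! τ hτ using h2
    refine ⟨T.sup τ + T.sup id + 1, ?_⟩
    rw [n_eq]
    apply Finset.card_le_card
    intro y hy
    rw [Finset.mem_filter, Finset.mem_range]
    have h3 : τ y ≤ T.sup τ := Finset.le_sup hy
    have h4 : y ≤ T.sup id := Finset.le_sup (f := id) hy
    exact ⟨by omega, τ y, by omega, hτ y hy⟩
  by_cases hf : (V j).Finite
  · apply le_antisymm
    · exact iSup_le ub
    · obtain ⟨s, hs⟩ := lb hf.toFinset (by simp)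
      rw [hf.encard_eq_coe_toFinset_card]
      refine le_trans ?_ (v.le_lim (j := j) (s := s))
      exact_mod_cast hs
  · rw [Set.Infinite.encard_eq hf, lim_eq_top]
    intro m
    obtain ⟨T, hT, hcard⟩ := Set.Infinite.exists_subset_card_eq hf (m + 1)
    obtain ⟨s, hs⟩ := lb T hT
    filter_upwards [eventually_ge_atTop s] with s' hs'
    have := v.monotone j hs'
    have h5 : v.n j s = n j s := rfl
    omega

theorem limP_lim_eq (v : SizeFn) : LimP (fun q : ℕ × ℕ => v.lim q.1 = q.2) := by
  refine ⟨fun q s => decide (v.n q.1 s = q.2), ?_, fun q => ?_⟩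
  · exact computable_decide_eq (Computable₂.comp v.comp (Computable.fst.comp Computable.fst)
      Computable.snd) (Computable.snd.comp Computable.fst)
  · by_cases h : v.lim q.1 = ⊤
    · filter_upwards [lim_eq_top.1 h q.2] with s hs
      rw [decide_eq_true_eq, h]
      constructor
      · intro h1; omega
      · intro h1; exact absurd h1.symm (ENat.coe_ne_top _)
    · obtain ⟨m, hm⟩ := ENat.ne_top_iff_exists.1 h
      filter_upwards [lim_eq_coe.1 hm.symm] with s hs
      rw [decide_eq_true_eq, hs, ← hm]
      norm_cast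

/-- replace the `j`-th set by the empty set if it has fewer than `j` elements -/
def sparse (v : SizeFn) : SizeFn where
  n j s := bif decide (j ≤ v.n j s) then v.n j s else 0
  comp := Computable.cond (computable_decide_le Computable.fst v.comp) v.comp (Computable.const 0)
  mono j s := by
    have := v.mono j s
    by_cases h : j ≤ v.n j s
    · have h2 : j ≤ v.n j (s + 1) := by omega
      simp only [h, h2, decide_true, cond_true, this]
    · simp only [h, decide_false, cond_false]; omega

theorem sparse_top {v : SizeFn} {j : ℕ} : v.sparse.lim j = ⊤ ↔ v.lim j = ⊤ := by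
  rw [lim_eq_top, lim_eq_top]
  constructor
  · intro h m
    filter_upwards [h m] with s hs
    by_cases h1 : j ≤ v.n j s
    · simpa [sparse, h1] using hs
    · simp [sparse, h1] at hs
  · intro h m
    filter_upwards [h m, h j] with s hs hs2
    have h1 : j ≤ v.n j s := by omega
    simpa [sparse, h1] using hs

theorem sparse_coe {v : SizeFn} {j c : ℕ} (hc : c ≠ 0) (h : v.sparse.lim j = c) :
    v.lim j = c ∧ j ≤ c := by
  rw [lim_eq_coe] at h
  have h2 : ∀ᶠ s in atTop, v.n j s = c ∧ j ≤ c := by
    filter_upwards [h] with s hs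
    by_cases h1 : j ≤ v.n j s
    · have : v.n j s = c := by simpa [sparse, h1] using hs
      exact ⟨this, by omega⟩
    · have h3 : (0 : ℕ) = c := by simpa [sparse, h1] using hs
      omega
  refine ⟨lim_eq_coe.2 (h2.mono (fun s hs => hs.1)), ?_⟩
  obtain ⟨s, hs⟩ := h2.exists
  exact hs.2

theorem sparse_le {v : SizeFn} {c : ℕ} (hc : c ≠ 0) : v.sparse.cnt c ≤ v.cnt c :=
  Set.encard_le_encard (fun _ hj => (sparse_coe hc hj).1)

open scoped Classical in
theorem sparse_cnt {v : SizeFn} {c : ℕ} (hc : c ≠ 0) :
    v.sparse.cnt c = ((Nat.count (fun j => v.sparse.lim j = c) (c + 1) : ℕ) : ℕ∞) := by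
  unfold cnt
  have : {j | v.sparse.lim j = c} =
      ((Finset.range (c + 1)).filter (fun j => v.sparse.lim j = c) : Set ℕ) := by
    ext j
    simp only [mem_ofPred_eq, Finset.coe_filter, Finset.mem_range]
    exact ⟨fun h => ⟨by have := (sparse_coe hc h).2; omega, h⟩, fun h => h.2⟩
  rw [this, Set.encard_coe_eq_coe_finsetCard, Nat.count_eq_card_filter_range]

/-! ### transfer of the recognition of the infinite classes -/

theorem limP_of_infLim {w : SizeFn} (h : w.toStr.InfLim) : LimP (fun j => w.lim j = ⊤) := by
  obtain ⟨G, hG, h1⟩ := h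
  refine ⟨fun j s => bif decide (0 < w.n j s) then
    G (Nat.pair j (Nat.pair 0 (bfind (fun t => decide (0 < w.n j t)) s))) s else false, ?_,
    fun j => ?_⟩
  · have e1 : Computable₂ (fun (q : ℕ × ℕ) (t : ℕ) => decide (0 < w.n q.1 t)) :=
      computable_decide_lt (Computable.const 0)
        (Computable₂.comp w.comp (Computable.fst.comp Computable.fst) Computable.snd)
    have e2 := computable_bfind e1 (Computable.snd (α := ℕ) (β := ℕ))
    have e3 : Computable (fun q : ℕ × ℕ => Nat.pair 0 (bfind (fun t => decide (0 < w.n q.1 t)) q.2)) :=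
      Computable₂.comp Primrec₂.natPair.to_comp (Computable.const 0) e2
    have e4 : Computable (fun q : ℕ × ℕ =>
        Nat.pair q.1 (Nat.pair 0 (bfind (fun t => decide (0 < w.n q.1 t)) q.2))) :=
      Computable₂.comp Primrec₂.natPair.to_comp Computable.fst e3
    exact Computable.cond (computable_decide_lt (Computable.const 0) w.comp)
      (Computable₂.comp hG e4 Computable.snd) (Computable.const false)
  · by_cases h0 : ∃ t, 0 < w.n j t
    · classical
      have hf := Nat.find_spec h0
      have hm : ∀ t < Nat.find h0, w.n j t = 0 := fun t ht => by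
        have := Nat.find_min h0 ht; omega
      have hin : w.InS (Nat.pair j (Nat.pair 0 (Nat.find h0))) := by
        refine ⟨?_, ?_⟩
        · simp only [Nat.unpair_pair]; exact hf
        · simp only [Nat.unpair_pair]
          intro t ht
          rw [hm t ht]; omega
      filter_upwards [h1 (Nat.pair j (Nat.pair 0 (Nat.find h0))), eventually_gt_atTop (Nat.find h0)]
        with s hs1 hs2
      have h3 : bfind (fun t => decide (0 < w.n j t)) s = Nat.find h0 := by
        apply bfind_eq hs2
        · simpa using hf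
        · intro m hm1
          simp [hm m hm1]
      have h4 : 0 < w.n j s := lt_of_lt_of_le hf (w.monotone j hs2.le)
      simp only [h4, decide_true, cond_true, h3]
      rw [hs1, ← Set.encard_eq_top_iff, cls_toStr_encard hin, Nat.unpair_pair]
    · push Not at h0
      have h2 : w.lim j = 0 := lim_eq_zero.2 (fun s => by have := h0 s; omega)
      refine Eventually.of_forall (fun s => ?_)
      have h3 : ¬ 0 < w.n j s := by have := h0 s; omega
      simp only [h3, decide_false, cond_false, h2]
      simp

theorem infLim_toStr {w : SizeFn} (h : LimP (fun j => w.lim j = ⊤)) : w.toStr.InfLim := by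
  obtain ⟨c, hc, h1⟩ := w.exists_inS_dec
  have e : Computable (fun x : ℕ => x.unpair.1) := Computable.fst.comp Computable.unpair
  refine ((LimP.of_computable hc h1).and (h.comp_computable e)).of_iff (fun x => ?_)
  constructor
  · rintro ⟨h2, h3⟩
    rw [← Set.encard_eq_top_iff, cls_toStr_encard h2, h3]
  · intro h2
    obtain ⟨y, hy⟩ := h2.nonempty
    have h3 : w.InS x := hy.1
    refine ⟨h3, ?_⟩
    rw [← cls_toStr_encard h3, Set.encard_eq_top_iff]
    exact h2

theorem limP_fill {g : ℕ → ℕ → Bool} (hg : Computable₂ g) :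
    LimP (fun k => (fill g hg).lim k = ⊤) := by
  have c1 : Computable (fun x : ℕ => x.unpair.1) := Computable.fst.comp Computable.unpair
  have c2 : Computable (fun x : ℕ => x.unpair.2) := Computable.snd.comp Computable.unpair
  have c12 : Computable (fun x : ℕ => x.unpair.1.unpair.2) := c2.comp c1
  refine ⟨fun k s => decide (k.unpair.1.unpair.2 < (fill g hg).n k s), ?_, fun k => ?_⟩
  · exact computable_decide_lt (c12.comp Computable.fst) (fill g hg).comp
  · by_cases h : FillFin g k
    · have h1 := lim_fill_of_fin (hg := hg) h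
      filter_upwards [lim_eq_coe.1 h1] with s hs
      rw [hs, h1]
      simp
    · have h1 := lim_fill_of_not_fin (hg := hg) h
      filter_upwards [lim_eq_top.1 h1 (k.unpair.1.unpair.2)] with s hs
      rw [h1]
      simpa using hs

end SizeFn

namespace CompEqStr

variable {A B : CompEqStr}

theorem infinite_iff_of_isIso {f : ℕ → ℕ} (hf : IsIso A B f) {x : ℕ} (hx : x ∈ A.carrier) :
    (B.cls (f x)).Infinite ↔ (A.cls x).Infinite := by
  rw [← Set.encard_eq_top_iff, ← Set.encard_eq_top_iff, cls_encard_of_isIso hf hx]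

theorem infLim_of_iso {f : ℕ → ℕ} (hf : IsIso A B f) (hz : ZeroJump f) (hB : B.InfLim) :
    A.InfLim := by
  rw [zeroJump_iff_limC] at hz
  refine ((limP_carrier (A := A)).and (LimP.comp hB hz)).of_iff (fun x => ?_)
  constructor
  · rintro ⟨h1, h2⟩
    exact (infinite_iff_of_isIso hf h1).1 h2
  · intro h2
    obtain ⟨y, hy⟩ := h2.nonempty
    have h1 : x ∈ A.carrier := (A.rel_sub _ _ hy).1
    exact ⟨h1, (infinite_iff_of_isIso hf h1).2 h2⟩

theorem infLim_of_iso' {f : ℕ → ℕ} (hf : IsIso A B f) (hz : ZeroJump f) (hA : A.InfLim) :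
    B.InfLim := by
  classical
  rw [zeroJump_iff_limC] at hz
  -- the inverse
  have hsurj : ∀ y, ∃ x, (y ∈ B.carrier ∧ (x ∈ A.carrier ∧ f x = y)) ∨ (¬ y ∈ B.carrier ∧ x = 0) := by
    intro y
    by_cases hy : y ∈ B.carrier
    · obtain ⟨x, hx, rfl⟩ := hf.1.2.2 hy
      exact ⟨x, Or.inl ⟨hy, hx, rfl⟩⟩
    · exact ⟨0, Or.inr ⟨hy, rfl⟩⟩
  have hinv : LimC (fun y => Nat.find (hsurj y)) := by
    have h2 : LimP (fun q : ℕ × ℕ => (q.1 ∈ B.carrier ∧ (q.2 ∈ A.carrier ∧ f q.2 = q.1)) ∨
        (¬ q.1 ∈ B.carrier ∧ q.2 = 0)) := by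
      refine LimP.or ?_ ?_
      · exact (limP_carrier.comp_computable Computable.fst).and
          ((limP_carrier.comp_computable Computable.snd).and
            (LimP.eq (hz.comp_computable Computable.snd) (LimC.of_computable Computable.fst)))
      · exact (limP_carrier.comp_computable Computable.fst).not.and
          (LimP.eq (LimC.of_computable Computable.snd) (LimC.const 0))
    exact LimP.find h2 (fun y => Nat.find_spec (hsurj y)) (fun y m hm => Nat.find_min (hsurj y) hm)
  refine ((limP_carrier (A := B)).and (LimP.comp hA hinv)).of_iff (fun y => ?_)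
  have key : y ∈ B.carrier → ((A.cls (Nat.find (hsurj y))).Infinite ↔ (B.cls y).Infinite) := by
    intro hy
    rcases Nat.find_spec (hsurj y) with h1 | h1
    · conv_rhs => rw [← h1.2.2]
      exact (infinite_iff_of_isIso hf h1.2.1).symm
    · exact absurd hy h1.1
  constructor
  · rintro ⟨h1, h2⟩
    exact (key h1).1 h2
  · intro h2
    obtain ⟨x, hx⟩ := h2.nonempty
    have h1 : y ∈ B.carrier := (B.rel_sub _ _ hx).1
    exact ⟨h1, (key h1).2 h2⟩

end CompEqStr

theorem limP_finset (s : Finset ℕ) : LimP (fun j => j ∈ s) := by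
  classical
  induction s using Finset.induction_on with
  | empty =>
    exact LimP.of_computable (Computable.const false) (fun j => by simp)
  | insert a s _ ih =>
    refine ((LimP.eq (LimC.of_computable Computable.id) (LimC.const a)).or ih).of_iff (fun j => ?_)
    simp [Finset.mem_insert]

open SizeFn CompEqStr in
/-- necessity, for size functions -/
theorem limP_of_categorical {A : CompEqStr} (hA : Delta2Categorical A) (v : SizeFn)
    (hv : ∀ c ≠ 0, v.cnt c ≤ classCount A c) : LimP (fun j => v.lim j = ⊤) := by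
  classical
  by_cases htop : classCount A ⊤ = ⊤
  · -- a size function for `A`
    obtain ⟨u, hu⟩ := exists_of_unifCE A.unifCE_clsFam
    have hucnt : ∀ c : ℕ∞, c ≠ 0 → u.cnt c = classCount A c := by
      intro c hc
      unfold cnt
      rw [← repSet_encard, ← setOf_clsFam hc]
      congr 1
      ext j
      rw [mem_ofPred_eq, mem_ofPred_eq, hu]
    let w := v.sparse
    let vc : ℕ → ℕ := fun c => Nat.count (fun j => w.lim j = c) (c + 1)
    have hvc : ∀ c : ℕ, c ≠ 0 → w.cnt c = vc c := fun c hc => sparse_cnt hc
    have hvc2 : ∀ c : ℕ, c ≠ 0 → ((vc c : ℕ) : ℕ∞) ≤ u.cnt c := by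
      intro c hc
      rw [← hvc c hc, hucnt c (by exact_mod_cast hc)]
      exact (sparse_le hc).trans (hv c (by exact_mod_cast hc))
    have lvc : LimC vc := by
      have h1 : LimP (fun q : ℕ × ℕ => w.lim q.2 = q.1) :=
        (limP_lim_eq w).comp_computable (Computable.snd.pair Computable.fst)
      refine (LimP.count (f := fun c => c + 1) h1 (LimC.of_computable Computable.succ)).of_eq
        (fun c => ?_)
      exact count_congr_iff (fun _ => Iff.rfl) _
    -- the approximated predicates
    have lu : LimP (fun q : ℕ => u.lim q.unpair.1 = q.unpair.2) :=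
      (limP_lim_eq u).comp_computable Computable.unpair
    have lne : LimP (fun q : ℕ => q.unpair.2 ≠ 0) :=
      (LimP.eq (LimC.of_computable (Computable.snd.comp Computable.unpair)) (LimC.const 0)).not
    have lcount : LimC (fun q : ℕ => Nat.count (fun i => u.lim i = q.unpair.2) q.unpair.1) := by
      have e : Computable (fun q : ℕ × ℕ => (q.2, q.1.unpair.2)) :=
        Computable.snd.pair (Computable.snd.comp (Computable.unpair.comp Computable.fst))
      have h1 : LimP (fun q : ℕ × ℕ => u.lim q.2 = q.1.unpair.2) := (limP_lim_eq u).comp_computable e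
      refine (LimP.count (f := fun q => q.unpair.1) h1
        (LimC.of_computable (Computable.fst.comp Computable.unpair))).of_eq (fun c => ?_)
      exact count_congr_iff (fun _ => Iff.rfl) _
    have lvc' : LimC (fun q : ℕ => vc q.unpair.2) :=
      lvc.comp_computable (Computable.snd.comp Computable.unpair)
    have lΨ := lu.and (lne.and (LimP.le lvc' lcount))
    have lΨ0 := lu.and lne
    obtain ⟨g, hg, hgs⟩ := lΨ
    obtain ⟨g0, hg0, hgs0⟩ := lΨ0
    -- the copy whose infinite classes are recognised
    have hC : ∀ c ≠ 0, classCount A c = classCount (fill g0 hg0).toStr c := by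
      intro c hc
      rw [classCount_toStr hc]
      by_cases hct : c = ⊤
      · rw [hct, htop, cnt_fill_top hgs0 ⟨0, by simp⟩]
      · obtain ⟨m, rfl⟩ := ENat.ne_top_iff_exists.1 hct
        have hm : m ≠ 0 := by exact_mod_cast hc
        rw [cnt_fill hgs0, ← hucnt _ hc]
        unfold cnt
        congr 1
        ext i
        simp [hm]
    -- the copy which contains the given family
    have hB : ∀ c ≠ 0, classCount A c = classCount (w.add (fill g hg)).toStr c := by
      intro c hc
      rw [classCount_toStr hc, cnt_add]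
      by_cases hct : c = ⊤
      · rw [hct, htop, cnt_fill_top hgs ⟨0, by simp⟩]
        simp
      · obtain ⟨m, rfl⟩ := ENat.ne_top_iff_exists.1 hct
        have hm : m ≠ 0 := by exact_mod_cast hc
        rw [cnt_fill hgs, ← hucnt _ hc, hvc m hm, add_comm]
        have h1 := encard_count_ge (p := fun i => u.lim i = m) (v := vc m) (hvc2 m hm)
        unfold cnt
        rw [← h1]
        congr 2
        ext i
        simp only [Nat.unpair_pair, mem_ofPred_eq, ne_eq, hm, not_false_eq_true, true_and]
        refine and_congr Iff.rfl ?_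
        rw [count_congr_iff (q := fun i => u.lim i = m) (fun _ => Iff.rfl) i]
    obtain ⟨fC, hfC, hzC⟩ := hA _ (let ⟨f, hf, _⟩ := exists_isIso hC; ⟨f, hf⟩)
    obtain ⟨fB, hfB, hzB⟩ := hA _ (let ⟨f, hf, _⟩ := exists_isIso hB; ⟨f, hf⟩)
    have h1 : A.InfLim := infLim_of_iso hfC hzC (infLim_toStr (limP_fill hg0))
    have h2 := limP_of_infLim (infLim_of_iso' hfB hzB h1)
    have h3 : Computable (fun j : ℕ => 2 * j) :=
      (Primrec.nat_mul.comp (Primrec.const 2) Primrec.id).to_comp
    refine (h2.comp_computable h3).of_iff (fun j => ?_)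
    rw [add_even, sparse_top]
  · -- finitely many infinite classes
    have h1 : {j | v.lim j = ⊤}.Finite := by
      rw [← Set.encard_lt_top_iff]
      exact lt_of_le_of_lt (hv ⊤ (by simp)) (lt_top_iff_ne_top.2 htop)
    refine (limP_finset h1.toFinset).of_iff (fun j => ?_)
    simp

/-- necessity -/
theorem condition_of_categorical {A : CompEqStr} (hA : Delta2Categorical A) {V : ℕ → Set ℕ}
    (hV : UnifCE V) (hdom : Dominated V A) : Delta2 {j | (V j).Infinite} := by
  obtain ⟨v, hv⟩ := SizeFn.exists_of_unifCE hV
  rw [delta2_iff_limP]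
  refine (limP_of_categorical hA v (fun c hc => ?_)).of_iff (fun j => ?_)
  · refine le_trans (le_of_eq ?_) (hdom c hc)
    unfold SizeFn.cnt
    congr 1
    ext j
    rw [mem_ofPred_eq, mem_ofPred_eq, hv]
  · rw [hv, Set.encard_eq_top_iff]
    rfl

/-- the characterisation -/
theorem delta2Categorical_iff (A : CompEqStr) : Delta2Categorical A ↔
    ∀ V : ℕ → Set ℕ, UnifCE V → Dominated V A → Delta2 {j | (V j).Infinite} :=
  ⟨fun h _ hV hd => condition_of_categorical h hV hd, delta2Categorical_of⟩

end Pool.Agent.Lib_helper87.D2
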