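import Pool.Agent.Lib_helper87.D2.Limit
import Mathlib.Data.Nat.Nth

/-!
# Closure properties of limit computable functions and predicates
-/

namespace Pool.Agent.Lib_helper87.D2

open Filter

variable {α β γ δ : Type*} [Primcodable α] [Primcodable β] [Primcodable γ] [Primcodable δ]

/-! ### bounded quantifiers and search -/

/-- all `n < s` satisfy `c` -/
def ball (c : ℕ → Bool) (s : ℕ) : Bool := Nat.rec (motive := fun _ => Bool) true (fun n ih => ih && c n) s

/-- the least `n < s` satisfying `c`, or `s` -/
def bfind (c : ℕ → Bool) (s : ℕ) : ℕ :=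
  Nat.rec (motive := fun _ => ℕ) 0
    (fun n ih => bif decide (ih < n) then ih else (bif c n then n else n + 1)) s

/-- the number of `n < s` satisfying `c` -/
def bcount (c : ℕ → Bool) (s : ℕ) : ℕ :=
  Nat.rec (motive := fun _ => ℕ) 0 (fun n ih => bif c n then ih + 1 else ih) s

theorem ball_eq_true {c : ℕ → Bool} {s : ℕ} : ball c s = true ↔ ∀ n < s, c n = true := by
  induction s with
  | zero => simp [ball]
  | succ s ih =>
    have : ball c (s + 1) = (ball c s && c s) := rfl
    rw [this, Bool.and_eq_true, ih]
    constructor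
    · rintro ⟨h1, h2⟩ n hn
      rcases Nat.lt_succ_iff_lt_or_eq.1 hn with h | h
      · exact h1 n h
      · rw [h]; exact h2
    · intro h
      exact ⟨fun n hn => h n (by omega), h s (by omega)⟩

theorem bcount_eq {c : ℕ → Bool} {s : ℕ} : bcount c s = Nat.count (fun n => c n = true) s := by
  induction s with
  | zero => simp [bcount]
  | succ s ih =>
    have : bcount c (s + 1) = (bif c s then bcount c s + 1 else bcount c s) := rfl
    rw [this, Nat.count_succ, ih]
    cases h : c s <;> simp

theorem bfind_le {c : ℕ → Bool} {s : ℕ} : bfind c s ≤ s := by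
  induction s with
  | zero => simp [bfind]
  | succ s ih =>
    have : bfind c (s + 1) = (bif decide (bfind c s < s) then bfind c s
      else (bif c s then s else s + 1)) := rfl
    rw [this]
    by_cases h : bfind c s < s
    · simp only [h, decide_true, cond_true]; omega
    · cases hc : c s <;> simp [h]

theorem bfind_spec {c : ℕ → Bool} {s : ℕ} :
    (∀ m < bfind c s, c m = false) ∧ (bfind c s < s → c (bfind c s) = true) := by
  induction s with
  | zero => simp [bfind]
  | succ s ih =>
    have : bfind c (s + 1) = (bif decide (bfind c s < s) then bfind c s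
      else (bif c s then s else s + 1)) := rfl
    rw [this]
    by_cases h : bfind c s < s
    · simp only [h, decide_true, cond_true]
      exact ⟨ih.1, fun _ => ih.2 h⟩
    · have hs : bfind c s = s := le_antisymm bfind_le (not_lt.1 h)
      rw [hs] at ih
      simp only [h, decide_false, cond_false]
      cases hc : c s
      · refine ⟨fun m hm => ?_, fun h => ?_⟩
        · simp only [cond_false] at hm
          rcases Nat.lt_succ_iff_lt_or_eq.1 hm with h | h
          · exact ih.1 m h
          · rw [h]; exact hc
        · simp only [cond_false] at h; omega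
      · simp only [cond_true]
        exact ⟨ih.1, fun _ => hc⟩

theorem bfind_eq {c : ℕ → Bool} {s n : ℕ} (hn : n < s) (h1 : c n = true)
    (h2 : ∀ m < n, c m = false) : bfind c s = n := by
  have h := bfind_spec (c := c) (s := s)
  rcases lt_trichotomy (bfind c s) n with h3 | h3 | h3
  · have := h.2 (by omega)
    rw [h2 _ h3] at this
    exact absurd this (by simp)
  · exact h3
  · have := h.1 n h3
    rw [h1] at this
    exact absurd this (by simp)

theorem computable_ball {c : α → ℕ → Bool} {f : α → ℕ} (hc : Computable₂ c) (hf : Computable f) :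
    Computable (fun a => ball (c a) (f a)) := by
  unfold ball
  refine Computable.nat_rec (f := f) (g := fun _ => true) (h := fun a q => (q.2 && c a q.1)) hf
    (Computable.const true) ?_
  refine Computable₂.comp Primrec.and.to_comp (Computable.snd.comp Computable.snd) ?_
  exact Computable₂.comp hc Computable.fst (Computable.fst.comp Computable.snd)

theorem computable_bcount {c : α → ℕ → Bool} {f : α → ℕ} (hc : Computable₂ c)
    (hf : Computable f) : Computable (fun a => bcount (c a) (f a)) := by
  unfold bcount
  refine Computable.nat_rec (f := f) (g := fun _ => 0)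
    (h := fun a q => (bif c a q.1 then q.2 + 1 else q.2)) hf (Computable.const 0) ?_
  refine Computable.cond ?_ (Computable.succ.comp (Computable.snd.comp Computable.snd))
    (Computable.snd.comp Computable.snd)
  exact Computable₂.comp hc Computable.fst (Computable.fst.comp Computable.snd)

theorem computable_decide_lt {f g : α → ℕ} (hf : Computable f) (hg : Computable g) :
    Computable (fun a => decide (f a < g a)) := by
  have : PrimrecPred (fun q : ℕ × ℕ => q.1 < q.2) := Primrec.nat_lt.comp Primrec.fst Primrec.snd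
  obtain ⟨_, h⟩ := this
  exact (h.to_comp.comp (hf.pair hg)).of_eq (fun a => by congr)

theorem computable_decide_le {f g : α → ℕ} (hf : Computable f) (hg : Computable g) :
    Computable (fun a => decide (f a ≤ g a)) := by
  have : PrimrecPred (fun q : ℕ × ℕ => q.1 ≤ q.2) := Primrec.nat_le.comp Primrec.fst Primrec.snd
  obtain ⟨_, h⟩ := this
  exact (h.to_comp.comp (hf.pair hg)).of_eq (fun a => by congr)

theorem computable_decide_eq {f g : α → ℕ} (hf : Computable f) (hg : Computable g) :
    Computable (fun a => decide (f a = g a)) := by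
  have : PrimrecPred (fun q : ℕ × ℕ => q.1 = q.2) := Primrec.eq.comp Primrec.fst Primrec.snd
  obtain ⟨_, h⟩ := this
  exact (h.to_comp.comp (hf.pair hg)).of_eq (fun a => by congr)

theorem computable_bfind {c : α → ℕ → Bool} {f : α → ℕ} (hc : Computable₂ c)
    (hf : Computable f) : Computable (fun a => bfind (c a) (f a)) := by
  unfold bfind
  refine Computable.nat_rec (f := f) (g := fun _ => 0)
    (h := fun a q => (bif decide (q.2 < q.1) then q.2 else (bif c a q.1 then q.1 else q.1 + 1)))
    hf (Computable.const 0) ?_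
  refine Computable.cond ?_ (Computable.snd.comp Computable.snd) ?_
  · exact computable_decide_lt (Computable.snd.comp Computable.snd)
      (Computable.fst.comp Computable.snd)
  · refine Computable.cond ?_ (Computable.fst.comp Computable.snd)
      (Computable.succ.comp (Computable.fst.comp Computable.snd))
    exact Computable₂.comp hc Computable.fst (Computable.fst.comp Computable.snd)

/-! ### limit computable functions -/

theorem LimC.of_computable {f : α → β} (hf : Computable f) : LimC f :=
  ⟨fun a _ => f a, hf.comp Computable.fst, fun _ => Eventually.of_forall (fun _ => rfl)⟩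

theorem LimC.of_eq {f g : α → β} (hf : LimC f) (h : ∀ a, f a = g a) : LimC g :=
  (funext h : f = g) ▸ hf

theorem LimC.comp {f : β → γ} {g : α → β} (hf : LimC f) (hg : LimC g) :
    LimC (fun a => f (g a)) := by
  obtain ⟨F, cF, hF⟩ := hf
  obtain ⟨G, cG, hG⟩ := hg
  refine ⟨fun a s => F (G a s) s, Computable₂.comp cF cG Computable.snd, fun a => ?_⟩
  filter_upwards [hG a, hF (g a)] with s h1 h2
  rw [h1, h2]

theorem LimC.pair {f : α → β} {g : α → γ} (hf : LimC f) (hg : LimC g) :
    LimC (fun a => (f a, g a)) := by
  obtain ⟨F, cF, hF⟩ := hf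
  obtain ⟨G, cG, hG⟩ := hg
  refine ⟨fun a s => (F a s, G a s), cF.pair cG, fun a => ?_⟩
  filter_upwards [hF a, hG a] with s h1 h2
  rw [h1, h2]

theorem LimC.comp₂ {h : β → γ → δ} {f : α → β} {g : α → γ} (hh : Computable₂ h) (hf : LimC f)
    (hg : LimC g) : LimC (fun a => h (f a) (g a)) :=
  (LimC.of_computable (f := fun p : β × γ => h p.1 p.2) hh).comp (hf.pair hg)

theorem LimC.comp_computable {f : β → γ} {g : α → β} (hf : LimC f) (hg : Computable g) :
    LimC (fun a => f (g a)) := hf.comp (LimC.of_computable hg)

theorem LimC.const (b : β) : LimC (fun _ : α => b) := LimC.of_computable (Computable.const b)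

theorem LimC.cond {c : α → Bool} {f g : α → β} (hc : LimC c) (hf : LimC f) (hg : LimC g) :
    LimC (fun a => bif c a then f a else g a) := by
  obtain ⟨C, cC, hC⟩ := hc
  obtain ⟨F, cF, hF⟩ := hf
  obtain ⟨G, cG, hG⟩ := hg
  refine ⟨fun a s => bif C a s then F a s else G a s, Computable.cond cC cF cG, fun a => ?_⟩
  filter_upwards [hC a, hF a, hG a] with s h1 h2 h3
  rw [h1, h2, h3]

/-- limit computable predicates -/
def LimP (p : α → Prop) : Prop :=
  ∃ g : α → ℕ → Bool, Computable₂ g ∧ ∀ a, ∀ᶠ s in atTop, (g a s = true ↔ p a)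

open scoped Classical in
theorem limP_iff_limC {p : α → Prop} : LimP p ↔ LimC (fun a => decide (p a)) := by
  constructor
  · rintro ⟨g, hg, h⟩
    refine ⟨g, hg, fun a => ?_⟩
    filter_upwards [h a] with s hs
    by_cases hp : p a
    · rw [hs.2 hp]; simp [hp]
    · have : g a s = false := Bool.eq_false_iff.2 (fun h => hp (hs.1 h))
      rw [this]; simp [hp]
  · rintro ⟨g, hg, h⟩
    refine ⟨g, hg, fun a => ?_⟩
    filter_upwards [h a] with s hs
    rw [hs]; simp

open scoped Classical in
theorem delta2_iff_limP {S : Set ℕ} : Delta2 S ↔ LimP (fun n => n ∈ S) := by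
  rw [Delta2, zeroJump_iff_limC, limP_iff_limC]
  constructor
  · intro h
    refine (LimC.comp₂ (h := fun (a b : ℕ) => decide (a = b)) ?_ h (LimC.const 1)).of_eq
      (fun a => ?_)
    · exact computable_decide_eq Computable.fst Computable.snd
    · by_cases h : a ∈ S <;> simp [h]
  · intro h
    refine (LimC.cond h (LimC.const 1) (LimC.const 0)).of_eq (fun a => ?_)
    by_cases h : a ∈ S <;> simp [h]

theorem LimP.of_computable {p : α → Prop} {c : α → Bool} (hc : Computable c)
    (h : ∀ a, c a = true ↔ p a) : LimP p :=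
  ⟨fun a _ => c a, hc.comp Computable.fst, fun a => Eventually.of_forall (fun _ => h a)⟩

theorem LimP.of_computablePred {p : α → Prop} (h : ComputablePred p) : LimP p := by
  obtain ⟨f, hf, rfl⟩ := ComputablePred.computable_iff.1 h
  exact LimP.of_computable hf (fun a => Iff.rfl)

theorem LimP.of_iff {p q : α → Prop} (hp : LimP p) (h : ∀ a, p a ↔ q a) : LimP q := by
  obtain ⟨g, hg, hh⟩ := hp
  exact ⟨g, hg, fun a => by filter_upwards [hh a] with s hs; rw [hs, h a]⟩

theorem LimP.not {p : α → Prop} (hp : LimP p) : LimP (fun a => ¬ p a) := by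
  obtain ⟨g, hg, hh⟩ := hp
  refine ⟨fun a s => !(g a s), Primrec.not.to_comp.comp hg, fun a => ?_⟩
  filter_upwards [hh a] with s hs
  rw [← hs]; simp

theorem LimP.and {p q : α → Prop} (hp : LimP p) (hq : LimP q) : LimP (fun a => p a ∧ q a) := by
  obtain ⟨g, hg, hh⟩ := hp
  obtain ⟨g', hg', hh'⟩ := hq
  refine ⟨fun a s => g a s && g' a s, Computable₂.comp Primrec.and.to_comp hg hg', fun a => ?_⟩
  filter_upwards [hh a, hh' a] with s hs hs'
  rw [← hs, ← hs']; simp

theorem LimP.or {p q : α → Prop} (hp : LimP p) (hq : LimP q) : LimP (fun a => p a ∨ q a) := by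
  obtain ⟨g, hg, hh⟩ := hp
  obtain ⟨g', hg', hh'⟩ := hq
  refine ⟨fun a s => g a s || g' a s, Computable₂.comp Primrec.or.to_comp hg hg', fun a => ?_⟩
  filter_upwards [hh a, hh' a] with s hs hs'
  rw [← hs, ← hs']; simp

theorem LimP.comp {p : β → Prop} {f : α → β} (hp : LimP p) (hf : LimC f) :
    LimP (fun a => p (f a)) := by
  obtain ⟨g, hg, hh⟩ := hp
  obtain ⟨F, cF, hF⟩ := hf
  refine ⟨fun a s => g (F a s) s, Computable₂.comp hg cF Computable.snd, fun a => ?_⟩
  filter_upwards [hF a, hh (f a)] with s h1 h2
  rw [h1, h2]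

theorem LimP.comp_computable {p : β → Prop} {f : α → β} (hp : LimP p) (hf : Computable f) :
    LimP (fun a => p (f a)) := hp.comp (LimC.of_computable hf)

theorem LimP.eq {f g : α → ℕ} (hf : LimC f) (hg : LimC g) : LimP (fun a => f a = g a) := by
  obtain ⟨F, cF, hF⟩ := hf
  obtain ⟨G, cG, hG⟩ := hg
  refine ⟨fun a s => decide (F a s = G a s), computable_decide_eq cF cG, fun a => ?_⟩
  filter_upwards [hF a, hG a] with s h1 h2
  rw [h1, h2]; simp

theorem LimP.lt {f g : α → ℕ} (hf : LimC f) (hg : LimC g) : LimP (fun a => f a < g a) := by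
  obtain ⟨F, cF, hF⟩ := hf
  obtain ⟨G, cG, hG⟩ := hg
  refine ⟨fun a s => decide (F a s < G a s), computable_decide_lt cF cG, fun a => ?_⟩
  filter_upwards [hF a, hG a] with s h1 h2
  rw [h1, h2]; simp

theorem LimP.le {f g : α → ℕ} (hf : LimC f) (hg : LimC g) : LimP (fun a => f a ≤ g a) := by
  obtain ⟨F, cF, hF⟩ := hf
  obtain ⟨G, cG, hG⟩ := hg
  refine ⟨fun a s => decide (F a s ≤ G a s), computable_decide_le cF cG, fun a => ?_⟩
  filter_upwards [hF a, hG a] with s h1 h2
  rw [h1, h2]; simp

theorem LimP.ball {p : α × ℕ → Prop} {f : α → ℕ} (hp : LimP p) (hf : LimC f) :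
    LimP (fun a => ∀ n < f a, p (a, n)) := by
  obtain ⟨g, hg, hh⟩ := hp
  obtain ⟨F, cF, hF⟩ := hf
  refine ⟨fun a s => D2.ball (fun n => g (a, n) s) (F a s), ?_, fun a => ?_⟩
  · refine computable_ball (α := α × ℕ) (c := fun q n => g (q.1, n) q.2) (f := fun q => F q.1 q.2)
      ?_ cF
    exact Computable₂.comp hg ((Computable.fst.comp Computable.fst).pair Computable.snd)
      (Computable.snd.comp Computable.fst)
  · have := eventually_all_lt (n := f a) (p := fun n s => (g (a, n) s = true ↔ p (a, n)))
      (fun n _ => hh (a, n))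
    filter_upwards [hF a, this] with s h1 h2
    rw [ball_eq_true, h1]
    exact ⟨fun h n hn => (h2 n hn).1 (h n hn), fun h n hn => (h2 n hn).2 (h n hn)⟩

theorem LimP.bex {p : α × ℕ → Prop} {f : α → ℕ} (hp : LimP p) (hf : LimC f) :
    LimP (fun a => ∃ n < f a, p (a, n)) := by
  refine (LimP.ball (f := f) hp.not hf).not.of_iff (fun a => ?_)
  push Not; rfl

/-- the least witness of a limit computable predicate is limit computable -/
theorem LimP.find {p : α × ℕ → Prop} {f : α → ℕ} (hp : LimP p) (h1 : ∀ a, p (a, f a))
    (h2 : ∀ a, ∀ m < f a, ¬ p (a, m)) : LimC f := by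
  obtain ⟨g, hg, hh⟩ := hp
  refine ⟨fun a s => bfind (fun n => g (a, n) s) s, ?_, fun a => ?_⟩
  · refine computable_bfind (α := α × ℕ) (c := fun q n => g (q.1, n) q.2) (f := fun q => q.2)
      ?_ Computable.snd
    exact Computable₂.comp hg ((Computable.fst.comp Computable.fst).pair Computable.snd)
      (Computable.snd.comp Computable.fst)
  · have := eventually_all_lt (n := f a + 1) (p := fun n s => (g (a, n) s = true ↔ p (a, n)))
      (fun n _ => hh (a, n))
    filter_upwards [this, eventually_gt_atTop (f a)] with s h3 h4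
    refine bfind_eq h4 ((h3 _ (by omega)).2 (h1 a)) (fun m hm => ?_)
    rw [← Bool.not_eq_true]
    exact fun h => h2 a m hm ((h3 m (by omega)).1 h)

open scoped Classical in
theorem LimP.count {p : α × ℕ → Prop} {f : α → ℕ} (hp : LimP p) (hf : LimC f) :
    LimC (fun a => Nat.count (fun n => p (a, n)) (f a)) := by
  obtain ⟨g, hg, hh⟩ := hp
  obtain ⟨F, cF, hF⟩ := hf
  refine ⟨fun a s => bcount (fun n => g (a, n) s) (F a s), ?_, fun a => ?_⟩
  · refine computable_bcount (α := α × ℕ) (c := fun q n => g (q.1, n) q.2)
      (f := fun q => F q.1 q.2) ?_ cF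
    exact Computable₂.comp hg ((Computable.fst.comp Computable.fst).pair Computable.snd)
      (Computable.snd.comp Computable.fst)
  · have := eventually_all_lt (n := f a) (p := fun n s => (g (a, n) s = true ↔ p (a, n)))
      (fun n _ => hh (a, n))
    filter_upwards [hF a, this] with s h1 h2
    rw [bcount_eq, h1, Nat.count_eq_card_filter_range, Nat.count_eq_card_filter_range]
    congr 1
    apply Finset.filter_congr
    intro n hn
    exact h2 n (Finset.mem_range.1 hn)

/-- `Σ⁰₂ ∩ Π⁰₂` predicates are limit computable -/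
theorem LimP.of_sigma_pi {p : α → Prop} {R R' : α → ℕ → ℕ → Bool}
    (hR : Computable (fun q : α × ℕ × ℕ => R q.1 q.2.1 q.2.2))
    (hR' : Computable (fun q : α × ℕ × ℕ => R' q.1 q.2.1 q.2.2))
    (h1 : ∀ a, p a ↔ ∃ n, ∀ t, R a n t = true) (h2 : ∀ a, ¬ p a ↔ ∃ n, ∀ t, R' a n t = true) :
    LimP p := by
  classical
  -- the least n which has not been refuted on either side
  have cR : Computable (fun q : (α × ℕ) × ℕ => D2.ball (fun t => R q.1.1 q.2 t) q.1.2) := by
    refine computable_ball (α := (α × ℕ) × ℕ) (c := fun q t => R q.1.1 q.2 t)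
      (f := fun q => q.1.2) ?_ (Computable.snd.comp Computable.fst)
    have e : Computable (fun x : ((α × ℕ) × ℕ) × ℕ => (x.1.1.1, x.1.2, x.2)) :=
      (Computable.fst.comp (Computable.fst.comp Computable.fst)).pair
        ((Computable.snd.comp Computable.fst).pair Computable.snd)
    have h0 := hR.comp e
    exact h0
  have cR' : Computable (fun q : (α × ℕ) × ℕ => D2.ball (fun t => R' q.1.1 q.2 t) q.1.2) := by
    refine computable_ball (α := (α × ℕ) × ℕ) (c := fun q t => R' q.1.1 q.2 t)
      (f := fun q => q.1.2) ?_ (Computable.snd.comp Computable.fst)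
    have e : Computable (fun x : ((α × ℕ) × ℕ) × ℕ => (x.1.1.1, x.1.2, x.2)) :=
      (Computable.fst.comp (Computable.fst.comp Computable.fst)).pair
        ((Computable.snd.comp Computable.fst).pair Computable.snd)
    have h0 := hR'.comp e
    exact h0
  let N : α → ℕ → ℕ := fun a s =>
    bfind (fun n => D2.ball (fun t => R a n t) s || D2.ball (fun t => R' a n t) s) s
  have cN : Computable₂ N := by
    refine computable_bfind (α := α × ℕ)
      (c := fun q n => (D2.ball (fun t => R q.1 n t) q.2 || D2.ball (fun t => R' q.1 n t) q.2))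
      (f := fun q => q.2) ?_ Computable.snd
    exact Computable₂.comp Primrec.or.to_comp cR cR'
  refine ⟨fun a s => D2.ball (fun t => R a (N a s) t) s, ?_, fun a => ?_⟩
  · refine computable_ball (α := α × ℕ) (c := fun q t => R q.1 (N q.1 q.2) t)
      (f := fun q => q.2) ?_ Computable.snd
    have e : Computable (fun x : (α × ℕ) × ℕ => (x.1.1, N x.1.1 x.1.2, x.2)) :=
      (Computable.fst.comp Computable.fst).pair ((Computable.comp cN Computable.fst).pair
        Computable.snd)
    have h0 := hR.comp e
    exact h0
  · have hex : ∃ n, (∀ t, R a n t = true) ∨ (∀ t, R' a n t = true) := by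
      by_cases hp : p a
      · obtain ⟨n, hn⟩ := (h1 a).1 hp; exact ⟨n, Or.inl hn⟩
      · obtain ⟨n, hn⟩ := (h2 a).1 hp; exact ⟨n, Or.inr hn⟩
    let n0 := Nat.find hex
    have hn0 := Nat.find_spec hex
    have hlt : ∀ᶠ s in atTop, ∀ m < n0,
        (D2.ball (fun t => R a m t) s || D2.ball (fun t => R' a m t) s) = false := by
      apply eventually_all_lt
      intro m hm
      have := Nat.find_min hex hm
      push Not at this
      obtain ⟨⟨t1, ht1⟩, t2, ht2⟩ := this
      filter_upwards [eventually_gt_atTop t1, eventually_gt_atTop t2] with s hs1 hs2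
      rw [Bool.or_eq_false_iff]
      constructor
      · rw [← Bool.not_eq_true, ball_eq_true]; exact fun h => ht1 (h t1 hs1)
      · rw [← Bool.not_eq_true, ball_eq_true]; exact fun h => ht2 (h t2 hs2)
    have hN : ∀ᶠ s in atTop, N a s = n0 := by
      filter_upwards [hlt, eventually_gt_atTop n0] with s hs1 hs2
      refine bfind_eq hs2 ?_ hs1
      rw [Bool.or_eq_true, ball_eq_true, ball_eq_true]
      exact hn0.imp (fun h t _ => h t) (fun h t _ => h t)
    by_cases hp : p a
    · have hR0 : ∀ t, R a n0 t = true := by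
        rcases hn0 with h | h
        · exact h
        · exact absurd hp ((h2 a).2 ⟨n0, h⟩)
      filter_upwards [hN] with s hs
      rw [hs, ball_eq_true]
      exact ⟨fun _ => hp, fun _ t _ => hR0 t⟩
    · have hR0 : ¬ ∀ t, R a n0 t = true := fun h => hp ((h1 a).2 ⟨n0, h⟩)
      push Not at hR0
      obtain ⟨t, ht⟩ := hR0
      filter_upwards [hN, eventually_gt_atTop t] with s hs hst
      rw [hs, ball_eq_true]
      exact ⟨fun h => absurd (h t hst) ht, fun h => absurd h hp⟩

end Pool.Agent.Lib_helper87.D2
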