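import Pool.Agent.Lib_helper87.D2.Defs
import Pool.Agent.Lib_helper87.D2.LimAPI

/-!
# Closure properties of the arithmetical hierarchy
-/

namespace Pool.Agent.Lib_helper87.D2

theorem IsPi.congr {n : ℕ} {P Q : ℕ → Prop} (h : IsPi n P) (e : ∀ x, P x ↔ Q x) : IsPi n Q := by
  have : P = Q := funext (fun x => propext (e x))
  rwa [← this]

theorem computablePred_iff_bool {α : Type*} [Primcodable α] {p : α → Prop} :
    ComputablePred p ↔ ∃ c : α → Bool, Computable c ∧ ∀ a, p a ↔ c a = true := by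
  rw [ComputablePred.computable_iff]
  constructor
  · rintro ⟨f, hf, rfl⟩; exact ⟨f, hf, fun a => Iff.rfl⟩
  · rintro ⟨f, hf, h⟩; exact ⟨f, hf, funext (fun a => propext (h a))⟩

theorem IsPi.comp {n : ℕ} {P : ℕ → Prop} (h : IsPi n P) {f : ℕ → ℕ} (hf : Computable f) :
    IsPi n (fun x => P (f x)) := by
  induction n generalizing P f with
  | zero =>
    obtain ⟨c, hc, h1⟩ := computablePred_iff_bool.1 h
    exact computablePred_iff_bool.2 ⟨fun x => c (f x), hc.comp hf, fun x => h1 _⟩
  | succ n ih =>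
    obtain ⟨Q, hQ, hP⟩ := h
    refine ⟨fun k => Q (Nat.pair (f k.unpair.1) k.unpair.2), ih hQ ?_, fun x => ?_⟩
    · exact Primrec₂.natPair.to_comp.comp (hf.comp (Computable.fst.comp Computable.unpair))
        (Computable.snd.comp Computable.unpair)
    · beta_reduce; rw [hP]; simp

theorem IsPi.and_or (n : ℕ) : (∀ P Q, IsPi n P → IsPi n Q → IsPi n (fun x => P x ∧ Q x)) ∧
    (∀ P Q, IsPi n P → IsPi n Q → IsPi n (fun x => P x ∨ Q x)) := by
  induction n with
  | zero =>
    constructor
    · intro P Q hP hQ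
      obtain ⟨c, hc, h1⟩ := computablePred_iff_bool.1 hP
      obtain ⟨d, hd, h2⟩ := computablePred_iff_bool.1 hQ
      exact computablePred_iff_bool.2 ⟨fun x => c x && d x,
        Computable₂.comp Primrec.and.to_comp hc hd, fun x => by simp [h1, h2]⟩
    · intro P Q hP hQ
      obtain ⟨c, hc, h1⟩ := computablePred_iff_bool.1 hP
      obtain ⟨d, hd, h2⟩ := computablePred_iff_bool.1 hQ
      exact computablePred_iff_bool.2 ⟨fun x => c x || d x,
        Computable₂.comp Primrec.or.to_comp hc hd, fun x => by simp [h1, h2]⟩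
  | succ n ih =>
    have e1 : Computable (fun k : ℕ => Nat.pair k.unpair.1 k.unpair.2.unpair.1) :=
      Primrec₂.natPair.to_comp.comp (Computable.fst.comp Computable.unpair)
        (Computable.fst.comp (Computable.unpair.comp (Computable.snd.comp Computable.unpair)))
    have e2 : Computable (fun k : ℕ => Nat.pair k.unpair.1 k.unpair.2.unpair.2) :=
      Primrec₂.natPair.to_comp.comp (Computable.fst.comp Computable.unpair)
        (Computable.snd.comp (Computable.unpair.comp (Computable.snd.comp Computable.unpair)))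
    constructor
    · rintro P Q ⟨P', hP', hP⟩ ⟨Q', hQ', hQ⟩
      refine ⟨_, ih.2 _ _ (hP'.comp e1) (hQ'.comp e2), fun x => ?_⟩
      beta_reduce
      rw [hP, hQ]
      simp only [Nat.unpair_pair, not_or]
      constructor
      · rintro ⟨h1, h2⟩ y
        exact ⟨h1 _, h2 _⟩
      · intro h
        refine ⟨fun y => ?_, fun y => ?_⟩
        · have := (h (Nat.pair y 0)).1
          simpa using this
        · have := (h (Nat.pair 0 y)).2
          simpa using this
    · rintro P Q ⟨P', hP', hP⟩ ⟨Q', hQ', hQ⟩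
      refine ⟨_, ih.1 _ _ (hP'.comp e1) (hQ'.comp e2), fun x => ?_⟩
      beta_reduce
      rw [hP, hQ]
      simp only [Nat.unpair_pair, not_and_or]
      constructor
      · rintro (h | h) y
        · exact Or.inl (h _)
        · exact Or.inr (h _)
      · intro h
        by_contra hne
        rw [not_or] at hne
        obtain ⟨h1, h2⟩ := hne
        simp only [not_forall, not_not] at h1 h2
        obtain ⟨y1, h1⟩ := h1
        obtain ⟨y2, h2⟩ := h2
        have := h (Nat.pair y1 y2)
        simp only [Nat.unpair_pair] at this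
        rcases this with h3 | h3
        · exact h3 h1
        · exact h3 h2

theorem IsPi.not_succ {n : ℕ} {P : ℕ → Prop} (h : IsPi n P) : IsPi (n + 1) (fun x => ¬ P x) :=
  ⟨fun k => P k.unpair.1, h.comp (Computable.fst.comp Computable.unpair), fun x => by simp⟩

theorem IsPi.not_zero {P : ℕ → Prop} (h : IsPi 0 P) : IsPi 0 (fun x => ¬ P x) := by
  obtain ⟨c, hc, h1⟩ := computablePred_iff_bool.1 h
  exact computablePred_iff_bool.2 ⟨fun x => !(c x), Primrec.not.to_comp.comp hc,
    fun x => by simp [h1]⟩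

theorem IsPi.succ {n : ℕ} {P : ℕ → Prop} (h : IsPi n P) : IsPi (n + 1) P := by
  induction n generalizing P with
  | zero => exact (h.not_zero.not_succ).congr (fun x => not_not)
  | succ n ih =>
    obtain ⟨Q, hQ, hP⟩ := h
    exact ⟨Q, ih hQ, hP⟩

theorem IsPi.all {n : ℕ} {P : ℕ → Prop} (h : IsPi (n + 1) P) :
    IsPi (n + 1) (fun x => ∀ y, P (Nat.pair x y)) := by
  obtain ⟨Q, hQ, hP⟩ := h
  have e : Computable (fun k : ℕ => Nat.pair (Nat.pair k.unpair.1 k.unpair.2.unpair.1)
      k.unpair.2.unpair.2) :=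
    Primrec₂.natPair.to_comp.comp (Primrec₂.natPair.to_comp.comp
      (Computable.fst.comp Computable.unpair)
      (Computable.fst.comp (Computable.unpair.comp (Computable.snd.comp Computable.unpair))))
      (Computable.snd.comp (Computable.unpair.comp (Computable.snd.comp Computable.unpair)))
  refine ⟨_, hQ.comp e, fun x => ?_⟩
  simp only [Nat.unpair_pair]
  constructor
  · intro h1 y
    exact (hP _).1 (h1 _) _
  · intro h1 y
    rw [hP]
    intro w
    have := h1 (Nat.pair y w)
    simpa using this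

/-! ### predicates on arbitrary codable types -/

variable {α β : Type*} [Primcodable α] [Primcodable β]

/-- `Π⁰ₙ` predicates on a codable type -/
def HPi (n : ℕ) (p : α → Prop) : Prop := ∃ Q, IsPi n Q ∧ ∀ a, p a ↔ Q (Encodable.encode a)

/-- `Σ⁰ₙ` predicates on a codable type -/
def HSi (n : ℕ) (p : α → Prop) : Prop := HPi n (fun a => ¬ p a)

theorem HPi.of_iff {n : ℕ} {p q : α → Prop} (h : HPi n p) (e : ∀ a, p a ↔ q a) : HPi n q := by
  obtain ⟨Q, hQ, h1⟩ := h
  exact ⟨Q, hQ, fun a => by rw [← e, h1]⟩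

theorem HSi.of_iff {n : ℕ} {p q : α → Prop} (h : HSi n p) (e : ∀ a, p a ↔ q a) : HSi n q :=
  HPi.of_iff h (fun a => not_congr (e a))

theorem HPi.of_bool {c : α → Bool} (hc : Computable c) : HPi 0 (fun a => c a = true) := by
  refine ⟨fun k => ((Encodable.decode (α := α) k).map c).getD false = true, ?_, fun a => ?_⟩
  · refine computablePred_iff_bool.2 ⟨_, ?_, fun x => Iff.rfl⟩
    exact Computable.option_getD (Computable.option_map Computable.decode
      (Computable₂.mk (hc.comp Computable.snd))) (Computable.const false)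
  · simp

theorem HPi.comp {n : ℕ} {p : α → Prop} (h : HPi n p) {f : β → α} (hf : Computable f) :
    HPi n (fun b => p (f b)) := by
  obtain ⟨Q, hQ, h1⟩ := h
  refine ⟨fun k => Q (((Encodable.decode (α := β) k).map
    (fun b => Encodable.encode (f b))).getD 0), hQ.comp ?_, fun b => ?_⟩
  · exact Computable.option_getD (Computable.option_map Computable.decode
      (Computable₂.mk (Computable.encode.comp (hf.comp Computable.snd)))) (Computable.const 0)
  · simp [h1]

theorem HSi.comp {n : ℕ} {p : α → Prop} (h : HSi n p) {f : β → α} (hf : Computable f) :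
    HSi n (fun b => p (f b)) := HPi.comp (p := fun a => ¬ p a) h hf

theorem HPi.and {n : ℕ} {p q : α → Prop} (hp : HPi n p) (hq : HPi n q) :
    HPi n (fun a => p a ∧ q a) := by
  obtain ⟨P, hP, h1⟩ := hp
  obtain ⟨Q, hQ, h2⟩ := hq
  exact ⟨_, (IsPi.and_or n).1 _ _ hP hQ, fun a => by beta_reduce; rw [h1, h2]⟩

theorem HPi.or {n : ℕ} {p q : α → Prop} (hp : HPi n p) (hq : HPi n q) :
    HPi n (fun a => p a ∨ q a) := by
  obtain ⟨P, hP, h1⟩ := hp
  obtain ⟨Q, hQ, h2⟩ := hq
  exact ⟨_, (IsPi.and_or n).2 _ _ hP hQ, fun a => by beta_reduce; rw [h1, h2]⟩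

theorem HSi.and {n : ℕ} {p q : α → Prop} (hp : HSi n p) (hq : HSi n q) :
    HSi n (fun a => p a ∧ q a) :=
  HPi.of_iff (HPi.or hp hq) (fun a => by tauto)

theorem HSi.or {n : ℕ} {p q : α → Prop} (hp : HSi n p) (hq : HSi n q) :
    HSi n (fun a => p a ∨ q a) :=
  HPi.of_iff (HPi.and hp hq) (fun a => by tauto)

theorem HPi.succ {n : ℕ} {p : α → Prop} (h : HPi n p) : HPi (n + 1) p := by
  obtain ⟨Q, hQ, h1⟩ := h
  exact ⟨Q, hQ.succ, h1⟩

theorem HSi.succ {n : ℕ} {p : α → Prop} (h : HSi n p) : HSi (n + 1) p := HPi.succ h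

theorem HPi.mono {n m : ℕ} {p : α → Prop} (h : HPi n p) (hnm : n ≤ m) : HPi m p := by
  induction m, hnm using Nat.le_induction with
  | base => exact h
  | succ m _ ih => exact ih.succ

theorem HSi.mono {n m : ℕ} {p : α → Prop} (h : HSi n p) (hnm : n ≤ m) : HSi m p := HPi.mono h hnm

theorem HPi.toSi {n : ℕ} {p : α → Prop} (h : HPi n p) : HSi (n + 1) p := by
  obtain ⟨Q, hQ, h1⟩ := h
  exact ⟨_, hQ.not_succ, fun a => by beta_reduce; rw [h1]⟩

theorem HSi.toPi {n : ℕ} {p : α → Prop} (h : HSi n p) : HPi (n + 1) p :=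
  HPi.of_iff (p := fun a => ¬ ¬ p a) (HPi.toSi h) (fun _ => not_not)

theorem HPi.all {n : ℕ} {p : α × ℕ → Prop} (h : HPi (n + 1) p) :
    HPi (n + 1) (fun a => ∀ y, p (a, y)) := by
  obtain ⟨Q, hQ, h1⟩ := h
  exact ⟨_, hQ.all, fun a => forall_congr' (fun y => by rw [h1]; rfl)⟩

theorem HSi.ex {n : ℕ} {p : α × ℕ → Prop} (h : HSi (n + 1) p) :
    HSi (n + 1) (fun a => ∃ y, p (a, y)) :=
  HPi.of_iff (HPi.all (p := fun a => ¬ p a) h) (fun a => by rw [not_exists])

theorem HSi.of_bool {c : α → Bool} (hc : Computable c) : HSi 0 (fun a => c a = true) :=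
  HPi.of_iff (HPi.of_bool (c := fun a => !(c a)) (Primrec.not.to_comp.comp hc))
    (fun a => by simp)

/-- bounded quantifiers -/
theorem HPi.ball {n : ℕ} {p : α × ℕ → Prop} (h : HPi (n + 1) p) {f : α → ℕ}
    (hf : Computable f) : HPi (n + 1) (fun a => ∀ y < f a, p (a, y)) := by
  have h1 : HPi (n + 1) (fun q : α × ℕ => (!(decide (q.2 < f q.1))) = true) :=
    (HPi.of_bool (Primrec.not.to_comp.comp
      (computable_decide_lt Computable.snd (hf.comp Computable.fst)))).mono (by omega)
  refine ((h1.or h).all).of_iff (fun a => forall_congr' (fun y => ?_))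
  simp only [Bool.not_eq_true', decide_eq_false_iff_not]
  tauto

theorem HPi.imp {n : ℕ} {p q : α → Prop} (hp : HSi n p) (hq : HPi n q) :
    HPi n (fun a => p a → q a) :=
  (HPi.or (p := fun a => ¬ p a) hp hq).of_iff (fun a => by tauto)

theorem HPi.isPi {n : ℕ} {p : ℕ → Prop} (h : HPi n p) : IsPi n p := by
  obtain ⟨Q, hQ, h1⟩ := h
  exact hQ.congr (fun x => (h1 x).symm)

end Pool.Agent.Lib_helper87.D2
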