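import Pool.Agent.Lib_helper87.D2.Path
import Pool.Agent.Lib_helper87.D2.Nec

/-!
# Verification of the construction: the diagonal sequence
-/

namespace Pool.Agent.Lib_helper87.D2

open Filter

theorem exists_bool_fn (P : ℕ → Prop) (i : ℕ) :
    ∃ g : ℕ → Bool, Primrec g ∧ ∀ m < i, (g m = true ↔ P m) := by
  classical
  induction i with
  | zero => exact ⟨fun _ => true, by fun_prop, fun m hm => absurd hm (by omega)⟩
  | succ i ih =>
    obtain ⟨g, hg, h⟩ := ih
    refine ⟨fun m => bif decide (m = i) then decide (P i) else g m, by fun_prop, fun m hm => ?_⟩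
    by_cases h1 : m = i
    · simp [h1]
    · simp only [h1, decide_false, cond_false]
      exact h m (by omega)

namespace Constr

open Tree

variable (E : Env) (p i : ℕ) (γ : ℕ → Bool)

/-- the node `c` belongs to the group `i` and its guesses of lower groups are right -/
def okn (c : ℕ) : Bool :=
  asg c && (decide (gi c = i) && ball (fun m => !(inf c (aG m)) || γ m) i)

/-- sizes of the pebbles -/
def dsz (z s : ℕ) : ℕ :=
  bif okn i γ z.unpair.1 then
    (bif decide (z.unpair.2 < vv E p s z.unpair.1) then
      Nat.pair z.unpair.1 (yy E p s z.unpair.1) + s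
    else bif (decide (z.unpair.2 = vv E p s z.unpair.1) && dd E p s z.unpair.1) then
      Nat.pair z.unpair.1 (yy E p s z.unpair.1)
    else 0)
  else 0

variable {E p i γ}

section
variable {α : Type*} [Primcodable α] {pp ss cc : α → ℕ}

@[fun_prop] theorem pr_dd (hp : Primrec pp) (hs : Primrec ss) (hc : Primrec cc) :
    Primrec (fun a => dd E (pp a) (ss a) (cc a)) := by
  unfold dd; fun_prop

@[fun_prop] theorem pr_yy (hp : Primrec pp) (hs : Primrec ss) (hc : Primrec cc) :
    Primrec (fun a => yy E (pp a) (ss a) (cc a)) := by
  unfold yy; fun_prop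

@[fun_prop] theorem pr_vv (hp : Primrec pp) (hs : Primrec ss) (hc : Primrec cc) :
    Primrec (fun a => vv E (pp a) (ss a) (cc a)) := by
  unfold vv; fun_prop

@[fun_prop] theorem pr_XS (hp : Primrec pp) (hs : Primrec ss) (hc : Primrec cc) :
    Primrec (fun a => XS E (pp a) (ss a) (cc a)) := by
  unfold XS; fun_prop

end

theorem dsz_primrec (hγ : Primrec γ) : Primrec (fun q : ℕ × ℕ => dsz E p i γ q.1 q.2) := by
  unfold dsz okn
  fun_prop

theorem dd_pos {s c : ℕ} (h : dd E p s c = true) : 0 < yy E p s c := by
  induction s with
  | zero => exact absurd (dd_table h) (by omega)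
  | succ s ih =>
    rcases step (E := E) (p := p) s c with h1 | h1 | h1
    · have h2 : dd E p s c = true := by
        unfold dd at h ⊢
        rw [← h1.1]; exact h
      have := ih h2
      unfold yy at this ⊢
      rw [h1.1]; exact this
    · rw [h1.2.2.1] at h; exact absurd h (by simp)
    · have := h1.2.2.2.2.2.1
      omega

theorem dsz_mono (z s : ℕ) : dsz E p i γ z s ≤ dsz E p i γ z (s + 1) := by
  unfold dsz
  obtain ⟨c, hc⟩ : ∃ c, c = z.unpair.1 := ⟨_, rfl⟩
  obtain ⟨t, ht⟩ : ∃ t, t = z.unpair.2 := ⟨_, rfl⟩
  rw [← hc, ← ht]
  cases okn i γ c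
  · simp
  · rw [cond_true, cond_true]
    have hv := vv_mono (E := E) (p := p) s c
    have hy := yy_mono (E := E) (p := p) s c
    have hp : Nat.pair c (yy E p s c) ≤ Nat.pair c (yy E p (s + 1) c) := by
      rcases Nat.eq_or_lt_of_le hy with h | h
      · rw [h]
      · exact (Nat.pair_lt_pair_right c h).le
    by_cases h1 : t < vv E p s c
    · have h2 : t < vv E p (s + 1) c := by omega
      simp only [h1, h2, decide_true, cond_true]
      omega
    · simp only [h1, decide_false, cond_false]
      cases h3 : (decide (t = vv E p s c) && dd E p s c)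
      · simp
      · rw [Bool.and_eq_true, decide_eq_true_eq] at h3
        rw [cond_true]
        by_cases h4 : t < vv E p (s + 1) c
        · simp only [h4, decide_true, cond_true]
          omega
        · have h5 : t = vv E p (s + 1) c := by omega
          have h6 : dd E p (s + 1) c = true := by
            rcases step (E := E) (p := p) s c with h7 | h7 | h7
            · unfold dd
              rw [h7.1]; exact h3.2
            · have h8 := h7.2.2.2.2
              rw [h3.2, if_pos rfl] at h8
              omega
            · exact h7.2.2.2.1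
          rw [← h5, h6]
          simp only [lt_irrefl, decide_false, cond_false, decide_true, Bool.and_self, cond_true]
          exact hp

/-- the sequence of the pebbles -/
def dseq (E : Env) (p i : ℕ) {γ : ℕ → Bool} (hγ : Primrec γ) : SizeFn where
  n := dsz E p i γ
  comp := (dsz_primrec hγ).to_comp
  mono := dsz_mono

variable {hγ : Primrec γ}

theorem lim_top_of_version {z : ℕ} (h0 : okn i γ z.unpair.1 = true) {s0 : ℕ}
    (h : z.unpair.2 < vv E p s0 z.unpair.1) : (dseq E p i hγ).lim z = ⊤ := by
  rw [SizeFn.lim_eq_top]
  intro m
  filter_upwards [eventually_ge_atTop s0, eventually_gt_atTop m] with s hs1 hs2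
  have h1 : vv E p s0 z.unpair.1 ≤ vv E p s z.unpair.1 :=
    monotone_nat_of_le_succ (f := fun s => vv E p s z.unpair.1) (fun s => vv_mono s _) hs1
  have h2 : z.unpair.2 < vv E p s z.unpair.1 := by omega
  show m < dsz E p i γ z s
  unfold dsz
  simp only [h0, h2, decide_true, cond_true]
  omega

theorem lim_top_of_yy {z : ℕ} (h0 : okn i γ z.unpair.1 = true)
    (h1 : ∀ᶠ s in atTop, vv E p s z.unpair.1 = z.unpair.2)
    (h2 : ∀ n, ∀ᶠ s in atTop, n < yy E p s z.unpair.1) : (dseq E p i hγ).lim z = ⊤ := by
  rw [SizeFn.lim_eq_top]
  rcases mono_cases (f := fun s => (dseq E p i hγ).n z s) (fun s => dsz_mono z s) with h3 | ⟨n, h3⟩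
  · exact h3
  · exfalso
    have k1 := (tendsto_add_atTop_nat 1).eventually h1
    have k2 := (tendsto_add_atTop_nat 1).eventually (h2 n)
    have k3 := (tendsto_add_atTop_nat 1).eventually h3
    obtain ⟨s, hs1, hs2, hs3, hs4⟩ := ((freq_move h2).and_eventually (k1.and (k2.and k3))).exists
    have h4 : dsz E p i γ z (s + 1) = Nat.pair z.unpair.1 (yy E p (s + 1) z.unpair.1) := by
      unfold dsz
      rw [hs2, hs1.2.2.2.1]
      simp only [h0, cond_true, lt_irrefl, decide_false, cond_false, decide_true, Bool.and_self]
    have h5 : (dseq E p i hγ).n z (s + 1) = dsz E p i γ z (s + 1) := rfl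
    have h6 := Nat.right_le_pair z.unpair.1 (yy E p (s + 1) z.unpair.1)
    omega

/-- the pebbles take their sizes in the set of sizes -/
theorem dseq_lim (hD : ∀ m < i, (γ m = true ↔ Dv E p m)) (z : ℕ) :
    (dseq E p i hγ).lim z = ⊤ ∨
      ∃ w : ℕ, (dseq E p i hγ).lim z = w ∧ (w = 0 ∨ XX E p w) := by
  obtain ⟨c, hc⟩ : ∃ c, c = z.unpair.1 := ⟨_, rfl⟩
  obtain ⟨t, ht⟩ : ∃ t, t = z.unpair.2 := ⟨_, rfl⟩
  cases hok : okn i γ c
  · right
    refine ⟨0, ?_, Or.inl rfl⟩
    rw [SizeFn.lim_eq_coe]
    refine Eventually.of_forall (fun s => ?_)
    show dsz E p i γ z s = 0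
    unfold dsz
    rw [← hc, hok, cond_false]
  · by_cases hver : ∃ s0, t < vv E p s0 c
    · obtain ⟨s0, hs0⟩ := hver
      left
      rw [hc] at hok
      rw [hc, ht] at hs0
      exact lim_top_of_version hok hs0
    · push Not at hver
      rcases rc_cases (E := E) (p := p) c with hy | ⟨r, hr⟩
      · rcases mono_cases (f := fun s => vv E p s c) (fun s => vv_mono s c) with hv | ⟨n, hv⟩
        · exfalso
          obtain ⟨s, hs⟩ := (hv t).exists
          have := hver s
          omega
        · by_cases hnt : n = t
          · left
            rw [hc] at hok hv hy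
            rw [hnt, ht] at hv
            exact lim_top_of_yy hok hv hy
          · right
            refine ⟨0, ?_, Or.inl rfl⟩
            rw [SizeFn.lim_eq_coe]
            filter_upwards [hv] with s hs
            show dsz E p i γ z s = 0
            unfold dsz
            rw [← hc, ← ht, hok, cond_true]
            have h1 := hver s
            have h2 : ¬ t < vv E p s c := by omega
            have h3 : ¬ t = vv E p s c := by rw [hs]; exact fun h => hnt h.symm
            simp only [h2, h3, decide_false, cond_false, Bool.false_and]
      · right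
        have hval : ∀ᶠ s in atTop, dsz E p i γ z s =
            bif (decide (t = r.2.2) && r.1) then Nat.pair c r.2.1 else 0 := by
          filter_upwards [hr] with s hs
          have e1 : vv E p s c = r.2.2 := by unfold vv; rw [hs]
          have e2 : dd E p s c = r.1 := by unfold dd; rw [hs]
          have e3 : yy E p s c = r.2.1 := by unfold yy; rw [hs]
          unfold dsz
          rw [← hc, ← ht, hok, cond_true, e1, e2, e3]
          have h1 := hver s
          rw [e1] at h1
          have h2 : ¬ t < r.2.2 := by omega
          simp only [h2, decide_false, cond_false]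
        cases hb : (decide (t = r.2.2) && r.1)
        · refine ⟨0, ?_, Or.inl rfl⟩
          rw [SizeFn.lim_eq_coe]
          filter_upwards [hval] with s hs
          rw [hb, cond_false] at hs
          exact hs
        · rw [hb, cond_true] at hval
          rw [Bool.and_eq_true, decide_eq_true_eq] at hb
          refine ⟨Nat.pair c r.2.1, ?_, Or.inr ?_⟩
          · rw [SizeFn.lim_eq_coe]
            exact hval
          · by_contra hX
            have hX' := not_XX hX
            have hok' := hok
            unfold okn at hok'
            simp only [Bool.and_eq_true, decide_eq_true_eq, ball_eq_true, Bool.or_eq_true,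
              Bool.not_eq_true'] at hok'
            obtain ⟨hasg, hgi, hγm⟩ := hok'
            have hblk : ∀ᶠ s in atTop, BB E p s c = true := by
              filter_upwards [hX', hr] with s hs1 hs2
              unfold XS xs at hs1
              rw [Nat.unpair_pair] at hs1
              simp only [hs2, hasg, hb.2, decide_true, Bool.true_and, Bool.not_eq_false',
                Bool.and_eq_true] at hs1
              exact hs1.2
            have hw : Nat.pair c r.2.1 ≠ 0 := by
              obtain ⟨s, hs⟩ := hr.exists
              have h1 : dd E p s c = true := by unfold dd; rw [hs]; exact hb.2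
              have h2 := dd_pos h1
              have h3 : yy E p s c = r.2.1 := by unfold yy; rw [hs]
              have h4 := Nat.right_le_pair c r.2.1
              omega
            -- no column of a lower group sits at the position
            have hno : ∀ᶠ s in atTop, ∀ m < i, ¬ (inf c (aG m) = true ∧
                ∃ j < bound c r.2.1 + 1, E.u (Nat.pair m j) s = Nat.pair c r.2.1) := by
              apply eventually_all_lt
              intro m hm
              by_cases hi : inf c (aG m) = true
              swap
              · exact Eventually.of_forall (fun s h => hi h.1)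
              have hγ1 : γ m = true := by
                rcases hγm m hm with h | h
                · rw [hi] at h; exact absurd h (by simp)
                · exact h
              have hDm := (hD m hm).1 hγ1
              have : ∀ᶠ s in atTop, ∀ j < bound c r.2.1 + 1,
                  E.u (Nat.pair m j) s ≠ Nat.pair c r.2.1 := by
                apply eventually_all_lt
                intro j _
                rcases hDm j with h | ⟨w, h1, h2⟩
                · filter_upwards [h (Nat.pair c r.2.1)] with s hs
                  omega
                · filter_upwards [h1] with s hs h3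
                  rw [hs] at h3
                  rcases h2 with h2 | h2
                  · exact hw (h3.symm.trans h2)
                  · exact hX (h3 ▸ h2)
              filter_upwards [this] with s hs
              rintro ⟨_, j, hj, h⟩
              exact hs j hj h
            obtain ⟨s, hs1, hs2, hs3⟩ := (hblk.and (hno.and hr)).exists
            unfold BB blocked at hs1
            rw [bex_eq_true] at hs1
            obtain ⟨m, hm, hs1⟩ := hs1
            rw [Bool.and_eq_true, bex_eq_true, hs3] at hs1
            obtain ⟨h1, j, hj, h2⟩ := hs1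
            rw [decide_eq_true_eq] at h2
            rw [hgi] at hm
            exact hs2 m hm ⟨h1, j, hj, h2⟩

/-- the sequence of the pebbles diagonalises against the `k`-th sequence -/
theorem dseq_diag (hD : ∀ m < i, (γ m = true ↔ Dv E p m))
    (hq : ∀ k, ∃ x, ∀ n, ∀ᶠ s in atTop, n < E.q p (Nat.pair i (Nat.pair k x)) s) (k : ℕ) :
    ∃ z, ((dseq E p i hγ).lim z = ⊤ ↔ DI E k z) := by
  obtain ⟨a, ha1, ha2, ha3⟩ := exists_asg (E := E) (p := p) (i := i) (k := k) (fun k' _ => hq k')
  obtain ⟨c, hc⟩ : ∃ c, c = tp E p a := ⟨_, rfl⟩
  rw [← hc] at ha3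
  have hlen : len c = a := by rw [hc, len_tp]
  have hgi : gi c = i := by unfold gi; rw [hlen, ha2, Nat.unpair_pair]
  have hgk : gk c = k := by unfold gk; rw [hlen, ha2, Nat.unpair_pair]
  have hpa := pa_iff.1 (asg_iff.1 ha3).2.1
  have hok : okn i γ c = true := by
    unfold okn
    simp only [Bool.and_eq_true, decide_eq_true_eq, ball_eq_true, Bool.or_eq_true,
      Bool.not_eq_true']
    refine ⟨ha3, hgi, fun m hm => ?_⟩
    by_cases hi : inf c (aG m) = true
    · right
      have hmG : aG m < a := hlen ▸ hpa.2.2 m (by omega)
      rw [hD m hm, ← gg_inf_iff]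
      rw [hc, inf_tp hmG] at hi
      apply gg_inf_of_EE
      refine hi.mono (fun s hs => ?_)
      rw [TT_2 (by rw [len_tp]; exact typ_aG m), len_tp, arg_aG] at hs
      exact hs
    · left
      simpa using hi
  have hnr : ∀ᶠ s in atTop, RS E p s c = false := by rw [hc]; exact no_reset_tp a
  have hnr' : ∀ᶠ s in atTop, RS E p s c = false ∧ c < s + 1 := hnr.and (by
    filter_upwards [eventually_ge_atTop c] with s hs; omega)
  obtain ⟨t, hv⟩ := eventually_const_of_eventually_eq (f := fun s => vv E p s c)
    (hnr'.mono (fun s hs => by
      rcases step (E := E) (p := p) s c with h1 | h1 | h1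
      · unfold vv; rw [h1.1]
      · rw [h1.2.1] at hs; exact absurd hs.1 (by simp)
      · exact h1.2.2.2.2.1.symm))
  refine ⟨Nat.pair c t, ?_⟩
  by_cases hW : ∃ᶠ s in atTop, WW E p s c = true
  · have hy : ∀ n, ∀ᶠ s in atTop, n < yy E p s c := by
      rw [hc] at hW ha3 ⊢
      exact nonstuck (fun b _ => cvt b) ha3 hW
    have h1 : (dseq E p i hγ).lim (Nat.pair c t) = ⊤ := by
      apply lim_top_of_yy
      · rw [Nat.unpair_pair]; exact hok
      · rw [Nat.unpair_pair]; exact hv
      · rw [Nat.unpair_pair]; exact hy
    -- the pebble is eventually placed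
    obtain ⟨s0, hs0⟩ := eventually_atTop.1 hnr
    obtain ⟨s1, hs1, hm⟩ := (frequently_atTop.1 (freq_move hy)) s0
    have hdd : ∀ s, s1 + 1 ≤ s → dd E p s c = true := by
      intro s hs
      induction s, hs using Nat.le_induction with
      | base => exact hm.2.2.2.1
      | succ s hs ih =>
        rcases step (E := E) (p := p) s c with h1 | h1 | h1
        · unfold dd
          rw [h1.1]; exact ih
        · rw [hs0 s (by omega)] at h1
          exact absurd h1.2.1 (by simp)
        · exact h1.2.2.2.1
    have h2 : DI E k (Nat.pair c t) := by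
      intro n
      rcases mono_cases (f := fun s => E.u (Nat.pair k (Nat.pair c t)) s)
        (fun s => E.umono _ s) with h3 | ⟨n', h3⟩
      · exact h3 n
      · exfalso
        obtain ⟨s, k1, k2, k3, k4, k5⟩ := ((freq_move hy).and_eventually
          (h3.and (hv.and ((hy n').and (eventually_ge_atTop (s1 + 1)))))).exists
        have h4 := k1.2.2.1
        unfold WW wanting at h4
        have e1 : (rc (st E p s) c).1 = true := hdd s k5
        have e2 : (rc (st E p s) c).2.2 = t := k3
        rw [e1, e2, hgk, Bool.not_true, Bool.false_or, decide_eq_true_eq] at h4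
        have h5 : (rc (st E p s) c).2.1 = yy E p s c := rfl
        have h6 := Nat.right_le_pair c (yy E p s c)
        rw [h5] at h4
        have h7 : E.u (Nat.pair k (Nat.pair c t)) s = n' := k2
        omega
    exact ⟨fun _ => h2, fun _ => h1⟩
  · rw [not_frequently] at hW
    have hW' : ∀ᶠ s in atTop, dd E p s c = true ∧
        E.u (Nat.pair k (Nat.pair c t)) s ≤ Nat.pair c (yy E p s c) := by
      filter_upwards [hW, hv] with s hs1 hs2
      rw [Bool.not_eq_true] at hs1
      unfold WW wanting at hs1
      have e2 : (rc (st E p s) c).2.2 = t := hs2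
      rw [Bool.or_eq_false_iff, e2, hgk, Bool.not_eq_false', decide_eq_false_iff_not] at hs1
      exact ⟨hs1.1, not_lt.1 hs1.2⟩
    obtain ⟨y, hy⟩ := eventually_const_of_eventually_eq (f := fun s => yy E p s c)
      (hW.mono (fun s hs => by
        rcases step (E := E) (p := p) s c with h1 | h1 | h1
        · unfold yy; rw [h1.1]
        · exact h1.2.2.2.1.symm
        · exact absurd h1.2.2.1 hs))
    have h1 : (dseq E p i hγ).lim (Nat.pair c t) = Nat.pair c y := by
      rw [SizeFn.lim_eq_coe]
      filter_upwards [hW', hy, hv] with s hs1 hs2 hs3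
      show dsz E p i γ (Nat.pair c t) s = Nat.pair c y
      unfold dsz
      rw [Nat.unpair_pair, hok, cond_true]
      simp only [hs2, hs3, hs1.1, lt_irrefl, decide_false, cond_false, decide_true,
        Bool.and_self, cond_true]
    constructor
    · intro h; rw [h1] at h; exact absurd h (ENat.coe_ne_top _)
    · intro h
      exfalso
      obtain ⟨s, hs1, hs2, hs3⟩ := (hW'.and (hy.and (h (Nat.pair c y)))).exists
      rw [hs2] at hs1
      omega

end Constr

end Pool.Agent.Lib_helper87.D2
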