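import Mathlib.Data.Nat.Pairing
import Mathlib.Tactic.Ring
import Mathlib.Tactic.Linarith

/-!
# Nodes of the binary tree, coded by natural numbers

The code `c` stands for the binary string of length `c.unpair.1` whose value is `c.unpair.2`.
The left child (even value) is the infinitary outcome.
-/

namespace Pool.Agent.Lib_helper87.D2.Tree

/-- length -/
def len (c : ℕ) : ℕ := c.unpair.1

/-- value -/
def vl (c : ℕ) : ℕ := c.unpair.2

/-- initial segment of length `a` -/
def pre (c a : ℕ) : ℕ := Nat.pair a (vl c / 2 ^ (len c - a))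

/-- `c` guesses that the outcome at level `a` is infinitary -/
def inf (c a : ℕ) : Bool := decide (vl c / 2 ^ (len c - (a + 1)) % 2 = 0)

/-- `c` codes a binary string -/
def Valid (c : ℕ) : Prop := vl c < 2 ^ len c

/-- in-order relation -/
def ilt (c d : ℕ) : Prop := (2 * vl c + 1) * 2 ^ len d < (2 * vl d + 1) * 2 ^ len c

@[simp] theorem len_pre (c a : ℕ) : len (pre c a) = a := by simp [len, pre]

@[simp] theorem vl_pre (c a : ℕ) : vl (pre c a) = vl c / 2 ^ (len c - a) := by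
  simp [vl, pre]

theorem ext {c d : ℕ} (h1 : len c = len d) (h2 : vl c = vl d) : c = d := by
  rw [← Nat.pair_unpair c, ← Nat.pair_unpair d]
  unfold len at h1
  unfold vl at h2
  rw [h1, h2]

theorem pre_self (c : ℕ) : pre c (len c) = c := by
  apply ext
  · simp
  · simp

theorem div_div_pow {x l a b : ℕ} (hab : a ≤ b) (hb : b ≤ l) :
    x / 2 ^ (l - b) / 2 ^ (b - a) = x / 2 ^ (l - a) := by
  rw [Nat.div_div_eq_div_mul, ← pow_add]
  congr 2
  omega

theorem pre_pre {c a b : ℕ} (hab : a ≤ b) (hb : b ≤ len c) : pre (pre c b) a = pre c a := by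
  apply ext
  · simp
  · simp only [vl_pre, len_pre]
    exact div_div_pow hab hb

theorem inf_pre {c a b : ℕ} (hab : a < b) (hb : b ≤ len c) : inf (pre c b) a = inf c a := by
  unfold inf
  simp only [vl_pre, len_pre]
  rw [div_div_pow (by omega) hb]

theorem valid_pre {c a : ℕ} (h : Valid c) (ha : a ≤ len c) : Valid (pre c a) := by
  unfold Valid at h ⊢
  simp only [vl_pre, len_pre]
  rw [Nat.div_lt_iff_lt_mul (by positivity), ← pow_add]
  have : a + (len c - a) = len c := by omega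
  rw [this]
  exact h

theorem vl_pre_succ {c a : ℕ} (ha : a < len c) : vl (pre c a) = vl (pre c (a + 1)) / 2 := by
  simp only [vl_pre]
  have := div_div_pow (x := vl c) (l := len c) (a := a) (b := a + 1) (by omega) (by omega)
  rw [← this]
  congr 1
  have h : a + 1 - a = 1 := by omega
  rw [h, pow_one]

theorem inf_iff {c a : ℕ} : inf c a = true ↔ vl (pre c (a + 1)) % 2 = 0 := by
  simp [inf]

theorem vl_pre_zero {c : ℕ} (h : Valid c) : vl (pre c 0) = 0 := by
  simp only [vl_pre, Nat.sub_zero]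
  exact Nat.div_eq_of_lt h

/-- if the initial segments of length `n` differ, there is a first difference -/
theorem first_diff {μ σ n : ℕ} (hμ : Valid μ) (hσ : Valid σ) (h1 : n ≤ len μ) (h2 : n ≤ len σ)
    (h : vl (pre σ n) < vl (pre μ n)) :
    ∃ b < n, pre σ b = pre μ b ∧ inf σ b = true ∧ inf μ b = false := by
  induction n with
  | zero => rw [vl_pre_zero hμ, vl_pre_zero hσ] at h; omega
  | succ n ih =>
    have e1 := vl_pre_succ (c := μ) (a := n) (by omega)
    have e2 := vl_pre_succ (c := σ) (a := n) (by omega)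
    by_cases h3 : vl (pre σ n) < vl (pre μ n)
    · obtain ⟨b, hb, hh⟩ := ih (by omega) (by omega) h3
      exact ⟨b, by omega, hh⟩
    · refine ⟨n, by omega, ext (by simp) (by omega), ?_, ?_⟩
      · rw [inf_iff]; omega
      · rw [← Bool.not_eq_true, inf_iff]; omega

theorem ilt_irrefl (c : ℕ) : ¬ ilt c c := by
  unfold ilt; exact lt_irrefl _

theorem ilt_trans {a b c : ℕ} (h1 : ilt a b) (h2 : ilt b c) : ilt a c := by
  unfold ilt at *
  have p1 : 0 < 2 ^ len a := by positivity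
  have p2 : 0 < 2 ^ len b := by positivity
  have p3 : 0 < 2 ^ len c := by positivity
  have h3 : (2 * vl a + 1) * 2 ^ len b * 2 ^ len c < (2 * vl b + 1) * 2 ^ len a * 2 ^ len c :=
    Nat.mul_lt_mul_of_pos_right h1 p3
  have h4 : (2 * vl b + 1) * 2 ^ len c * 2 ^ len a < (2 * vl c + 1) * 2 ^ len b * 2 ^ len a :=
    Nat.mul_lt_mul_of_pos_right h2 p1
  have h5 : (2 * vl a + 1) * 2 ^ len c * 2 ^ len b < (2 * vl c + 1) * 2 ^ len a * 2 ^ len b := by
    calc (2 * vl a + 1) * 2 ^ len c * 2 ^ len b = (2 * vl a + 1) * 2 ^ len b * 2 ^ len c := by ring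
      _ < (2 * vl b + 1) * 2 ^ len a * 2 ^ len c := h3
      _ = (2 * vl b + 1) * 2 ^ len c * 2 ^ len a := by ring
      _ < (2 * vl c + 1) * 2 ^ len b * 2 ^ len a := h4
      _ = (2 * vl c + 1) * 2 ^ len a * 2 ^ len b := by ring
  exact Nat.lt_of_mul_lt_mul_right h5

theorem ilt_asymm {a b : ℕ} (h1 : ilt a b) : ¬ ilt b a := fun h2 => ilt_irrefl _ (ilt_trans h1 h2)

theorem eq_of_not_ilt {a b : ℕ} (h1 : ¬ ilt a b) (h2 : ¬ ilt b a) : a = b := by
  unfold ilt at h1 h2
  have h : (2 * vl a + 1) * 2 ^ len b = (2 * vl b + 1) * 2 ^ len a := by omega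
  have key : ∀ x y i j : ℕ, i < j → (2 * x + 1) * 2 ^ j ≠ (2 * y + 1) * 2 ^ i := by
    intro x y i j hij h3
    have h4 : 2 ^ j = 2 ^ i * (2 * 2 ^ (j - i - 1)) := by
      rw [← pow_succ', ← pow_add]; congr 1; omega
    rw [h4] at h3
    have h5 : 2 ^ i * ((2 * x + 1) * (2 * 2 ^ (j - i - 1))) = 2 ^ i * (2 * y + 1) := by
      rw [← mul_assoc, mul_comm (2 ^ i) (2 * x + 1), mul_assoc, h3, mul_comm]
    have h6 := Nat.eq_of_mul_eq_mul_left (by positivity) h5
    have h7 : (2 * x + 1) * (2 * 2 ^ (j - i - 1)) = 2 * ((2 * x + 1) * 2 ^ (j - i - 1)) := by ring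
    rw [h7] at h6
    omega
  rcases lt_trichotomy (len a) (len b) with h3 | h3 | h3
  · exact absurd h (key _ _ _ _ h3)
  · rw [h3] at h
    have h4 := Nat.eq_of_mul_eq_mul_right (by positivity) h
    exact ext h3 (by omega)
  · exact absurd h.symm (key _ _ _ _ h3)

/-- a node to the left precedes -/
theorem ilt_of_left {μ σ a : ℕ} (h1 : a ≤ len μ) (h2 : a ≤ len σ)
    (h : vl (pre μ a) < vl (pre σ a)) : ilt μ σ := by
  unfold ilt
  simp only [vl_pre] at h
  have p1 : 0 < 2 ^ (len μ - a) := by positivity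
  have p2 : 0 < 2 ^ (len σ - a) := by positivity
  have e1 : 2 ^ (len μ - a) * 2 ^ len σ = 2 ^ (len σ - a) * 2 ^ len μ := by
    rw [← pow_add, ← pow_add]; congr 1; omega
  have b1 : vl μ < (vl μ / 2 ^ (len μ - a) + 1) * 2 ^ (len μ - a) := by
    have := Nat.div_add_mod (vl μ) (2 ^ (len μ - a))
    have h3 := Nat.mod_lt (vl μ) p1
    nlinarith
  have b2 : (vl σ / 2 ^ (len σ - a)) * 2 ^ (len σ - a) ≤ vl σ := Nat.div_mul_le_self _ _
  have b3 : (vl μ / 2 ^ (len μ - a) + 1) * 2 ^ (len σ - a) ≤ vl σ :=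
    le_trans (Nat.mul_le_mul_right _ h) b2
  have b4 : 2 * vl μ + 1 < 2 * ((vl μ / 2 ^ (len μ - a) + 1) * 2 ^ (len μ - a)) := by omega
  calc (2 * vl μ + 1) * 2 ^ len σ
      ≤ 2 * ((vl μ / 2 ^ (len μ - a) + 1) * 2 ^ (len μ - a)) * 2 ^ len σ :=
        Nat.mul_le_mul_right _ b4.le
    _ = 2 * ((vl μ / 2 ^ (len μ - a) + 1) * 2 ^ (len σ - a)) * 2 ^ len μ := by
        rw [mul_assoc, mul_assoc, mul_assoc, mul_assoc, e1]
    _ ≤ 2 * vl σ * 2 ^ len μ := Nat.mul_le_mul_right _ (Nat.mul_le_mul_left _ b3)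
    _ < (2 * vl σ + 1) * 2 ^ len μ := Nat.mul_lt_mul_of_pos_right (by omega) (by positivity)

/-- extensions guessing infinitary precede -/
theorem ilt_of_inf {σ b : ℕ} (hb : b < len σ) (h : inf σ b = true) : ilt σ (pre σ b) := by
  unfold ilt
  rw [inf_iff] at h
  simp only [vl_pre, len_pre] at h ⊢
  obtain ⟨e, he⟩ : ∃ e, len σ = b + 1 + e := ⟨len σ - b - 1, by omega⟩
  have h1 : len σ - (b + 1) = e := by omega
  have h2 : len σ - b = e + 1 := by omega
  rw [h1] at h
  rw [h2]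
  have h3 : vl σ / 2 ^ (e + 1) = vl σ / 2 ^ e / 2 := by
    rw [Nat.div_div_eq_div_mul, ← pow_succ]
  have h4 : 2 * (vl σ / 2 ^ (e + 1)) = vl σ / 2 ^ e := by rw [h3]; omega
  rw [h4, he]
  have h5 : vl σ < (vl σ / 2 ^ e + 1) * 2 ^ e := by
    have := Nat.div_add_mod (vl σ) (2 ^ e)
    have h3 := Nat.mod_lt (vl σ) (show 0 < 2 ^ e by positivity)
    nlinarith
  have h6 : 2 ^ (b + 1 + e) = 2 ^ e * 2 * 2 ^ b := by rw [pow_add, pow_succ]; ring
  rw [h6]
  calc (2 * vl σ + 1) * 2 ^ b < (2 * ((vl σ / 2 ^ e + 1) * 2 ^ e)) * 2 ^ b :=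
        Nat.mul_lt_mul_of_pos_right (by omega) (by positivity)
    _ = (vl σ / 2 ^ e + 1) * (2 ^ e * 2 * 2 ^ b) := by ring

/-- extensions guessing finitary follow -/
theorem ilt_of_fin {σ b : ℕ} (hb : b < len σ) (h : inf σ b = false) : ilt (pre σ b) σ := by
  unfold ilt
  rw [← Bool.not_eq_true, inf_iff] at h
  simp only [vl_pre, len_pre] at h ⊢
  obtain ⟨e, he⟩ : ∃ e, len σ = b + 1 + e := ⟨len σ - b - 1, by omega⟩
  have h1 : len σ - (b + 1) = e := by omega
  have h2 : len σ - b = e + 1 := by omega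
  rw [h1] at h
  rw [h2]
  have h3 : vl σ / 2 ^ (e + 1) = vl σ / 2 ^ e / 2 := by
    rw [Nat.div_div_eq_div_mul, ← pow_succ]
  have h4 : 2 * (vl σ / 2 ^ (e + 1)) + 1 = vl σ / 2 ^ e := by rw [h3]; omega
  rw [h4, he]
  have h5 : vl σ / 2 ^ e * 2 ^ e ≤ vl σ := Nat.div_mul_le_self _ _
  have h6 : 2 ^ (b + 1 + e) = 2 ^ e * 2 * 2 ^ b := by rw [pow_add, pow_succ]; ring
  rw [h6]
  calc vl σ / 2 ^ e * (2 ^ e * 2 * 2 ^ b) = (2 * (vl σ / 2 ^ e * 2 ^ e)) * 2 ^ b := by ring
    _ ≤ (2 * vl σ) * 2 ^ b := Nat.mul_le_mul_right _ (by omega)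
    _ < (2 * vl σ + 1) * 2 ^ b := Nat.mul_lt_mul_of_pos_right (by omega) (by positivity)

/-- classification of the pairs in the in-order relation -/
theorem ilt_cases {σ μ : ℕ} (hσ : Valid σ) (hμ : Valid μ) (h : ilt σ μ) :
    (len σ < len μ ∧ pre μ (len σ) = σ ∧ inf μ (len σ) = false) ∨
    (len μ < len σ ∧ pre σ (len μ) = μ ∧ inf σ (len μ) = true) ∨
    (∃ b, b < len σ ∧ b < len μ ∧ pre σ b = pre μ b ∧ inf σ b = true ∧ inf μ b = false) := by
  have key : ∀ n, n ≤ len σ → n ≤ len μ → vl (pre σ n) ≠ vl (pre μ n) →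
      ∃ b, b < len σ ∧ b < len μ ∧ pre σ b = pre μ b ∧ inf σ b = true ∧ inf μ b = false := by
    intro n h1 h2 h3
    rcases lt_or_gt_of_ne h3 with h4 | h4
    · obtain ⟨b, hb, hh⟩ := first_diff hμ hσ h2 h1 h4
      exact ⟨b, by omega, by omega, hh⟩
    · exact absurd h (ilt_asymm (ilt_of_left h2 h1 h4))
  rcases lt_trichotomy (len σ) (len μ) with hl | hl | hl
  · by_cases h3 : vl (pre σ (len σ)) = vl (pre μ (len σ))
    · left
      rw [pre_self] at h3
      have h4 : pre μ (len σ) = σ := ext (by simp) h3.symm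
      refine ⟨hl, h4, ?_⟩
      by_contra h5
      rw [Bool.not_eq_false] at h5
      have h6 := ilt_of_inf hl h5
      rw [h4] at h6
      exact ilt_asymm h h6
    · right; right
      exact key _ le_rfl hl.le h3
  · by_cases h3 : vl (pre σ (len σ)) = vl (pre μ (len σ))
    · rw [pre_self, hl, pre_self] at h3
      rw [ext hl h3] at h
      exact absurd h (ilt_irrefl _)
    · right; right
      exact key _ le_rfl hl.le h3
  · by_cases h3 : vl (pre σ (len μ)) = vl (pre μ (len μ))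
    · right; left
      rw [pre_self] at h3
      have h4 : pre σ (len μ) = μ := ext (by simp) h3
      refine ⟨hl, h4, ?_⟩
      by_contra h5
      rw [Bool.not_eq_true] at h5
      have h6 := ilt_of_fin hl h5
      rw [h4] at h6
      exact ilt_asymm h h6
    · right; right
      exact key _ hl.le le_rfl h3

end Pool.Agent.Lib_helper87.D2.Tree
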