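import Pool.Agent.Lib_helper87.D2.PR
import Pool.Agent.Lib_helper87.D2.Tree

/-!
# The construction
-/

namespace Pool.Agent.Lib_helper87.D2

/-- some `n < s` satisfies `c` -/
def bex (c : ℕ → Bool) (s : ℕ) : Bool := !(ball (fun n => !(c n)) s)

theorem bex_eq_true {c : ℕ → Bool} {s : ℕ} : bex c s = true ↔ ∃ n < s, c n = true := by
  unfold bex
  rw [Bool.not_eq_true', ← Bool.not_eq_true, ball_eq_true]
  push Not
  simp

@[fun_prop] theorem PR.bex' {α : Type*} [Primcodable α] {c : α → ℕ → Bool} {f : α → ℕ}
    (hc : Primrec (fun q : α × ℕ => c q.1 q.2)) (hf : Primrec f) :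
    Primrec (fun a => bex (fun n => c a n) (f a)) := by
  unfold bex
  fun_prop

namespace Constr

open Tree

/-- type of a level -/
def typ (a : ℕ) : ℕ := a.unpair.1 % 4

/-- argument of a level -/
def arg (a : ℕ) : ℕ := a.unpair.1 / 4

/-- first level for the counter `e` -/
def aC (e : ℕ) : ℕ := Nat.pair (4 * e) 0

/-- first level for the hypothesis `z` -/
def aQ (z : ℕ) : ℕ := Nat.pair (4 * z + 1) 0

/-- first level for the guess `m` -/
def aG (m : ℕ) : ℕ := Nat.pair (4 * m + 2) 0

/-- group of a node -/
def gi (c : ℕ) : ℕ := (arg (len c)).unpair.1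

/-- requirement of a node -/
def gk (c : ℕ) : ℕ := (arg (len c)).unpair.2

/-- `c` has the necessary guesses -/
def pa (c : ℕ) : Bool :=
  decide (typ (len c) = 3) &&
    (ball (fun k' => bex (fun x => decide (aQ (Nat.pair (gi c) (Nat.pair k' x)) < len c) &&
      inf c (aQ (Nat.pair (gi c) (Nat.pair k' x)))) (len c)) (gk c) &&
    ball (fun m => decide (aG m < len c)) (gi c))

/-- `c` is assigned to its requirement -/
def asg (c : ℕ) : Bool :=
  decide (vl c < 2 ^ len c) && (pa c &&
    ball (fun b => !(decide (arg b = arg (len c)) && pa (pre c b))) (len c))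

/-- the in-order relation, as a boolean -/
def iltb (c d : ℕ) : Bool := decide ((2 * vl c + 1) * 2 ^ len d < (2 * vl d + 1) * 2 ^ len c)

section pr

variable {α : Type*} [Primcodable α] {f g : α → ℕ}

@[fun_prop] theorem pr_len (hf : Primrec f) : Primrec (fun a => len (f a)) := by
  unfold len; fun_prop

@[fun_prop] theorem pr_vl (hf : Primrec f) : Primrec (fun a => vl (f a)) := by
  unfold vl; fun_prop

@[fun_prop] theorem pr_pre (hf : Primrec f) (hg : Primrec g) :
    Primrec (fun a => pre (f a) (g a)) := by
  unfold pre; fun_prop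

@[fun_prop] theorem pr_inf (hf : Primrec f) (hg : Primrec g) :
    Primrec (fun a => inf (f a) (g a)) := by
  unfold inf; fun_prop

@[fun_prop] theorem pr_typ (hf : Primrec f) : Primrec (fun a => typ (f a)) := by
  unfold typ; fun_prop

@[fun_prop] theorem pr_arg (hf : Primrec f) : Primrec (fun a => arg (f a)) := by
  unfold arg; fun_prop

@[fun_prop] theorem pr_aC (hf : Primrec f) : Primrec (fun a => aC (f a)) := by
  unfold aC; fun_prop

@[fun_prop] theorem pr_aQ (hf : Primrec f) : Primrec (fun a => aQ (f a)) := by
  unfold aQ; fun_prop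

@[fun_prop] theorem pr_aG (hf : Primrec f) : Primrec (fun a => aG (f a)) := by
  unfold aG; fun_prop

@[fun_prop] theorem pr_gi (hf : Primrec f) : Primrec (fun a => gi (f a)) := by
  unfold gi; fun_prop

@[fun_prop] theorem pr_gk (hf : Primrec f) : Primrec (fun a => gk (f a)) := by
  unfold gk; fun_prop

@[fun_prop] theorem pr_pa (hf : Primrec f) : Primrec (fun a => pa (f a)) := by
  unfold pa; fun_prop

@[fun_prop] theorem pr_asg (hf : Primrec f) : Primrec (fun a => asg (f a)) := by
  unfold asg; fun_prop

@[fun_prop] theorem pr_iltb (hf : Primrec f) (hg : Primrec g) :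
    Primrec (fun a => iltb (f a) (g a)) := by
  unfold iltb; fun_prop

end pr

/-- records of nodes: whether the pebble is placed, its coordinate, its version -/
abbrev Rec := Bool × ℕ × ℕ

/-- the state: the records of the nodes, and the counters of the guesses -/
abbrev State := List Rec × List ℕ

/-- the initial record -/
def init : Rec := (false, 0, 0)

/-- the data: `u` counts the elements of the uniformly c.e. sets, `q` is used for the
quantifiers of the given predicate -/
structure Env where
  /-- sizes of the uniformly c.e. sets -/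
  u : ℕ → ℕ → ℕ
  /-- counters of the given predicate -/
  q : ℕ → ℕ → ℕ → ℕ
  hu : Primrec (fun x : ℕ × ℕ => u x.1 x.2)
  hq : Primrec (fun x : ℕ × ℕ × ℕ => q x.1 x.2.1 x.2.2)
  umono : ∀ e s, u e s ≤ u e (s + 1)
  qmono : ∀ p z s, q p z s ≤ q p z (s + 1)

/-- record of `c` -/
def rc (S : State) (c : ℕ) : Rec := S.1.getD c init

/-- counter of `m` -/
def gt (S : State) (m : ℕ) : ℕ := S.2.getD m 0

variable (E : Env) (p : ℕ) (S : State) (s : ℕ)

/-- `c` wants to move -/
def wanting (c : ℕ) : Bool :=
  !(rc S c).1 ||
    decide (Nat.pair c (rc S c).2.1 < E.u (Nat.pair (gk c) (Nat.pair c (rc S c).2.2)) s)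

/-- bound for the columns looked at -/
def bound (c y : ℕ) : ℕ := Nat.pair c (y + len c + 2)

/-- some column of a lower group sits at the position of `c` -/
def blocked (c : ℕ) : Bool :=
  bex (fun m => inf c (aG m) &&
    bex (fun j => decide (E.u (Nat.pair m j) s = Nat.pair c (rc S c).2.1))
      (bound c (rc S c).2.1 + 1)) (gi c)

/-- the approximation of the set of sizes -/
def xs (w : ℕ) : Bool :=
  asg w.unpair.1 && ((rc S w.unpair.1).1 && (decide ((rc S w.unpair.1).2.1 = w.unpair.2) &&
    !(wanting E S s w.unpair.1 && blocked E S s w.unpair.1)))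

/-- expansionary stages for `m` -/
def expand (m : ℕ) : Bool :=
  ball (fun j => decide (E.u (Nat.pair m j) s = 0) || (xs E S s (E.u (Nat.pair m j) s) ||
    decide (gt S m < E.u (Nat.pair m j) s))) (gt S m + 1)

/-- the event at the node `τ` -/
def tick (τ : ℕ) : Bool :=
  bif decide (typ (len τ) = 0) then !decide (E.u (arg (len τ)) s = E.u (arg (len τ)) (s + 1))
  else bif decide (typ (len τ) = 1) then
    !decide (E.q p (arg (len τ)) s = E.q p (arg (len τ)) (s + 1))
  else bif decide (typ (len τ) = 2) then expand E S s (arg (len τ))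
  else (asg τ && wanting E S s τ)

/-- the counter at the node `τ` -/
def cv (τ : ℕ) : ℕ :=
  bif decide (typ (len τ) = 0) then E.u (arg (len τ)) s
  else bif decide (typ (len τ) = 1) then E.q p (arg (len τ)) s
  else bif decide (typ (len τ) = 2) then gt S (arg (len τ))
  else (rc S τ).2.1

/-- the value `w` is sheltered by a node before `c` -/
def shelt (c w : ℕ) : Bool :=
  (rc S w.unpair.1).1 && (decide ((rc S w.unpair.1).2.1 = w.unpair.2) && iltb w.unpair.1 c)

/-- `c` may move to `y'` -/
def mok (c y' : ℕ) : Bool :=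
  ball (fun a => !(inf c a) || decide (Nat.pair c y' < cv E p S s (pre c a))) (len c) &&
  (ball (fun a => inf c a || (!decide (typ a = 0) || !decide (E.u (arg a) s = Nat.pair c y')))
    (len c) &&
  ball (fun m => !(inf c (aG m)) || ball (fun j => decide (E.u (Nat.pair m j) s = 0) ||
    (decide (Nat.pair c y' < E.u (Nat.pair m j) s) || shelt S c (E.u (Nat.pair m j) s)))
      (bound c (rc S c).2.1 + 1)) (gi c))

/-- an outcome that `c` guesses to be finitary acts -/
def reset (c : ℕ) : Bool := bex (fun a => !(inf c a) && tick E p S s (pre c a)) (len c)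

/-- the first possible move -/
def fnd (c : ℕ) : ℕ := bfind (fun t => mok E p S s c ((rc S c).2.1 + 1 + t)) (len c + 1)

/-- update of the record of `c` -/
def updR (c : ℕ) : Rec :=
  bif asg c then
    (bif reset E p S s c then
      (false, (rc S c).2.1, bif (rc S c).1 then (rc S c).2.2 + 1 else (rc S c).2.2)
    else bif (wanting E S s c && decide (fnd E p S s c < len c + 1)) then
      (true, (rc S c).2.1 + 1 + fnd E p S s c, (rc S c).2.2)
    else rc S c)
  else rc S c

/-- update of the counter of `m` -/
def updG (m : ℕ) : ℕ := bif expand E S s m then gt S m + 1 else gt S m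

/-- the states -/
def st : ℕ → State := fun s =>
  Nat.rec (motive := fun _ => State) ([], [])
    (fun s S => ((List.range (s + 1)).map (fun c => updR E p S s c),
      (List.range (s + 1)).map (fun m => updG E S s m))) s

section pr2

variable {α : Type*} [Primcodable α] {E}
variable {pp : α → ℕ} {SS : α → State} {ss cc yy : α → ℕ}

@[fun_prop] theorem pr_u (hs : Primrec ss) (hc : Primrec cc) :
    Primrec (fun a => E.u (ss a) (cc a)) := by
  have := E.hu
  fun_prop

@[fun_prop] theorem pr_q (hp : Primrec pp) (hs : Primrec ss) (hc : Primrec cc) :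
    Primrec (fun a => E.q (pp a) (ss a) (cc a)) := by
  have h := E.hq
  have e : Primrec (fun a => (pp a, ss a, cc a)) := by fun_prop
  have h1 := h.comp e
  exact h1

@[fun_prop] theorem pr_rc (hS : Primrec SS) (hc : Primrec cc) :
    Primrec (fun a => rc (SS a) (cc a)) := by
  unfold rc; fun_prop

@[fun_prop] theorem pr_gt (hS : Primrec SS) (hc : Primrec cc) :
    Primrec (fun a => gt (SS a) (cc a)) := by
  unfold gt; fun_prop

@[fun_prop] theorem pr_wanting (hS : Primrec SS) (hs : Primrec ss) (hc : Primrec cc) :
    Primrec (fun a => wanting E (SS a) (ss a) (cc a)) := by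
  unfold wanting; fun_prop

@[fun_prop] theorem pr_bound (hs : Primrec ss) (hc : Primrec cc) :
    Primrec (fun a => bound (ss a) (cc a)) := by
  unfold bound; fun_prop

@[fun_prop] theorem pr_blocked (hS : Primrec SS) (hs : Primrec ss) (hc : Primrec cc) :
    Primrec (fun a => blocked E (SS a) (ss a) (cc a)) := by
  unfold blocked; fun_prop

@[fun_prop] theorem pr_xs (hS : Primrec SS) (hs : Primrec ss) (hc : Primrec cc) :
    Primrec (fun a => xs E (SS a) (ss a) (cc a)) := by
  unfold xs; fun_prop

@[fun_prop] theorem pr_expand (hS : Primrec SS) (hs : Primrec ss) (hc : Primrec cc) :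
    Primrec (fun a => expand E (SS a) (ss a) (cc a)) := by
  unfold expand; fun_prop

@[fun_prop] theorem pr_tick (hp : Primrec pp) (hS : Primrec SS) (hs : Primrec ss)
    (hc : Primrec cc) : Primrec (fun a => tick E (pp a) (SS a) (ss a) (cc a)) := by
  unfold tick; fun_prop

@[fun_prop] theorem pr_cv (hp : Primrec pp) (hS : Primrec SS) (hs : Primrec ss)
    (hc : Primrec cc) : Primrec (fun a => cv E (pp a) (SS a) (ss a) (cc a)) := by
  unfold cv; fun_prop

@[fun_prop] theorem pr_shelt (hS : Primrec SS) (hs : Primrec ss) (hc : Primrec cc) :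
    Primrec (fun a => shelt (SS a) (ss a) (cc a)) := by
  unfold shelt; fun_prop

@[fun_prop] theorem pr_mok (hp : Primrec pp) (hS : Primrec SS) (hs : Primrec ss)
    (hc : Primrec cc) (hy : Primrec yy) :
    Primrec (fun a => mok E (pp a) (SS a) (ss a) (cc a) (yy a)) := by
  unfold mok; fun_prop

@[fun_prop] theorem pr_reset (hp : Primrec pp) (hS : Primrec SS) (hs : Primrec ss)
    (hc : Primrec cc) : Primrec (fun a => reset E (pp a) (SS a) (ss a) (cc a)) := by
  unfold reset; fun_prop

@[fun_prop] theorem pr_fnd (hp : Primrec pp) (hS : Primrec SS) (hs : Primrec ss)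
    (hc : Primrec cc) : Primrec (fun a => fnd E (pp a) (SS a) (ss a) (cc a)) := by
  unfold fnd; fun_prop

@[fun_prop] theorem pr_updR (hp : Primrec pp) (hS : Primrec SS) (hs : Primrec ss)
    (hc : Primrec cc) : Primrec (fun a => updR E (pp a) (SS a) (ss a) (cc a)) := by
  unfold updR; fun_prop

@[fun_prop] theorem pr_updG (hS : Primrec SS) (hs : Primrec ss)
    (hc : Primrec cc) : Primrec (fun a => updG E (SS a) (ss a) (cc a)) := by
  unfold updG; fun_prop

@[fun_prop] theorem pr_st (hp : Primrec pp) (hs : Primrec ss) :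
    Primrec (fun a => st E (pp a) (ss a)) := by
  unfold st; fun_prop

end pr2

end Constr

end Pool.Agent.Lib_helper87.D2
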