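import Mathlib.Computability.TuringDegree
import Mathlib.Computability.Halting
import Mathlib.Computability.Reduce
import Mathlib.Data.Set.Card

/-!
# Definitions: computable equivalence structures and categoricity relative to the halting problem
-/

namespace Pool.Agent.Lib_helper87.D2

open Nat.Partrec (Code)

/-- The halting problem as an oracle: the value at `n` is `1` if the `n`-th partial recursive
function converges on input `n`, and `0` otherwise. -/
noncomputable def haltOracle : ℕ →. ℕ := fun n =>
  open scoped Classical in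
  Part.some (if ((Code.ofNatCode n).eval n).Dom then 1 else 0)

/-- A total function is computable in `0'`. -/
def ZeroJump (f : ℕ → ℕ) : Prop :=
  TuringReducible (fun n => Part.some (f n)) haltOracle

/-- A set of natural numbers is `Δ⁰₂`: its characteristic function is computable in `0'`. -/
def Delta2 (S : Set ℕ) : Prop :=
  open scoped Classical in ZeroJump (fun n => if n ∈ S then 1 else 0)

/-- A computable equivalence structure: a computable set of natural numbers together with a
computable equivalence relation on it. -/
structure CompEqStr where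
  /-- the domain -/
  carrier : Set ℕ
  /-- the equivalence relation -/
  rel : ℕ → ℕ → Prop
  carrier_comp : ComputablePred (fun x => x ∈ carrier)
  rel_comp : ComputablePred (fun p : ℕ × ℕ => rel p.1 p.2)
  rel_sub : ∀ x y, rel x y → x ∈ carrier ∧ y ∈ carrier
  refl : ∀ x ∈ carrier, rel x x
  symm : ∀ x y, rel x y → rel y x
  trans : ∀ x y z, rel x y → rel y z → rel x z

/-- `f` restricts to an isomorphism from `A` onto `B`. -/
def IsIso (A B : CompEqStr) (f : ℕ → ℕ) : Prop :=
  Set.BijOn f A.carrier B.carrier ∧
    ∀ x ∈ A.carrier, ∀ y ∈ A.carrier, (A.rel x y ↔ B.rel (f x) (f y))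

/-- `A` is `Δ⁰₂`-categorical: every computable copy of `A` is isomorphic to `A` through an
isomorphism computable in `0'`. -/
def Delta2Categorical (A : CompEqStr) : Prop :=
  ∀ B : CompEqStr, (∃ f, IsIso A B f) → ∃ f, IsIso A B f ∧ ZeroJump f

/-- The number of equivalence classes of `A` of cardinality `c` (in `ℕ∞`; `c = ⊤` counts the
infinite classes). -/
noncomputable def classCount (A : CompEqStr) (c : ℕ∞) : ℕ∞ :=
  {C : Set ℕ | (∃ x ∈ A.carrier, C = {y | A.rel x y}) ∧ C.encard = c}.encard

/-- A uniformly computably enumerable sequence of sets of natural numbers. -/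
def UnifCE (V : ℕ → Set ℕ) : Prop :=
  REPred (fun p : ℕ × ℕ => p.2 ∈ V p.1)

/-- Every nonzero cardinality occurs among the sets `V j` at most as often as among the classes
of `A`. -/
def Dominated (V : ℕ → Set ℕ) (A : CompEqStr) : Prop :=
  ∀ c : ℕ∞, c ≠ 0 → {j | (V j).encard = c}.encard ≤ classCount A c

/-- `e` is an index of the computable equivalence structure `A`: the first component is an index
of the characteristic function of the domain, the second one of the characteristic function of
the relation. -/
def IsIndex (e : ℕ) (A : CompEqStr) : Prop :=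
  (∀ x, (x ∈ A.carrier → 1 ∈ (Code.ofNatCode e.unpair.1).eval x) ∧
    (x ∉ A.carrier → 0 ∈ (Code.ofNatCode e.unpair.1).eval x)) ∧
  ∀ x y, (A.rel x y → 1 ∈ (Code.ofNatCode e.unpair.2).eval (Nat.pair x y)) ∧
    (¬ A.rel x y → 0 ∈ (Code.ofNatCode e.unpair.2).eval (Nat.pair x y))

/-- The index set of the `Δ⁰₂`-categorical computable equivalence structures. -/
def CatIndex : ℕ → Prop := fun e => ∃ A, IsIndex e A ∧ Delta2Categorical A

/-- `Π⁰ₙ` predicates of natural numbers: a `Π⁰₀` predicate is a computable one, and `P` is
`Π⁰ₙ₊₁` if `P x` is equivalent to `∀ y, ¬ Q ⟨x, y⟩` for some `Π⁰ₙ` predicate `Q`. -/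
def IsPi : ℕ → (ℕ → Prop) → Prop
  | 0, P => ComputablePred P
  | n + 1, P => ∃ Q, IsPi n Q ∧ ∀ x, P x ↔ ∀ y, ¬ Q (Nat.pair x y)

/-- A predicate is `Π⁰ₙ`-complete (for many-one reducibility). -/
def PiComplete (n : ℕ) (P : ℕ → Prop) : Prop :=
  IsPi n P ∧ ∀ Q, IsPi n Q → ManyOneReducible Q P

end Pool.Agent.Lib_helper87.D2
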