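import Pool.Agent.Lib_helper87.D2.LimAPI
import Mathlib.Data.Nat.Nth

/-!
# Computable equivalence structures: coordinates and isomorphisms
-/

namespace Pool.Agent.Lib_helper87.D2

open Filter Set

/-! ### counting lemmas -/

theorem count_congr_iff {p q : ℕ → Prop} {_ : DecidablePred p} {_ : DecidablePred q}
    (h : ∀ n, p n ↔ q n) (x : ℕ) : Nat.count p x = Nat.count q x := by
  rw [Nat.count_eq_card_filter_range, Nat.count_eq_card_filter_range]
  congr 1
  exact Finset.filter_congr (fun n _ => h n)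

section count
open scoped Classical

theorem nth_mem_of_lt_encard {p : ℕ → Prop} {r : ℕ} (h : (r : ℕ∞) < {i | p i}.encard) :
    p (Nat.nth p r) := by
  apply Nat.nth_mem
  intro hf
  rw [hf.encard_eq_coe_toFinset_card] at h
  exact_mod_cast h

theorem count_nth_of_lt_encard {p : ℕ → Prop} {r : ℕ} (h : (r : ℕ∞) < {i | p i}.encard) :
    Nat.count p (Nat.nth p r) = r := by
  apply Nat.count_nth
  intro hf
  rw [hf.encard_eq_coe_toFinset_card] at h
  exact_mod_cast h

theorem exists_count_eq {p : ℕ → Prop} {r : ℕ} (h : (r : ℕ∞) < {i | p i}.encard) :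
    ∃ j, p j ∧ Nat.count p j = r :=
  ⟨_, nth_mem_of_lt_encard h, count_nth_of_lt_encard h⟩

theorem count_lt_encard {p : ℕ → Prop} {i : ℕ} (h : p i) :
    ((Nat.count p i : ℕ) : ℕ∞) < {i | p i}.encard := by
  by_cases hf : {i | p i}.Finite
  · rw [hf.encard_eq_coe_toFinset_card]
    exact_mod_cast Nat.count_lt_card hf h
  · rw [Set.Infinite.encard_eq hf]
    exact ENat.coe_lt_top _

/-- removing the first `v` elements -/
theorem encard_count_ge {p : ℕ → Prop} {v : ℕ} (hv : (v : ℕ∞) ≤ {i | p i}.encard) :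
    {i | p i ∧ v ≤ Nat.count p i}.encard + v = {i | p i}.encard := by
  have h1 : {i | p i} = {i | p i ∧ v ≤ Nat.count p i} ∪ {i | p i ∧ Nat.count p i < v} := by
    ext i
    simp only [mem_setOf_eq, mem_union]
    constructor
    · intro h
      rcases le_or_gt v (Nat.count p i) with h' | h'
      · exact Or.inl ⟨h, h'⟩
      · exact Or.inr ⟨h, h'⟩
    · rintro (h | h) <;> exact h.1
  have h2 : Disjoint {i | p i ∧ v ≤ Nat.count p i} {i | p i ∧ Nat.count p i < v} := by
    rw [Set.disjoint_left]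
    rintro i ⟨_, h3⟩ ⟨_, h4⟩
    omega
  have h3 : {i | p i ∧ Nat.count p i < v}.encard = v := by
    have : (Nat.count p) '' {i | p i ∧ Nat.count p i < v} = {r | r < v} := by
      ext r
      simp only [mem_image, mem_setOf_eq]
      constructor
      · rintro ⟨i, ⟨_, h⟩, rfl⟩; exact h
      · intro hr
        have hr2 : (r : ℕ∞) < {i | p i}.encard := lt_of_lt_of_le (by exact_mod_cast hr) hv
        exact ⟨Nat.nth p r, ⟨nth_mem_of_lt_encard hr2, by
          rw [count_nth_of_lt_encard hr2]; exact hr⟩, count_nth_of_lt_encard hr2⟩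
    have hinj : InjOn (Nat.count p) {i | p i ∧ Nat.count p i < v} := by
      rintro i ⟨hi, _⟩ j ⟨hj, _⟩ h
      exact Nat.count_injective hi hj h
    rw [← hinj.encard_image, this]
    have : {r | r < v} = (Finset.range v : Set ℕ) := by ext; simp
    rw [this, Set.encard_coe_eq_coe_finsetCard, Finset.card_range]
  conv_rhs => rw [h1]
  rw [Set.encard_union_eq h2, h3]

end count

namespace CompEqStr

variable (A B : CompEqStr)

/-- the class of `x` -/
def cls (x : ℕ) : Set ℕ := {y | A.rel x y}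

/-- `j` is the least element of its class -/
def Rep (j : ℕ) : Prop := j ∈ A.carrier ∧ ∀ i < j, ¬ A.rel i j

theorem exists_rep {x : ℕ} (hx : x ∈ A.carrier) : ∃ j, A.rel j x := ⟨x, A.refl x hx⟩

open scoped Classical in
/-- least element of the class of `x` -/
noncomputable def rp (x : ℕ) : ℕ := if hx : x ∈ A.carrier then Nat.find (A.exists_rep hx) else 0

variable {A B}

theorem cls_nonempty {x : ℕ} (hx : x ∈ A.carrier) : (A.cls x).Nonempty := ⟨x, A.refl x hx⟩

theorem cls_sub {x : ℕ} : A.cls x ⊆ A.carrier := fun _ hy => (A.rel_sub _ _ hy).2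

theorem cls_eq {x y : ℕ} (h : A.rel x y) : A.cls x = A.cls y := by
  ext z
  exact ⟨fun hz => A.trans _ _ _ (A.symm _ _ h) hz, fun hz => A.trans _ _ _ h hz⟩

theorem rp_rel {x : ℕ} (hx : x ∈ A.carrier) : A.rel (A.rp x) x := by
  classical
  rw [rp, dif_pos hx]
  exact Nat.find_spec (A.exists_rep hx)

theorem rp_rep {x : ℕ} (hx : x ∈ A.carrier) : A.Rep (A.rp x) := by
  classical
  refine ⟨(A.rel_sub _ _ (rp_rel hx)).1, fun i hi h => ?_⟩
  have h1 : A.rel i x := A.trans _ _ _ h (rp_rel hx)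
  rw [rp, dif_pos hx] at hi
  exact Nat.find_min (A.exists_rep hx) hi h1

theorem rep_eq {i j : ℕ} (hi : A.Rep i) (hj : A.Rep j) (h : A.rel i j) : i = j := by
  rcases lt_trichotomy i j with h1 | h1 | h1
  · exact absurd h (hj.2 i h1)
  · exact h1
  · exact absurd (A.symm _ _ h) (hi.2 j h1)

theorem rp_eq_of_rep {j x : ℕ} (hj : A.Rep j) (h : A.rel j x) : A.rp x = j :=
  rep_eq (rp_rep (A.rel_sub _ _ h).2) hj
    (A.trans _ _ _ (rp_rel (A.rel_sub _ _ h).2) (A.symm _ _ h))

theorem rel_iff_rp {x y : ℕ} (hx : x ∈ A.carrier) (hy : y ∈ A.carrier) :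
    A.rel x y ↔ A.rp x = A.rp y := by
  constructor
  · intro h
    exact (rp_eq_of_rep (rp_rep hy) (A.trans _ _ _ (rp_rel hy) (A.symm _ _ h)))
  · intro h
    have := rp_rel hx
    rw [h] at this
    exact A.trans _ _ _ (A.symm _ _ this) (rp_rel hy)

/-- the set of representatives of classes of cardinality `c` -/
def repSet (A : CompEqStr) (c : ℕ∞) : Set ℕ := {j | A.Rep j ∧ (A.cls j).encard = c}

theorem repSet_encard (c : ℕ∞) : (A.repSet c).encard = classCount A c := by
  have hinj : InjOn (A.cls) (A.repSet c) := by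
    rintro i ⟨hi, _⟩ j ⟨hj, _⟩ h
    have : i ∈ A.cls j := h ▸ A.refl i hi.1
    exact rep_eq hi hj (A.symm _ _ this)
  rw [classCount, ← hinj.encard_image]
  congr 1
  ext C
  simp only [mem_image, mem_setOf_eq]
  constructor
  · rintro ⟨j, ⟨hj, hc⟩, rfl⟩
    exact ⟨⟨j, hj.1, rfl⟩, hc⟩
  · rintro ⟨⟨x, hx, rfl⟩, hc⟩
    refine ⟨A.rp x, ⟨rp_rep hx, ?_⟩, ?_⟩
    · rw [cls_eq (rp_rel hx)]; exact hc
    · rw [cls_eq (rp_rel hx)]; rfl

open scoped Classical in
/-- the size of the class of `j`, `0` if it is infinite -/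
noncomputable def sz (A : CompEqStr) (j : ℕ) : ℕ := (A.cls j).encard.toNat

/-- cardinality coded by a natural number -/
def codeCard (k : ℕ) : ℕ∞ := if k = 0 then ⊤ else k

theorem codeCard_ne_zero (k : ℕ) : codeCard k ≠ 0 := by
  unfold codeCard
  split_ifs with h
  · simp
  · exact_mod_cast h

theorem codeCard_sz {j : ℕ} (hj : j ∈ A.carrier) : codeCard (A.sz j) = (A.cls j).encard := by
  unfold codeCard sz
  have h0 : (A.cls j).encard ≠ 0 := by
    rw [Set.encard_ne_zero]; exact cls_nonempty hj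
  by_cases hf : (A.cls j).encard = ⊤
  · rw [hf]; simp
  · have h1 := ENat.coe_toNat hf
    rw [if_neg, h1]
    intro h
    rw [h] at h1
    exact h0 h1.symm

open scoped Classical in
/-- rank of `j` among the representatives of classes of the same size -/
noncomputable def rank (A : CompEqStr) (j : ℕ) : ℕ :=
  Nat.count (fun i => A.Rep i ∧ A.sz i = A.sz j) j

open scoped Classical in
/-- position of `x` in its class -/
noncomputable def pos (A : CompEqStr) (x : ℕ) : ℕ := Nat.count (fun y => A.rel x y) x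

/-- the coordinates of an element -/
noncomputable def coord (A : CompEqStr) (x : ℕ) : ℕ × ℕ × ℕ :=
  (A.sz (A.rp x), A.rank (A.rp x), A.pos x)

theorem rel_of_coord {x y : ℕ} (hx : x ∈ A.carrier) (hy : y ∈ A.carrier)
    (h1 : A.sz (A.rp x) = A.sz (A.rp y)) (h2 : A.rank (A.rp x) = A.rank (A.rp y)) :
    A.rel x y := by
  classical
  rw [rel_iff_rp hx hy]
  unfold rank at h2
  have h3 : Nat.count (fun i => A.Rep i ∧ A.sz i = A.sz (A.rp y)) (A.rp x) =
      Nat.count (fun i => A.Rep i ∧ A.sz i = A.sz (A.rp y)) (A.rp y) := by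
    exact (count_congr_iff (fun i => by rw [h1]) _).trans
      (h2.trans (count_congr_iff (fun i => Iff.rfl) _))
  exact Nat.count_injective (p := fun i => A.Rep i ∧ A.sz i = A.sz (A.rp y))
    ⟨rp_rep hx, h1⟩ ⟨rp_rep hy, rfl⟩ h3

theorem coord_inj {x y : ℕ} (hx : x ∈ A.carrier) (hy : y ∈ A.carrier)
    (h : A.coord x = A.coord y) : x = y := by
  classical
  simp only [coord, Prod.mk.injEq] at h
  obtain ⟨h1, h2, h3⟩ := h
  have hr := rel_of_coord hx hy h1 h2
  unfold pos at h3
  have h4 : Nat.count (fun z => A.rel y z) x = Nat.count (fun z => A.rel y z) y := by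
    exact (count_congr_iff (fun z => (Set.ext_iff.1 (cls_eq hr) z).symm) _).trans
      (h3.trans (count_congr_iff (fun i => Iff.rfl) _))
  exact Nat.count_injective (p := fun z => A.rel y z) (A.symm _ _ hr) (A.refl y hy) h4

theorem coord_fst_snd {x y : ℕ} (hx : x ∈ A.carrier) (hy : y ∈ A.carrier) :
    A.rel x y ↔ (A.coord x).1 = (A.coord y).1 ∧ (A.coord x).2.1 = (A.coord y).2.1 := by
  constructor
  · intro h
    have := (rel_iff_rp hx hy).1 h
    simp only [coord, this, and_self]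
  · rintro ⟨h1, h2⟩
    exact rel_of_coord hx hy h1 h2

theorem setOf_rep_sz (k : ℕ) : {i | A.Rep i ∧ A.sz i = k} = A.repSet (codeCard k) := by
  ext i
  simp only [mem_setOf_eq, repSet]
  constructor
  · rintro ⟨h1, h2⟩
    exact ⟨h1, by rw [← codeCard_sz h1.1, h2]⟩
  · rintro ⟨h1, h2⟩
    refine ⟨h1, ?_⟩
    unfold sz
    rw [h2]
    unfold codeCard
    split_ifs with h
    · rw [h]; rfl
    · simp

theorem exists_coord (h : ∀ c ≠ 0, classCount A c = classCount B c) {x : ℕ}
    (hx : x ∈ A.carrier) : ∃ y ∈ B.carrier, B.coord y = A.coord x := by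
  classical
  obtain ⟨k, hk⟩ : ∃ k, A.sz (A.rp x) = k := ⟨_, rfl⟩
  have h1 := count_lt_encard (p := fun i => A.Rep i ∧ A.sz i = k) (i := A.rp x) ⟨rp_rep hx, hk⟩
  have e1 : {i | A.Rep i ∧ A.sz i = k}.encard = {i | B.Rep i ∧ B.sz i = k}.encard := by
    rw [setOf_rep_sz, setOf_rep_sz, repSet_encard, repSet_encard, h _ (codeCard_ne_zero k)]
  rw [e1] at h1
  obtain ⟨j, h2, h3⟩ := exists_count_eq h1
  -- position
  have h4 := count_lt_encard (p := fun y => A.rel x y) (i := x) (A.refl x hx)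
  have e2 : {y | A.rel x y}.encard = {y | B.rel j y}.encard := by
    have a1 : {y | A.rel x y} = A.cls (A.rp x) := (cls_eq (rp_rel hx)).symm
    have a2 := codeCard_sz (A := A) (rp_rep hx).1
    have a3 := codeCard_sz (A := B) h2.1.1
    rw [a1, ← a2]
    show _ = (B.cls j).encard
    rw [← a3, h2.2, hk]
  rw [e2] at h4
  obtain ⟨y, h5, h6⟩ := exists_count_eq h4
  have hyB : y ∈ B.carrier := (B.rel_sub _ _ h5).2
  have hrp : B.rp y = j := rp_eq_of_rep h2.1 h5
  refine ⟨y, hyB, ?_⟩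
  simp only [coord, Prod.mk.injEq, hrp]
  refine ⟨h2.2.trans hk.symm, ?_, ?_⟩
  · unfold rank
    exact (count_congr_iff (fun i => by rw [h2.2]) _).trans
      (h3.trans (count_congr_iff (fun i => by rw [hk]) _))
  · unfold pos
    rw [← h6]
    exact count_congr_iff (fun z => Set.ext_iff.1 (cls_eq h5).symm z) _

/-- the canonical isomorphism between structures with the same class counts -/
theorem exists_isIso (h : ∀ c ≠ 0, classCount A c = classCount B c) :
    ∃ f : ℕ → ℕ, IsIso A B f ∧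
      (∀ x, (x ∈ A.carrier → f x ∈ B.carrier ∧ B.coord (f x) = A.coord x) ∧
        (x ∉ A.carrier → f x = 0)) := by
  classical
  let f : ℕ → ℕ := fun x => if hx : x ∈ A.carrier then (exists_coord h hx).choose else 0
  have hf : ∀ x, (x ∈ A.carrier → f x ∈ B.carrier ∧ B.coord (f x) = A.coord x) ∧
        (x ∉ A.carrier → f x = 0) := by
    intro x
    refine ⟨fun hx => ?_, fun hx => by simp only [f, dif_neg hx]⟩
    simp only [f, dif_pos hx]
    exact (exists_coord h hx).choose_spec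
  refine ⟨f, ⟨⟨fun x hx => ((hf x).1 hx).1, ?_, ?_⟩, ?_⟩, hf⟩
  · intro x hx y hy hxy
    apply coord_inj hx hy
    rw [← ((hf x).1 hx).2, ← ((hf y).1 hy).2, hxy]
  · intro y hy
    obtain ⟨x, hx, hxy⟩ := exists_coord (A := B) (B := A) (fun c hc => (h c hc).symm) hy
    refine ⟨x, hx, ?_⟩
    apply coord_inj ((hf x).1 hx).1 hy
    rw [((hf x).1 hx).2, hxy]
  · intro x hx y hy
    rw [coord_fst_snd hx hy, coord_fst_snd ((hf x).1 hx).1 ((hf y).1 hy).1, ((hf x).1 hx).2,
      ((hf y).1 hy).2]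

/-- isomorphic structures have the same class counts -/
theorem classCount_eq_of_isIso {f : ℕ → ℕ} (hf : IsIso A B f) (c : ℕ∞) :
    classCount A c = classCount B c := by
  obtain ⟨⟨h1, h2, h3⟩, h4⟩ := hf
  have himg : ∀ x ∈ A.carrier, f '' {y | A.rel x y} = {y | B.rel (f x) y} := by
    intro x hx
    ext z
    simp only [mem_image, mem_setOf_eq]
    constructor
    · rintro ⟨y, hy, rfl⟩
      exact (h4 x hx y (A.rel_sub _ _ hy).2).1 hy
    · intro hz
      obtain ⟨y, hy, rfl⟩ := h3 (B.rel_sub _ _ hz).2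
      exact ⟨y, (h4 x hx y hy).2 hz, rfl⟩
  have hcard : ∀ x ∈ A.carrier, (f '' {y | A.rel x y}).encard = {y | A.rel x y}.encard := by
    intro x hx
    apply InjOn.encard_image
    exact h2.mono (fun y hy => (A.rel_sub _ _ hy).2)
  have hinj : InjOn (fun C : Set ℕ => f '' C)
      {C : Set ℕ | (∃ x ∈ A.carrier, C = {y | A.rel x y}) ∧ C.encard = c} := by
    rintro C ⟨⟨x, hx, rfl⟩, _⟩ D ⟨⟨y, hy, rfl⟩, _⟩ h
    exact (h2.image_eq_image_iff (fun y hy => (A.rel_sub _ _ hy).2)
      (fun y hy => (A.rel_sub _ _ hy).2)).1 h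
  rw [classCount, classCount, ← hinj.encard_image]
  congr 1
  ext C
  simp only [mem_image, mem_setOf_eq]
  constructor
  · rintro ⟨D, ⟨⟨x, hx, rfl⟩, hc⟩, rfl⟩
    exact ⟨⟨f x, h1 hx, himg x hx⟩, by rw [hcard x hx, hc]⟩
  · rintro ⟨⟨y, hy, rfl⟩, hc⟩
    obtain ⟨x, hx, rfl⟩ := h3 hy
    refine ⟨{y | A.rel x y}, ⟨⟨x, hx, rfl⟩, ?_⟩, himg x hx⟩
    rw [← hcard x hx, himg x hx, hc]

/-- isomorphisms preserve the cardinality of classes -/
theorem cls_encard_of_isIso {f : ℕ → ℕ} (hf : IsIso A B f) {x : ℕ} (hx : x ∈ A.carrier) :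
    (B.cls (f x)).encard = (A.cls x).encard := by
  obtain ⟨⟨h1, h2, h3⟩, h4⟩ := hf
  have himg : f '' {y | A.rel x y} = {y | B.rel (f x) y} := by
    ext z
    simp only [mem_image, mem_setOf_eq]
    constructor
    · rintro ⟨y, hy, rfl⟩
      exact (h4 x hx y (A.rel_sub _ _ hy).2).1 hy
    · intro hz
      obtain ⟨y, hy, rfl⟩ := h3 (B.rel_sub _ _ hz).2
      exact ⟨y, (h4 x hx y hy).2 hz, rfl⟩
  have hcard : (f '' {y | A.rel x y}).encard = {y | A.rel x y}.encard := by
    apply InjOn.encard_image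
    exact h2.mono (fun y hy => (A.rel_sub _ _ hy).2)
  show {y | B.rel (f x) y}.encard = {y | A.rel x y}.encard
  rw [← himg, hcard]

end CompEqStr

end Pool.Agent.Lib_helper87.D2
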