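import Pool.Agent.Lib_helper87.D2.Bad

/-!
# Verification of the construction: the sequences with values in the set of sizes
-/

namespace Pool.Agent.Lib_helper87.D2

open Filter

namespace Constr

open Tree

variable {E : Env} {p : ℕ}

/-- the hypotheses: the predicate holds at `p` -/
def HP (E : Env) (p : ℕ) : Prop :=
  ∀ i, ∃ k, ∀ x, ¬ ∀ n, ∀ᶠ s in atTop, n < E.q p (Nat.pair i (Nat.pair k x)) s

/-- a level beyond which the groups up to `m` do not act -/
def Beyond (E : Env) (p m b : ℕ) : Prop :=
  aG m < b ∧ ∀ i ≤ m, ∃ k, (∀ x, ¬ ∀ n, ∀ᶠ s in atTop, n < E.q p (Nat.pair i (Nat.pair k x)) s) ∧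
    ∀ k' ≤ k, ∃ a < b, typ a = 3 ∧ arg a = Nat.pair i k' ∧ asg (tp E p a) = true

theorem exists_beyond (h : HP E p) (m : ℕ) : ∃ b, Beyond E p m b := by
  classical
  have h1 : ∀ i, ∃ L k, (∀ x, ¬ ∀ n, ∀ᶠ s in atTop, n < E.q p (Nat.pair i (Nat.pair k x)) s) ∧
      ∀ k' ≤ k, ∃ a < L, typ a = 3 ∧ arg a = Nat.pair i k' ∧ asg (tp E p a) = true := by
    intro i
    have hex := h i
    have h2 := Nat.find_spec hex
    have h3 : ∀ k', ∃ a, k' ≤ Nat.find hex → typ a = 3 ∧ arg a = Nat.pair i k' ∧
        asg (tp E p a) = true := by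
      intro k'
      by_cases hk : k' ≤ Nat.find hex
      · obtain ⟨a, ha⟩ := exists_asg (E := E) (p := p) (i := i) (k := k') (fun k'' hk'' => by
          have h4 := Nat.find_min hex (m := k'') (by omega)
          by_contra hne
          exact h4 (fun x hx => hne ⟨x, hx⟩))
        exact ⟨a, fun _ => ha⟩
      · exact ⟨0, fun h => absurd h hk⟩
    choose a ha using h3
    refine ⟨(Finset.range (Nat.find hex + 1)).sup a + 1, Nat.find hex, h2, fun k' hk' => ?_⟩
    have := Finset.le_sup (f := a) (Finset.mem_range.2 (show k' < Nat.find hex + 1 by omega))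
    exact ⟨a k', by omega, ha k' hk'⟩
  choose L hL using h1
  refine ⟨(Finset.range (m + 1)).sup L + aG m + 1, by omega, fun i hi => ?_⟩
  obtain ⟨k, hk1, hk2⟩ := hL i
  refine ⟨k, hk1, fun k' hk' => ?_⟩
  obtain ⟨a, ha1, ha2⟩ := hk2 k' hk'
  have := Finset.le_sup (f := L) (Finset.mem_range.2 (show i < m + 1 by omega))
  exact ⟨a, by omega, ha2⟩

/-- no node of a low group above the true path acts infinitely often -/
theorem no_low {m b ρ : ℕ} (hb : Beyond E p m b) (h1 : asg ρ = true) (h2 : b ≤ len ρ)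
    (h3 : pre ρ b = tp E p b) (h4 : gi ρ ≤ m) : ¬ ∀ n, ∀ᶠ s in atTop, n < yy E p s ρ := by
  intro hy
  obtain ⟨k, hk1, hk2⟩ := hb.2 (gi ρ) h4
  by_cases hk : gk ρ ≤ k
  · obtain ⟨a, ha1, ha2, ha3, ha4⟩ := hk2 (gk ρ) hk
    have h5 : arg a = arg (len ρ) := by
      rw [ha3]
      unfold gi gk
      rw [Nat.pair_unpair]
    have h6 := (asg_iff.1 h1).2.2 a (by omega) h5
    rw [← pre_pre (c := ρ) (b := b) ha1.le h2, h3, pre_tp ha1.le] at h6
    have h7 := (asg_iff.1 ha4).2.1
    rw [h6] at h7
    exact absurd h7 (by simp)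
  · obtain ⟨x, hx1, hx2⟩ := (pa_iff.1 (asg_iff.1 h1).2.1).2.1 k (by omega)
    have h5 := CC_inf_of_yy hy hx1 hx2
    refine hk1 x (fun n => ?_)
    filter_upwards [h5 n] with s hs
    rw [CC_1 (by rw [len_pre]; exact typ_aQ _), len_pre, arg_aQ] at hs
    exact hs

/-- the nodes which are considered for the column `j` -/
def cons (m b β j ρ : ℕ) : Bool :=
  asg ρ && (decide (len ρ ≤ aC (Nat.pair m j)) &&
    (decide (vl (pre ρ (len ρ - (len ρ - b))) ≤ vl (pre β (len ρ - (len ρ - b)))) &&
    !(decide (len ρ < b) && (decide (ρ = pre β (len ρ)) && inf β (len ρ)))))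

/-- a bound for the nodes of length at most `l` -/
def bd (l : ℕ) : ℕ := (2 ^ l + l + 1) ^ 2

theorem lt_bd {ρ l : ℕ} (h1 : Valid ρ) (h2 : len ρ ≤ l) : ρ < bd l := by
  have h3 : ρ = Nat.pair (len ρ) (vl ρ) := (Nat.pair_unpair ρ).symm
  have h4 := Nat.pair_lt_max_add_one_sq (len ρ) (vl ρ)
  rw [← h3] at h4
  unfold bd
  refine lt_of_lt_of_le h4 (Nat.pow_le_pow_left ?_ 2)
  unfold Valid at h1
  have h5 : 2 ^ len ρ ≤ 2 ^ l := Nat.pow_le_pow_right (by omega) h2
  have h6 : max (len ρ) (vl ρ) ≤ 2 ^ l + l := by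
    rw [max_le_iff]; omega
  omega

theorem len_lt_pow (n : ℕ) : n < 2 ^ n := Nat.lt_two_pow_self

variable (E p) in
/-- the test for the infinity of the column `j` -/
def test (m b β j s : ℕ) : Bool :=
  decide (0 < E.u (Nat.pair m j) s) && ball (fun ρ => !(cons m b β j ρ) || (!(dd E p s ρ) ||
    decide (Nat.pair ρ (yy E p s ρ) < E.u (Nat.pair m j) s))) (bd (aC (Nat.pair m j)))

theorem pr_test (m b β : ℕ) : Primrec (fun q : ℕ × ℕ => test E p m b β q.1 q.2) := by
  unfold test cons bd
  fun_prop

theorem min_eq (x b : ℕ) : x - (x - b) = min x b := by omega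

theorem cons_iff {m b j ρ : ℕ} : cons m b (tp E p b) j ρ = true ↔
    asg ρ = true ∧ len ρ ≤ aC (Nat.pair m j) ∧
    vl (pre ρ (min (len ρ) b)) ≤ vl (tp E p (min (len ρ) b)) ∧
    ¬ (len ρ < b ∧ ρ = tp E p (len ρ) ∧ InfT E p (tp E p (len ρ))) := by
  unfold cons
  simp only [Bool.and_eq_true, decide_eq_true_eq, Bool.not_eq_true', Bool.and_eq_false_iff,
    decide_eq_false_iff_not, min_eq]
  rw [pre_tp (min_le_right _ _)]
  refine and_congr Iff.rfl (and_congr Iff.rfl (and_congr Iff.rfl ?_))
  by_cases hl : len ρ < b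
  · rw [pre_tp hl.le, inf_tp_false hl]
    tauto
  · tauto

/-- a shelter of the column `j` is considered -/
theorem len_le_of_eq {m j s μ : ℕ} (hd : dd E p s μ = true)
    (h : E.u (Nat.pair m j) s = Nat.pair μ (yy E p s μ)) : len μ ≤ aC (Nat.pair m j) := by
  by_contra hne
  rw [not_le] at hne
  cases hi : inf μ (aC (Nat.pair m j))
  · have := inv_fin hd hne hi (typ_aC _)
    rw [arg_aC] at this
    exact this h
  · have := inv_inf hd hne hi
    rw [CC_0 (by rw [len_pre]; exact typ_aC _), len_pre, arg_aC] at this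
    omega

theorem DI_of_test {m b j : ℕ} (hD : Dv E p m)
    (h : ∀ᶠ s in atTop, test E p m b (tp E p b) j s = true) : DI E m j := by
  rcases hD j with h1 | ⟨w, h1, h2⟩
  · exact h1
  · exfalso
    have h3 : w ≠ 0 := by
      obtain ⟨s, hs1, hs2⟩ := (h.and h1).exists
      unfold test at hs1
      rw [Bool.and_eq_true, decide_eq_true_eq] at hs1
      omega
    rcases h2 with h2 | h2
    · exact h3 h2
    · obtain ⟨μ, hμ⟩ : ∃ μ, μ = w.unpair.1 := ⟨_, rfl⟩
      have h6 : ∀ᶠ s in atTop, asg μ = true ∧ dd E p s μ = true ∧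
          yy E p s μ = w.unpair.2 := by
        filter_upwards [h2] with s hs
        unfold XS xs at hs
        rw [← hμ] at hs
        simp only [Bool.and_eq_true, decide_eq_true_eq] at hs
        exact ⟨hs.1, hs.2.1, hs.2.2.1⟩
      have hasg : asg μ = true := by
        obtain ⟨s, hs⟩ := h6.exists
        exact hs.1
      have hval := (asg_iff.1 hasg).1
      have hdd : ∀ᶠ s in atTop, dd E p s μ = true := h6.mono (fun s hs => hs.2.1)
      have hw : ∀ s, yy E p s μ = w.unpair.2 → Nat.pair μ (yy E p s μ) = w := by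
        intro s hs
        rw [hs, hμ, Nat.pair_unpair]
      have hcons : cons m b (tp E p b) j μ = true := by
        rw [cons_iff]
        refine ⟨hasg, ?_, ?_, ?_⟩
        · obtain ⟨s, hs1, hs2⟩ := (h6.and h1).exists
          exact len_le_of_eq hs1.2.1 (by rw [hs2, hw s hs1.2.2])
        · by_contra hne
          rw [not_le] at hne
          have h7 : vl (pre (tp E p (min (len μ) b)) (min (len μ) b)) <
              vl (pre μ (min (len μ) b)) := by
            rw [pre_tp le_rfl]; exact hne
          obtain ⟨b', hb1, hb2, hb3, hb4⟩ := first_diff hval (valid_tp _)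
            (min_le_left _ _) (by rw [len_tp]) h7
          refine not_eventually_dd hasg (lt_of_lt_of_le hb1 (min_le_left _ _)) hb4 ?_ hdd
          rw [← hb2, pre_tp hb1.le]
          exact (inf_tp hb1).1 hb3
        · rintro ⟨_, h8, h9⟩
          have h10 := cvt (E := E) (p := p) (len μ) h9
          rw [← h8] at h10
          obtain ⟨s, hs1, hs2⟩ := ((h10 w.unpair.2).and h6).exists
          rw [CC_3 (pa_iff.1 (asg_iff.1 hasg).2.1).1, hs2.2.2] at hs1
          omega
      obtain ⟨s, hs1, hs2, hs3⟩ := (h.and (h6.and h1)).exists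
      unfold test at hs1
      rw [Bool.and_eq_true, ball_eq_true] at hs1
      have hle : len μ ≤ aC (Nat.pair m j) := (cons_iff.1 hcons).2.1
      have h7 := hs1.2 μ (lt_bd hval hle)
      rw [hcons, hs2.2.1, hs3, hw s hs2.2.2] at h7
      simp at h7

/-- a rational number representing the position of a node in the in-order relation -/
noncomputable def key (c : ℕ) : ℚ := (2 * (vl c : ℚ) + 1) / 2 ^ len c

theorem key_lt {c d : ℕ} (h : ilt c d) : key c < key d := by
  unfold key
  unfold ilt at h
  rw [div_lt_div_iff₀ (by positivity) (by positivity)]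
  exact_mod_cast h

theorem test_of_DI {m b j : ℕ} (hD : Dv E p m) (hb : Beyond E p m b) (h : DI E m j) :
    ∀ᶠ s in atTop, test E p m b (tp E p b) j s = true := by
  classical
  obtain ⟨M, hM⟩ : ∃ M, M = bd (aC (Nat.pair m j)) := ⟨_, rfl⟩
  -- good nodes
  let G : ℕ → ℕ → Prop := fun ρ s =>
    ¬ (dd E p s ρ = true ∧ E.u (Nat.pair m j) s ≤ Nat.pair ρ (yy E p s ρ))
  by_cases hall : ∀ ρ < M, cons m b (tp E p b) j ρ = true → ∀ᶠ s in atTop, G ρ s
  · have h1 : ∀ᶠ s in atTop, ∀ ρ < M, cons m b (tp E p b) j ρ = true → G ρ s := by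
      apply eventually_all_lt
      intro ρ hρ
      by_cases hc : cons m b (tp E p b) j ρ = true
      · filter_upwards [hall ρ hρ hc] with s hs _
        exact hs
      · exact Eventually.of_forall (fun s h => absurd h hc)
    filter_upwards [h1, h 0] with s hs1 hs2
    unfold test
    rw [Bool.and_eq_true, ball_eq_true, decide_eq_true_eq]
    refine ⟨hs2, fun ρ hρ => ?_⟩
    rw [← hM] at hρ
    cases hc : cons m b (tp E p b) j ρ
    · simp
    · cases hd : dd E p s ρ
      · simp
      · have := hs1 ρ hρ hc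
        simp only [Bool.not_true, Bool.false_or, decide_eq_true_eq]
        by_contra hne
        exact this ⟨hd, not_lt.1 hne⟩
  · exfalso
    simp only [not_forall] at hall
    obtain ⟨ρ0, hρ0, hc0, hb0⟩ := hall
    -- the set of bad nodes
    let S : Finset ℕ := (Finset.range M).filter (fun ρ => cons m b (tp E p b) j ρ = true ∧
      ¬ ∀ᶠ s in atTop, G ρ s)
    have hS : S.Nonempty := ⟨ρ0, Finset.mem_filter.2 ⟨Finset.mem_range.2 hρ0, hc0, hb0⟩⟩
    obtain ⟨ρ, hρS, hmin⟩ := Finset.exists_min_image S key hS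
    rw [Finset.mem_filter, Finset.mem_range] at hρS
    obtain ⟨hρM, hcons, hbad⟩ := hρS
    have hgood : ∀ μ, ilt μ ρ → μ < M → cons m b (tp E p b) j μ = true →
        ∀ᶠ s in atTop, G μ s := by
      intro μ hμ hμM hμc
      by_contra hne
      have h1 := hmin μ (Finset.mem_filter.2 ⟨Finset.mem_range.2 hμM, hμc, hne⟩)
      have h2 := key_lt hμ
      exact absurd h1 (not_le.2 h2)
    have hcons' := cons_iff.1 hcons
    obtain ⟨hasg, hlen, hright, hexcl⟩ := hcons'
    have hval := (asg_iff.1 hasg).1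
    have hpa := pa_iff.1 (asg_iff.1 hasg).2.1
    have hbad' : ∃ᶠ s in atTop, dd E p s ρ = true ∧
        E.u (Nat.pair m j) s ≤ Nat.pair ρ (yy E p s ρ) := by
      rw [not_eventually] at hbad
      refine hbad.mono (fun s hs => ?_)
      by_contra hne
      exact hs hne
    -- `ρ` moves infinitely often
    have hy : ∀ n, ∀ᶠ s in atTop, n < yy E p s ρ := by
      rcases mono_cases (f := fun s => yy E p s ρ) (fun s => yy_mono s ρ) with h1 | ⟨n, h1⟩
      · exact h1
      · exfalso
        obtain ⟨s, hs1, hs2, hs3⟩ := (hbad'.and_eventually (h1.and (h (Nat.pair ρ n)))).exists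
        rw [hs2] at hs1
        omega
    have hInfT : ∀ b', b' < len ρ → inf ρ b' = true → InfT E p (pre ρ b') :=
      fun b' hb' hi => InfT_of_CC (CC_inf_of_yy hy hb' hi)
    -- `ρ` is not to the left of the true path
    have heq : vl (pre ρ (min (len ρ) b)) = vl (tp E p (min (len ρ) b)) := by
      by_contra hne
      have h1 : vl (pre ρ (min (len ρ) b)) < vl (pre (tp E p (min (len ρ) b)) (min (len ρ) b)) := by
        rw [pre_tp le_rfl]; omega
      obtain ⟨b', hb1, hb2, hb3, hb4⟩ := first_diff (valid_tp _) hval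
        (by rw [len_tp]) (min_le_left _ _) h1
      have h2 := hInfT b' (lt_of_lt_of_le hb1 (min_le_left _ _)) hb3
      rw [hb2, pre_tp hb1.le] at h2
      exact (inf_tp_false hb1).1 hb4 h2
    have heq' : pre ρ (min (len ρ) b) = tp E p (min (len ρ) b) :=
      ext (by rw [len_pre, len_tp]) heq
    have hbl : b ≤ len ρ := by
      by_contra hne
      rw [not_le] at hne
      rw [min_eq_left hne.le, pre_self] at heq'
      refine hexcl ⟨hne, heq', ?_⟩
      rw [← heq']
      apply InfT_of_CC
      intro n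
      filter_upwards [hy n] with s hs
      rw [CC_3 hpa.1]; exact hs
    rw [min_eq_right hbl] at heq'
    have hgi : m < gi ρ := by
      by_contra hne
      exact no_low hb hasg hbl heq' (not_lt.1 hne) hy
    have hpre : ∀ a ≤ b, pre ρ a = tp E p a := by
      intro a ha
      rw [← pre_pre (c := ρ) (b := b) ha hbl, heq', pre_tp ha]
    have hinfb : ∀ a < b, inf ρ a = inf (tp E p b) a := by
      intro a ha
      rw [← inf_pre (c := ρ) (b := b) ha hbl, heq']
    have hG : inf ρ (aG m) = true := by
      rw [hinfb _ hb.1, inf_tp hb.1]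
      refine (EE_of_gg_inf (gg_inf_iff.2 hD)).mono (fun s hs => ?_)
      rw [TT_2 (by rw [len_tp]; exact typ_aG m), len_tp, arg_aG]
      exact hs
    -- late moves of `ρ` stay below the column
    have hev : ∀ᶠ s in atTop, ∀ μ < M, ilt μ ρ → cons m b (tp E p b) j μ = true → G μ s := by
      apply eventually_all_lt
      intro μ hμ
      by_cases hc : ilt μ ρ ∧ cons m b (tp E p b) j μ = true
      · filter_upwards [hgood μ hc.1 hμ hc.2] with s hs _ _
        exact hs
      · exact Eventually.of_forall (fun s h1 h2 => absurd ⟨h1, h2⟩ hc)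
    have hlate : ∀ᶠ s in atTop, MV E p s ρ →
        Nat.pair ρ (yy E p (s + 1) ρ) < E.u (Nat.pair m j) s := by
      filter_upwards [hev, h 0, hy j] with s hs1 hs2 hs3 hmv
      have h1 := (mok_iff.1 hmv.2.2.2.2.2.2).2.2 m hgi hG j (by
        have h2 := Nat.right_le_pair ρ ((rc (st E p s) ρ).2.1 + len ρ + 2)
        have h3 : yy E p s ρ = (rc (st E p s) ρ).2.1 := rfl
        unfold bound
        omega)
      rcases h1 with h1 | h1 | h1
      · omega
      · exact h1
      · exfalso
        unfold shelt at h1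
        simp only [Bool.and_eq_true, decide_eq_true_eq] at h1
        obtain ⟨μ, hμ⟩ : ∃ μ, μ = (E.u (Nat.pair m j) s).unpair.1 := ⟨_, rfl⟩
        rw [← hμ] at h1
        obtain ⟨k1, k2, k3⟩ := h1
        rw [iltb_iff] at k3
        have k1' : dd E p s μ = true := k1
        have k4 : E.u (Nat.pair m j) s = Nat.pair μ (yy E p s μ) := by
          have : yy E p s μ = (E.u (Nat.pair m j) s).unpair.2 := k2
          rw [this, hμ, Nat.pair_unpair]
        have hasgμ := dd_asg k1'
        have hvalμ := (asg_iff.1 hasgμ).1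
        have hlenμ := len_le_of_eq k1' k4
        by_cases hcμ : cons m b (tp E p b) j μ = true
        · exact hs1 μ (by rw [hM]; exact lt_bd hvalμ hlenμ) k3 hcμ ⟨k1', k4.le⟩
        · rw [cons_iff] at hcμ
          apply hcμ
          refine ⟨hasgμ, hlenμ, ?_, ?_⟩
          · by_contra hne
            rw [not_le] at hne
            refine ilt_asymm k3 (ilt_of_left (a := min (len μ) b) ?_ (min_le_left _ _) ?_)
            · exact le_trans (min_le_right _ _) hbl
            · rw [hpre _ (min_le_right _ _)]; exact hne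
          · rintro ⟨h5, h6, h7⟩
            refine ilt_asymm k3 ?_
            have h8 := ilt_of_inf (σ := ρ) (b := len μ) (lt_of_lt_of_le h5 hbl)
              (by rw [hinfb _ h5, inf_tp h5]; exact h7)
            rw [hpre _ h5.le, ← h6] at h8
            exact h8
    obtain ⟨s1, hs1⟩ := eventually_atTop.1 hlate
    obtain ⟨s2, hs2, hm⟩ := frequently_atTop.1 (freq_move hy) s1
    have hfin : ∀ s, s2 + 1 ≤ s → Nat.pair ρ (yy E p s ρ) < E.u (Nat.pair m j) s := by
      intro s hs
      induction s, hs using Nat.le_induction with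
      | base => exact lt_of_lt_of_le (hs1 s2 hs2 hm) (E.umono _ _)
      | succ s hs ih =>
        rcases step (E := E) (p := p) s ρ with h1 | h1 | h1
        · have h2 : yy E p (s + 1) ρ = yy E p s ρ := by unfold yy; rw [h1.1]
          rw [h2]
          exact lt_of_lt_of_le ih (E.umono _ _)
        · rw [h1.2.2.2.1]
          exact lt_of_lt_of_le ih (E.umono _ _)
        · exact lt_of_lt_of_le (hs1 s (by omega) h1) (E.umono _ _)
    obtain ⟨s, hs3, hs4⟩ := (hbad'.and_eventually (eventually_ge_atTop (s2 + 1))).exists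
    have := hfin s hs4
    omega

/-- if the predicate holds at `p`, then the infinite members of every sequence with values in
the set of sizes are recognised in the limit -/
theorem limP_of_HP (hP : HP E p) {m : ℕ} (hD : Dv E p m) : LimP (fun j => DI E m j) := by
  obtain ⟨b, hb⟩ := exists_beyond hP m
  have key : ∀ j, DI E m j ↔ ∀ᶠ s in atTop, test E p m b (tp E p b) j s = true :=
    fun j => ⟨test_of_DI hD hb, DI_of_test hD⟩
  refine LimP.of_sigma_pi (R := fun j n t => decide (t < n) || test E p m b (tp E p b) j t)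
    (R' := fun j n t => decide (E.u (Nat.pair m j) t ≤ n)) ?_ ?_ (fun j => ?_) (fun j => ?_)
  · have h1 := pr_test (E := E) (p := p) m b (tp E p b)
    have h2 : Primrec (fun q : ℕ × ℕ × ℕ => (q.1, q.2.2)) := by fun_prop
    have h3 : Primrec (fun q : ℕ × ℕ × ℕ => test E p m b (tp E p b) q.1 q.2.2) := h1.comp h2
    exact (Primrec.or.comp (PR.decide_lt' (by fun_prop) (by fun_prop)) h3).to_comp
  · exact (PR.decide_le' (by fun_prop) (by fun_prop)).to_comp
  · rw [key, eventually_atTop]
    refine exists_congr (fun n => forall_congr' (fun t => ?_))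
    rw [Bool.or_eq_true, decide_eq_true_eq]
    constructor
    · intro h
      rcases lt_or_ge t n with h1 | h1
      · exact Or.inl h1
      · exact Or.inr (h h1)
    · rintro (h | h) h1
      · omega
      · exact h
  · simp only [decide_eq_true_eq]
    constructor
    · intro h
      obtain ⟨n, hn⟩ := const_of_not_inf (f := fun s => E.u (Nat.pair m j) s)
        (fun s => E.umono _ s) h
      refine ⟨n, fun t => ?_⟩
      obtain ⟨s, hs1, hs2⟩ := (hn.and (eventually_ge_atTop t)).exists
      have hs3 : E.u (Nat.pair m j) s = n := hs1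
      rw [← hs3]
      exact monotone_nat_of_le_succ (f := fun s => E.u (Nat.pair m j) s)
        (fun s => E.umono _ s) hs2
    · rintro ⟨n, hn⟩ h
      obtain ⟨s, hs⟩ := (h n).exists
      have := hn s
      omega

end Constr

end Pool.Agent.Lib_helper87.D2
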