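import Pool.Agent.Lib_helper87.D2.Univ

/-!
# The index set is `Π⁰₅`-hard
-/

namespace Pool.Agent.Lib_helper87.D2

open Filter Set
open Nat.Partrec (Code)
open Nat.Partrec.Code
open Constr

/-- the approximation of the set of sizes, as a predicate on pairs -/
def gE (E : Env) (p q s : ℕ) : Bool := XS E p s q.unpair.2 && !decide (q.unpair.2 = 0)

theorem pr_gE (E : Env) : Primrec (fun x : ℕ × ℕ × ℕ => gE E x.1 x.2.1 x.2.2) := by
  unfold gE
  fun_prop

@[fun_prop] theorem pr_gE' {E : Env} {α : Type*} [Primcodable α] {f g h : α → ℕ}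
    (hf : Primrec f) (hg : Primrec g) (hh : Primrec h) :
    Primrec (fun a => gE E (f a) (g a) (h a)) := by
  unfold gE; fun_prop

theorem comp_gE (E : Env) (p : ℕ) : Computable₂ (gE E p) := by
  have h2 : Primrec (fun x : ℕ × ℕ => gE E p x.1 x.2) := by fun_prop
  exact h2.to_comp

/-- the structure -/
def strE (E : Env) (p : ℕ) : CompEqStr := (SizeFn.fill (gE E p) (comp_gE E p)).toStr

/-- the limit of the approximation -/
def PsiE (E : Env) (p q : ℕ) : Prop := XX E p q.unpair.2 ∧ q.unpair.2 ≠ 0

variable {E : Env} {p : ℕ}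

theorem gE_lim (q : ℕ) : ∀ᶠ s in atTop, (gE E p q s = true ↔ PsiE E p q) := by
  unfold gE PsiE
  by_cases h : XX E p q.unpair.2
  · filter_upwards [h] with s hs
    simp [hs, h]
  · filter_upwards [not_XX h] with s hs
    simp [hs, h]

theorem classCount_top : classCount (strE E p) ⊤ = ⊤ := by
  unfold strE
  rw [SizeFn.classCount_toStr (by simp)]
  exact SizeFn.cnt_fill_top gE_lim ⟨Nat.pair 0 0, fun h => h.2 (by simp)⟩

theorem classCount_of_XX {n : ℕ} (hn : n ≠ 0) (h : XX E p n) : classCount (strE E p) n = ⊤ := by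
  unfold strE
  rw [SizeFn.classCount_toStr (by exact_mod_cast hn), SizeFn.cnt_fill gE_lim]
  have : {i | PsiE E p (Nat.pair i n)} = Set.univ := by
    ext i
    simp [PsiE, hn, h]
  rw [this]
  exact Set.infinite_univ.encard_eq

theorem classCount_of_not_XX {n : ℕ} (hn : n ≠ 0) (h : ¬ XX E p n) :
    classCount (strE E p) n = 0 := by
  unfold strE
  rw [SizeFn.classCount_toStr (by exact_mod_cast hn), SizeFn.cnt_fill gE_lim]
  have : {i | PsiE E p (Nat.pair i n)} = ∅ := by
    ext i
    simp [PsiE, h]
  rw [this, Set.encard_empty]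

/-- the structure is categorical if the predicate holds -/
theorem cat_of_HP (hU : E.u = uU) (h : HP E p) : Delta2Categorical (strE E p) := by
  apply delta2Categorical_of
  intro V hV hdom
  obtain ⟨m, hm⟩ := exists_WU hV
  have hspec := fun j => uU_spec m j
  have hDI : ∀ j, DI E m j ↔ (V j).Infinite := by
    intro j
    unfold DI
    rw [hU, (hspec j).1, hm]
  have hD : Dv E p m := by
    intro j
    by_cases hinf : (V j).Infinite
    · exact Or.inl ((hDI j).2 hinf)
    · right
      rw [Set.not_infinite] at hinf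
      obtain ⟨w, hw⟩ : ∃ w : ℕ, (V j).encard = w :=
        ⟨_, hinf.encard_eq_coe_toFinset_card⟩
      refine ⟨w, ?_, ?_⟩
      · rw [hU]
        apply (hspec j).2
        rw [hm, hw]
      · by_cases hw0 : w = 0
        · exact Or.inl hw0
        · right
          by_contra hX
          have h1 := hdom w (by exact_mod_cast hw0)
          rw [classCount_of_not_XX hw0 hX] at h1
          have h2 : {j | (V j).encard = w}.encard = 0 := le_antisymm h1 (zero_le)
          rw [Set.encard_eq_zero] at h2
          have h3 : j ∈ ({j | (V j).encard = w} : Set ℕ) := hw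
          rw [h2] at h3
          exact h3
  rw [delta2_iff_limP]
  exact (limP_of_HP h hD).of_iff hDI

/-- the structure is not categorical if the predicate fails -/
theorem HP_of_cat (hU : E.u = uU) (h : Delta2Categorical (strE E p)) : HP E p := by
  by_contra hne
  obtain ⟨i, hi'⟩ : ∃ i, ∀ k, ∃ x, ∀ n, ∀ᶠ s in atTop,
      n < E.q p (Nat.pair i (Nat.pair k x)) s := by
    by_contra h'
    apply hne
    intro i
    by_contra h''
    apply h'
    refine ⟨i, fun k => ?_⟩
    by_contra h3
    exact h'' ⟨k, fun x hx => h3 ⟨x, hx⟩⟩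
  obtain ⟨γ, hγ, hγD⟩ := exists_bool_fn (Dv E p) i
  have hdom : ∀ c ≠ 0, (dseq E p i hγ).cnt c ≤ classCount (strE E p) c := by
    intro c hc
    by_cases hct : c = ⊤
    · rw [hct, classCount_top]; exact le_top
    · obtain ⟨n, rfl⟩ := ENat.ne_top_iff_exists.1 hct
      have hn : n ≠ 0 := by exact_mod_cast hc
      by_cases hX : XX E p n
      · rw [classCount_of_XX hn hX]; exact le_top
      · have : {z | (dseq E p i hγ).lim z = n} = ∅ := by
          ext z
          simp only [mem_ofPred_eq, mem_empty_iff_false, iff_false]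
          intro hz
          rcases dseq_lim (hγ := hγ) hγD z with h1 | ⟨w, h1, h2⟩
          · rw [hz] at h1; exact absurd h1 (by simp)
          · rw [hz] at h1
            have h3 : n = w := by exact_mod_cast h1
            rcases h2 with h2 | h2
            · exact hn (h3.trans h2)
            · exact hX (h3 ▸ h2)
        unfold SizeFn.cnt
        rw [this, Set.encard_empty]
        exact zero_le
  obtain ⟨g, hg, hgl⟩ := limP_of_categorical h (dseq E p i hγ) hdom
  -- the diagonal sequence
  have hV : UnifCE (fun z => {s | g z s = false}) := by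
    have h1 : ComputablePred (fun q : ℕ × ℕ => q.2 ∈ ({s | g q.1 s = false} : Set ℕ)) := by
      refine ComputablePred.computable_iff.2 ⟨fun q => !(g q.1 q.2), ?_, ?_⟩
      · exact Primrec.not.to_comp.comp hg
      · funext q
        simp
    exact h1.to_re
  obtain ⟨k, hk⟩ := exists_WU hV
  obtain ⟨z, hz⟩ := dseq_diag (hγ := hγ) hγD hi' k
  have hDI : DI E k z ↔ {s | g z s = false}.Infinite := by
    unfold DI
    rw [hU, (uU_spec k z).1, hk]
  rw [hDI] at hz
  by_cases htop : (dseq E p i hγ).lim z = ⊤
  · have h1 := hz.1 htop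
    obtain ⟨s0, hs0⟩ := eventually_atTop.1 (hgl z)
    refine h1 ((Set.finite_lt_nat s0).subset (fun s hs => ?_))
    by_contra hlt
    have h2 := (hs0 s (not_lt.1 hlt)).2 htop
    have h3 : g z s = false := hs
    rw [h2] at h3
    exact absurd h3 (by simp)
  · apply htop
    apply hz.2
    obtain ⟨s0, hs0⟩ := eventually_atTop.1 (hgl z)
    refine (Set.infinite_of_not_bddAbove ?_)
    rintro ⟨b, hb⟩
    have h1 : g z (max s0 (b + 1)) = false := by
      have := hs0 (max s0 (b + 1)) (le_max_left _ _)
      rw [← Bool.not_eq_true, this]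
      exact htop
    have h2 := hb h1
    omega

/-! ### uniform indices -/

/-- the size function of `strE E p` -/
def nE (E : Env) (p k s : ℕ) : ℕ :=
  bif (ball (fun t => decide (t < k.unpair.2) || gE E p k.unpair.1 t) (s + 1) &&
      (decide (k.unpair.2 = 0) || !(gE E p k.unpair.1 (k.unpair.2 - 1))))
    then k.unpair.1.unpair.2 else k.unpair.1.unpair.2 + s

/-- membership in the domain of `strE E p` -/
def inE (E : Env) (p x : ℕ) : Bool :=
  decide (x.unpair.2.unpair.1 < nE E p x.unpair.1 x.unpair.2.unpair.2) &&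
    ball (fun t => !(decide (x.unpair.2.unpair.1 < nE E p x.unpair.1 t))) x.unpair.2.unpair.2

theorem inE_iff (x : ℕ) : inE E p x = true ↔ x ∈ (strE E p).carrier := by
  show _ ↔ (SizeFn.fill (gE E p) (comp_gE E p)).InS x
  unfold inE SizeFn.InS
  rw [Bool.and_eq_true, ball_eq_true, decide_eq_true_eq]
  refine and_congr Iff.rfl (forall_congr' (fun t => forall_congr' (fun _ => ?_)))
  rw [Bool.not_eq_true', decide_eq_false_iff_not]
  exact Iff.rfl

@[fun_prop] theorem pr_nE' {α : Type*} [Primcodable α] {f g h : α → ℕ} (hf : Primrec f)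
    (hg : Primrec g) (hh : Primrec h) : Primrec (fun a => nE E (f a) (g a) (h a)) := by
  unfold nE; fun_prop

@[fun_prop] theorem pr_inE' {α : Type*} [Primcodable α] {f g : α → ℕ} (hf : Primrec f)
    (hg : Primrec g) : Primrec (fun a => inE E (f a) (g a)) := by
  unfold inE; fun_prop

/-- `s-m-n` -/
theorem exists_smn {F : ℕ → ℕ → ℕ} (hF : Primrec (fun x : ℕ × ℕ => F x.1 x.2)) :
    ∃ e : ℕ → ℕ, Computable e ∧ ∀ p x, (Code.ofNatCode (e p)).eval x = Part.some (F p x) := by
  have h1 : Computable (fun n : ℕ => F n.unpair.1 n.unpair.2) :=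
    (hF.comp Primrec.unpair).to_comp
  obtain ⟨c, hc⟩ := Code.exists_code.1 (Partrec.nat_iff.1 h1)
  refine ⟨fun p => Encodable.encode (curry c p), ?_, fun p x => ?_⟩
  · exact (Primrec.encode.comp (primrec₂_curry.comp (Primrec.const c) Primrec.id)).to_comp
  · have e1 : Code.ofNatCode (Encodable.encode (curry c p)) = curry c p := by
      rw [← ofNatCode_eq]; exact Denumerable.ofNat_encode _
    rw [e1, eval_curry, hc]
    simp

theorem exists_index (E : Env) : ∃ f : ℕ → ℕ, Computable f ∧ ∀ p, IsIndex (f p) (strE E p) := by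
  obtain ⟨e1, he1, h1⟩ := exists_smn (F := fun p x => bif inE E p x then 1 else 0) (by fun_prop)
  obtain ⟨e2, he2, h2⟩ := exists_smn (F := fun p x =>
    bif (inE E p x.unpair.1 && (inE E p x.unpair.2 &&
      decide (x.unpair.1.unpair.1 = x.unpair.2.unpair.1))) then 1 else 0) (by fun_prop)
  refine ⟨fun p => Nat.pair (e1 p) (e2 p), Primrec₂.natPair.to_comp.comp he1 he2, fun p => ?_⟩
  refine ⟨fun x => ?_, fun x y => ?_⟩
  · rw [Nat.unpair_pair, h1, ← inE_iff]
    cases inE E p x <;> simp
  · rw [Nat.unpair_pair, h2]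
    have h3 : (strE E p).rel x y ↔ (inE E p x && (inE E p y &&
        decide (x.unpair.1 = y.unpair.1))) = true := by
      rw [Bool.and_eq_true, Bool.and_eq_true, inE_iff, inE_iff, decide_eq_true_eq]
      exact Iff.rfl
    rw [h3]
    simp only [Nat.unpair_pair]
    cases (inE E p x && (inE E p y && decide (x.unpair.1 = y.unpair.1))) <;> simp

/-- an index determines the structure -/
theorem eq_of_index {e : ℕ} {A B : CompEqStr} (hA : IsIndex e A) (hB : IsIndex e B) : A = B := by
  have h1 : A.carrier = B.carrier := by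
    ext x
    constructor
    · intro h
      by_contra h'
      have := Part.mem_unique ((hA.1 x).1 h) ((hB.1 x).2 h')
      omega
    · intro h
      by_contra h'
      have := Part.mem_unique ((hB.1 x).1 h) ((hA.1 x).2 h')
      omega
  have h2 : A.rel = B.rel := by
    funext x y
    apply propext
    constructor
    · intro h
      by_contra h'
      have := Part.mem_unique ((hA.2 x y).1 h) ((hB.2 x y).2 h')
      omega
    · intro h
      by_contra h'
      have := Part.mem_unique ((hB.2 x y).1 h) ((hA.2 x y).2 h')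
      omega
  cases A
  cases B
  simp only at h1 h2
  subst h1
  subst h2
  rfl

/-- the data for a predicate whose matrix is computed by `c` -/
def env (c : ℕ) : Constr.Env where
  u := uU
  q := fun p z s => cnt2 c (Nat.pair (Nat.pair (Nat.pair p z.unpair.1) z.unpair.2.unpair.1)
    z.unpair.2.unpair.2) s
  hu := uU_primrec
  hq := by fun_prop
  umono := uU_mono
  qmono := fun _ _ _ => cnt2_mono _ _ _

/-- hardness -/
theorem hard {Q : ℕ → Prop} (hQ : IsPi 5 Q) : ManyOneReducible Q CatIndex := by
  obtain ⟨Q1, ⟨Q2, ⟨Q3, ⟨Q4, ⟨R, hR, h5⟩, h4⟩, h3⟩, h2⟩, h1⟩ := hQ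
  obtain ⟨c, hc⟩ := exists_computes (R := R) hR
  obtain ⟨f, hf, hidx⟩ := exists_index (env c)
  have key : ∀ p, Q p ↔ HP (env c) p := by
    intro p
    unfold HP
    rw [h1]
    refine forall_congr' (fun i => ?_)
    rw [h2, not_forall]
    refine exists_congr (fun k => ?_)
    rw [not_not, h3]
    refine forall_congr' (fun x => ?_)
    have h6 := cnt2_inf_iff hc (Nat.pair (Nat.pair (Nat.pair p i) k) x)
    have h7 : (∀ n, ∀ᶠ s in atTop, n < (env c).q p (Nat.pair i (Nat.pair k x)) s) ↔
        ∀ y, ∃ t, R (Nat.pair (Nat.pair (Nat.pair (Nat.pair (Nat.pair p i) k) x) y) t) := by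
      rw [← h6]
      simp only [env, Nat.unpair_pair]
    rw [h7, h4, not_forall, not_forall]
    refine exists_congr (fun y => ?_)
    rw [not_not, h5, not_exists]
  refine ⟨f, hf, fun p => ?_⟩
  rw [key]
  constructor
  · intro h
    exact ⟨strE (env c) p, hidx p, cat_of_HP rfl h⟩
  · rintro ⟨A, hA, hcat⟩
    have := eq_of_index hA (hidx p)
    rw [this] at hcat
    exact HP_of_cat rfl hcat

end Pool.Agent.Lib_helper87.D2
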