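import Pool.Agent.Lib_helper87.D2.Defs
import Mathlib.Order.Filter.AtTopBot.Basic
import Mathlib.Order.Filter.AtTopBot.Archimedean

/-!
# The limit lemma
-/

namespace Pool.Agent.Lib_helper87.D2

open Nat.Partrec (Code)
open Filter

/-- limit computable functions -/
def LimC {α β : Type*} [Primcodable α] [Primcodable β] (f : α → β) : Prop :=
  ∃ g : α → ℕ → β, Computable₂ g ∧ ∀ a, ∀ᶠ s in atTop, g a s = f a

/-- partial version used in the induction -/
def PLim (f : ℕ →. ℕ) : Prop :=
  ∃ g : ℕ → ℕ → ℕ, Computable₂ g ∧ ∀ a y, y ∈ f a → ∀ᶠ s in atTop, g a s = y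

/-- bounded search for a zero -/
def bsearch (g : ℕ → ℕ → ℕ) (a s : ℕ) : ℕ :=
  Nat.rec (motive := fun _ => ℕ) s
    (fun n ih => if g (Nat.pair a (s - (n + 1))) s = 0 then s - (n + 1) else ih) s

theorem computable_ite_zero {α σ : Type*} [Primcodable α] [Primcodable σ] {c : α → ℕ} {f g : α → σ}
    (hc : Computable c) (hf : Computable f) (hg : Computable g) :
    Computable (fun a => if c a = 0 then f a else g a) := by
  have h1 : Computable (fun a => decide (c a = 0)) := by
    have : PrimrecPred (fun n : ℕ => n = 0) := Primrec.eq.comp Primrec.id (Primrec.const 0)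
    obtain ⟨_, h⟩ := this
    exact (h.to_comp.comp hc).of_eq (fun a => by congr)
  exact (Computable.cond h1 hf hg).of_eq (fun a => by by_cases h : c a = 0 <;> simp [h])

theorem bsearch_computable {g : ℕ → ℕ → ℕ} (hg : Computable₂ g) : Computable₂ (bsearch g) := by
  unfold bsearch
  have h := Computable.nat_rec (α := ℕ × ℕ) (σ := ℕ) (f := fun p => p.2) (g := fun p => p.2)
    (h := fun p q => if g (Nat.pair p.1 (p.2 - (q.1 + 1))) p.2 = 0 then p.2 - (q.1 + 1) else q.2)
    Computable.snd Computable.snd ?_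
  · exact h
  · have e1 : Computable (fun x : (ℕ × ℕ) × (ℕ × ℕ) => x.1.2 - (x.2.1 + 1)) := by
      have : Primrec (fun x : (ℕ × ℕ) × (ℕ × ℕ) => x.1.2 - (x.2.1 + 1)) :=
        Primrec.nat_sub.comp (Primrec.snd.comp Primrec.fst)
          (Primrec.succ.comp (Primrec.fst.comp Primrec.snd))
      exact this.to_comp
    have e2 : Computable (fun x : (ℕ × ℕ) × (ℕ × ℕ) =>
        g (Nat.pair x.1.1 (x.1.2 - (x.2.1 + 1))) x.1.2) := by
      refine Computable₂.comp hg ?_ (Computable.snd.comp Computable.fst)
      exact Computable₂.comp Primrec₂.natPair.to_comp (Computable.fst.comp Computable.fst) e1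
    exact computable_ite_zero e2 e1 (Computable.snd.comp Computable.snd)

theorem bsearch_rec (g : ℕ → ℕ → ℕ) (a s n : ℕ) (hn : n < s)
    (h0 : g (Nat.pair a n) s = 0) (h1 : ∀ m < n, g (Nat.pair a m) s ≠ 0) :
    ∀ k, s - n ≤ k → k ≤ s →
    Nat.rec (motive := fun _ => ℕ) s
    (fun n ih => if g (Nat.pair a (s - (n + 1))) s = 0 then s - (n + 1) else ih) k = n := by
  intro k hk hks
  induction k with
  | zero => omega
  | succ k ih =>
    simp only
    by_cases hk' : s - n ≤ k
    · have h2 := h1 (s - (k + 1)) (by omega)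
      rw [if_neg h2]
      exact ih hk' (by omega)
    · have : s - (k + 1) = n := by omega
      rw [this, if_pos h0]

theorem bsearch_eq (g : ℕ → ℕ → ℕ) (a s n : ℕ) (hn : n < s)
    (h0 : g (Nat.pair a n) s = 0) (h1 : ∀ m < n, g (Nat.pair a m) s ≠ 0) :
    bsearch g a s = n :=
  bsearch_rec g a s n hn h0 h1 s (by omega) le_rfl

theorem eventually_all_lt {p : ℕ → ℕ → Prop} {n : ℕ} (h : ∀ m < n, ∀ᶠ s in atTop, p m s) :
    ∀ᶠ s in atTop, ∀ m < n, p m s := by
  induction n with
  | zero => simp
  | succ n ih =>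
    have h1 := ih (fun m hm => h m (by omega))
    have h2 := h n (by omega)
    filter_upwards [h1, h2] with s hs1 hs2 m hm
    rcases Nat.lt_succ_iff_lt_or_eq.1 hm with h | h
    · exact hs1 m h
    · rw [h]; exact hs2

theorem plim_halt : PLim haltOracle := by
  refine ⟨fun n s => if ((Code.evaln s (Code.ofNatCode n) n).isSome = true) then 1 else 0, ?_, ?_⟩
  · have h : Primrec (fun p : ℕ × ℕ => Code.evaln p.2 (Code.ofNatCode p.1) p.1) :=
      Code.primrec_evaln.comp
        ((Primrec.snd.pair ((Primrec.ofNat Code).comp Primrec.fst)).pair Primrec.fst)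
    have h2 : Primrec (fun p : ℕ × ℕ => (Code.evaln p.2 (Code.ofNatCode p.1) p.1).isSome) :=
      Primrec.option_isSome.comp h
    have h3 := Primrec.cond h2 (Primrec.const 1) (Primrec.const 0)
    refine (h3.of_eq ?_).to_comp
    intro p
    cases h : (Code.evaln p.2 (Code.ofNatCode p.1) p.1).isSome <;> simp [h]
  · intro n y hy
    simp only [haltOracle, Part.mem_some_iff] at hy
    subst hy
    by_cases hd : ((Code.ofNatCode n).eval n).Dom
    · rw [if_pos hd]
      obtain ⟨x, hx⟩ := Part.dom_iff_mem.1 hd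
      obtain ⟨k, hk⟩ := Code.evaln_complete.1 hx
      filter_upwards [eventually_ge_atTop k] with s hs
      have := Code.evaln_mono hs hk
      rw [if_pos]
      rw [Option.isSome_iff_exists]
      exact ⟨x, this⟩
    · rw [if_neg hd]
      refine Eventually.of_forall (fun s => ?_)
      refine if_neg ?_
      intro h
      obtain ⟨x, hx⟩ := Option.isSome_iff_exists.1 h
      exact hd (Part.dom_iff_mem.2 ⟨x, Code.evaln_sound hx⟩)

theorem PLim.of_recursiveIn {f : ℕ →. ℕ} (hf : Nat.RecursiveIn {haltOracle} f) : PLim f := by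
  induction hf with
  | zero =>
    exact ⟨fun _ _ => 0, Computable.const 0, fun a y hy => by
      have : y = 0 := Part.mem_some_iff.1 hy
      simp [this]⟩
  | succ =>
    refine ⟨fun n _ => n + 1, (Computable.succ.comp Computable.fst), fun a y hy => ?_⟩
    have : y = a + 1 := Part.mem_some_iff.1 hy
    simp [this]
  | left =>
    refine ⟨fun n _ => n.unpair.1, ?_, fun a y hy => ?_⟩
    · exact (Primrec.fst.comp (Primrec.unpair.comp Primrec.fst)).to_comp
    · have : y = a.unpair.1 := Part.mem_some_iff.1 hy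
      simp [this]
  | right =>
    refine ⟨fun n _ => n.unpair.2, ?_, fun a y hy => ?_⟩
    · exact (Primrec.snd.comp (Primrec.unpair.comp Primrec.fst)).to_comp
    · have : y = a.unpair.2 := Part.mem_some_iff.1 hy
      simp [this]
  | oracle g hg =>
    rw [Set.mem_singleton_iff] at hg
    subst hg
    exact plim_halt
  | pair _ _ ih1 ih2 =>
    obtain ⟨g1, c1, h1⟩ := ih1
    obtain ⟨g2, c2, h2⟩ := ih2
    refine ⟨fun a s => Nat.pair (g1 a s) (g2 a s), ?_, fun a y hy => ?_⟩
    · exact Computable₂.comp Primrec₂.natPair.to_comp c1 c2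
    · simp only [Seq.seq, Part.map_eq_map, Part.mem_bind_iff, Part.mem_map_iff] at hy
      obtain ⟨_, ⟨u, hu, rfl⟩, v, hv, rfl⟩ := hy
      filter_upwards [h1 a u hu, h2 a v hv] with s e1 e2
      rw [e1, e2]
  | comp _ _ ih1 ih2 =>
    obtain ⟨g1, c1, h1⟩ := ih1
    obtain ⟨g2, c2, h2⟩ := ih2
    refine ⟨fun a s => g1 (g2 a s) s, ?_, fun a y hy => ?_⟩
    · exact Computable₂.comp c1 c2 Computable.snd
    · obtain ⟨u, hu, hy⟩ := Part.mem_bind_iff.1 hy
      filter_upwards [h2 a u hu, h1 u y hy] with s e1 e2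
      rw [e1, e2]
  | prec _ _ ih1 ih2 =>
    obtain ⟨g1, c1, h1⟩ := ih1
    obtain ⟨g2, c2, h2⟩ := ih2
    refine ⟨fun p s => Nat.rec (motive := fun _ => ℕ) (g1 p.unpair.1 s)
      (fun y i => g2 (Nat.pair p.unpair.1 (Nat.pair y i)) s) p.unpair.2, ?_, fun p y hy => ?_⟩
    · have hun : Computable (fun x : ℕ × ℕ => x.1.unpair) := Computable.unpair.comp Computable.fst
      refine Computable.nat_rec (f := fun x : ℕ × ℕ => x.1.unpair.2)
        (g := fun x => g1 x.1.unpair.1 x.2)
        (h := fun x q => g2 (Nat.pair x.1.unpair.1 (Nat.pair q.1 q.2)) x.2) ?_ ?_ ?_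
      · exact Computable.snd.comp hun
      · exact Computable₂.comp c1 (Computable.fst.comp hun) Computable.snd
      · refine Computable₂.comp c2 ?_ (Computable.snd.comp Computable.fst)
        refine Computable₂.comp Primrec₂.natPair.to_comp
          (Computable.fst.comp (hun.comp Computable.fst)) ?_
        exact Computable₂.comp Primrec₂.natPair.to_comp (Computable.fst.comp Computable.snd)
          (Computable.snd.comp Computable.snd)
    · simp only at hy
      show ∀ᶠ s in atTop, Nat.rec (motive := fun _ => ℕ) (g1 p.unpair.1 s)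
        (fun y i => g2 (Nat.pair p.unpair.1 (Nat.pair y i)) s) p.unpair.2 = y
      generalize p.unpair.1 = a at hy ⊢
      generalize p.unpair.2 = n at hy ⊢
      induction n generalizing y with
      | zero =>
        exact h1 a y hy
      | succ n ih =>
        obtain ⟨i, hi, hy⟩ := Part.mem_bind_iff.1 hy
        filter_upwards [ih i hi, h2 _ y hy] with s e1 e2
        rw [e1, e2]
  | rfind _ ih =>
    obtain ⟨g, c, h⟩ := ih
    refine ⟨bsearch g, bsearch_computable c, fun a y hy => ?_⟩
    have hy2 := Nat.mem_rfind.1 hy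
    obtain ⟨hy0, hy1⟩ := hy2
    have e0 : ∀ᶠ s in atTop, g (Nat.pair a y) s = 0 := by
      simp only [Part.map_eq_map, Part.mem_map_iff] at hy0
      obtain ⟨m, hm, hm2⟩ := hy0
      have : m = 0 := by simpa using hm2
      subst this
      exact h _ 0 hm
    have e1 : ∀ᶠ s in atTop, ∀ m < y, g (Nat.pair a m) s ≠ 0 := by
      apply eventually_all_lt
      intro m hm
      have := hy1 hm
      simp only [Part.map_eq_map, Part.mem_map_iff] at this
      obtain ⟨k, hk, hk2⟩ := this
      have hk3 : k ≠ 0 := by simpa using hk2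
      filter_upwards [h _ k hk] with s hs
      rw [hs]; exact hk3
    filter_upwards [e0, e1, eventually_gt_atTop y] with s hs0 hs1 hs2
    exact bsearch_eq g a s y hs2 hs0 hs1

theorem LimC.of_zeroJump {f : ℕ → ℕ} (hf : ZeroJump f) : LimC f := by
  obtain ⟨g, hg, h⟩ := PLim.of_recursiveIn (RecursiveIn.iff_nat.1 hf)
  exact ⟨g, hg, fun a => h a (f a) (by simp)⟩

/-- the search function deciding whether the value of `g n` changes after `s` -/
theorem exists_change_code {g : ℕ → ℕ → ℕ} (hg : Computable₂ g) :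
    ∃ c : Code, ∀ k y, (c.eval (Nat.pair k y)).Dom ↔
      ∃ s', k.unpair.2 ≤ s' ∧ g k.unpair.1 s' ≠ g k.unpair.1 k.unpair.2 := by
  have hp : Computable (fun p : ℕ × ℕ => Nat.pair
      (p.1.unpair.1.unpair.2 - p.2) (if g p.1.unpair.1.unpair.1 p.2 =
        g p.1.unpair.1.unpair.1 p.1.unpair.1.unpair.2 then 1 else 0)) := by
    have u1 : Primrec (fun p : ℕ × ℕ => p.1.unpair.1.unpair.1) :=
      Primrec.fst.comp (Primrec.unpair.comp (Primrec.fst.comp (Primrec.unpair.comp Primrec.fst)))
    have u2 : Primrec (fun p : ℕ × ℕ => p.1.unpair.1.unpair.2) :=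
      Primrec.snd.comp (Primrec.unpair.comp (Primrec.fst.comp (Primrec.unpair.comp Primrec.fst)))
    refine Computable₂.comp Primrec₂.natPair.to_comp ?_ ?_
    · exact (Primrec.nat_sub.comp u2 Primrec.snd).to_comp
    · have g1 : Computable (fun p : ℕ × ℕ => g p.1.unpair.1.unpair.1 p.2) :=
        Computable₂.comp hg u1.to_comp Computable.snd
      have g2 : Computable (fun p : ℕ × ℕ => g p.1.unpair.1.unpair.1 p.1.unpair.1.unpair.2) :=
        Computable₂.comp hg u1.to_comp u2.to_comp
      have e : Computable (fun p : ℕ × ℕ => decide (g p.1.unpair.1.unpair.1 p.2 =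
        g p.1.unpair.1.unpair.1 p.1.unpair.1.unpair.2)) := by
        have : PrimrecPred (fun q : ℕ × ℕ => q.1 = q.2) := Primrec.eq.comp Primrec.fst Primrec.snd
        obtain ⟨_, h⟩ := this
        exact (h.to_comp.comp (g1.pair g2)).of_eq (fun a => by congr)
      refine (Computable.cond e (Computable.const 1) (Computable.const 0)).of_eq (fun p => ?_)
      by_cases h : g p.1.unpair.1.unpair.1 p.2 =
        g p.1.unpair.1.unpair.1 p.1.unpair.1.unpair.2 <;> simp [h]
  have hr : Partrec (fun x : ℕ => Nat.rfind (fun s' => Part.some (decide (Nat.pair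
      (x.unpair.1.unpair.2 - s') (if g x.unpair.1.unpair.1 s' =
        g x.unpair.1.unpair.1 x.unpair.1.unpair.2 then 1 else 0) = 0)))) := by
    apply Partrec.rfind
    have : PrimrecPred (fun n : ℕ => n = 0) := Primrec.eq.comp Primrec.id (Primrec.const 0)
    obtain ⟨_, h⟩ := this
    have := (h.to_comp.comp hp).of_eq (g := fun p => decide (Nat.pair
      (p.1.unpair.1.unpair.2 - p.2) (if g p.1.unpair.1.unpair.1 p.2 =
        g p.1.unpair.1.unpair.1 p.1.unpair.1.unpair.2 then 1 else 0) = 0))
        (fun a => by congr)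
    refine (this.partrec).of_eq (fun p => ?_)
    simp only [PFun.coe_val]
    congr
  obtain ⟨c, hc⟩ := Code.exists_code.1 (Partrec.nat_iff.1 hr)
  refine ⟨c, fun k y => ?_⟩
  rw [hc]
  simp only [Nat.unpair_pair]
  rw [Part.dom_iff_mem]
  constructor
  · rintro ⟨s', hs'⟩
    obtain ⟨h1, -⟩ := Nat.mem_rfind.1 hs'
    refine ⟨s', ?_⟩
    have h2 := Part.mem_some_iff.1 h1
    have h3 : Nat.pair (k.unpair.2 - s') (if g k.unpair.1 s' =
        g k.unpair.1 k.unpair.2 then 1 else 0) = 0 := by simpa using h2.symm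
    have h4 : Nat.unpair (Nat.pair (k.unpair.2 - s') (if g k.unpair.1 s' =
        g k.unpair.1 k.unpair.2 then 1 else 0)) = (0, 0) := by rw [h3]; rfl
    rw [Nat.unpair_pair, Prod.mk.injEq] at h4
    refine ⟨by omega, fun h => ?_⟩
    simp [h] at h4
  · rintro ⟨s', h1, h2⟩
    have : ∃ n, Nat.pair (k.unpair.2 - n) (if g k.unpair.1 n =
        g k.unpair.1 k.unpair.2 then 1 else 0) = 0 := by
      refine ⟨s', ?_⟩
      rw [if_neg h2, Nat.sub_eq_zero_of_le h1]; rfl
    classical
    refine ⟨Nat.find this, Nat.mem_rfind.2 ⟨?_, fun {m} hm => ?_⟩⟩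
    · have := Nat.find_spec this
      rw [Part.mem_some_iff]
      simpa using this
    · have := Nat.find_min this hm
      rw [Part.mem_some_iff]
      simpa using this

theorem ZeroJump.of_limC {f : ℕ → ℕ} (hf : LimC f) : ZeroJump f := by
  obtain ⟨g, hg, hlim⟩ := hf
  obtain ⟨c, hc⟩ := exists_change_code hg
  -- the index function
  let e : ℕ → ℕ := fun k => Encodable.encode (Code.curry c k)
  have he : Computable e :=
    (Primrec.encode.comp (Code.primrec₂_curry.comp (Primrec.const c) Primrec.id)).to_comp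
  have hde : ∀ k, ((Code.ofNatCode (e k)).eval (e k)).Dom ↔
      ∃ s', k.unpair.2 ≤ s' ∧ g k.unpair.1 s' ≠ g k.unpair.1 k.unpair.2 := by
    intro k
    have : Code.ofNatCode (e k) = Code.curry c k := Denumerable.ofNat_encode (Code.curry c k)
    rw [this, Code.eval_curry]
    exact hc k _
  have hF : Nat.RecursiveIn {haltOracle} (fun k => haltOracle (e k)) := by
    have h1 : Nat.RecursiveIn {haltOracle} haltOracle := .oracle _ rfl
    have h2 : Nat.RecursiveIn {haltOracle} (fun k => Part.some (e k)) :=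
      (Partrec.nat_iff.1 he.partrec).recursiveIn
    have := h1.comp h2
    refine this.of_eq (fun n => ?_)
    exact Part.bind_some (e n) haltOracle
  have hS := hF.rfind
  -- combine
  have hid : Nat.RecursiveIn {haltOracle} (fun n => Part.some n) :=
    (Partrec.nat_iff.1 (Computable.id (α := ℕ)).partrec).recursiveIn
  have hP := hid.pair hS
  have hG : Nat.RecursiveIn {haltOracle}
      (fun n => Part.some (g n.unpair.1 n.unpair.2)) := by
    refine (Partrec.nat_iff.1 (Computable.partrec ?_)).recursiveIn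
    exact Computable₂.comp hg (Computable.fst.comp Computable.unpair)
      (Computable.snd.comp Computable.unpair)
  have hfin := hG.comp hP
  refine RecursiveIn.iff_nat.2 (hfin.of_eq (fun n => ?_))
  -- find the search value
  have hex : ∃ s, ∀ s' ≥ s, g n s' = g n s := by
    obtain ⟨s0, hs0⟩ := eventually_atTop.1 (hlim n)
    exact ⟨s0, fun s' hs' => by rw [hs0 s' hs', hs0 s0 le_rfl]⟩
  classical
  let s1 := Nat.find hex
  have hs1 := Nat.find_spec hex
  have hmem : s1 ∈ Nat.rfind fun m => (fun m => decide (m = 0)) <$> haltOracle (e (Nat.pair n m)) := by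
    refine Nat.mem_rfind.2 ⟨?_, ?_⟩
    · refine (Part.mem_map_iff _).2 ⟨0, ?_, by simp⟩
      unfold haltOracle
      rw [Part.mem_some_iff, if_neg]
      rw [hde]
      simp only [Nat.unpair_pair]
      rintro ⟨s', h1, h2⟩
      exact h2 (hs1 s' h1)
    · intro m hm
      refine (Part.mem_map_iff _).2 ⟨1, ?_, by simp⟩
      unfold haltOracle
      rw [Part.mem_some_iff, if_pos]
      · rw [hde]
        simp only [Nat.unpair_pair]
        have := Nat.find_min hex hm
        push Not at this
        obtain ⟨s', h1, h2⟩ := this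
        exact ⟨s', h1, h2⟩
  rw [Part.eq_some_iff, Part.bind_eq_bind, Part.mem_bind_iff]
  refine ⟨Nat.pair n s1, ?_, ?_⟩
  · simp only [Seq.seq, Part.map_eq_map, Part.map_some, Part.bind_some, Part.mem_map_iff]
    exact ⟨s1, hmem, rfl⟩
  · simp only [Nat.unpair_pair, Part.mem_some_iff]
    obtain ⟨s0, hs0⟩ := eventually_atTop.1 (hlim n)
    have h1 := hs1 (max s0 s1) (le_max_right _ _)
    rw [hs0 _ (le_max_left _ _)] at h1
    exact h1

theorem zeroJump_iff_limC {f : ℕ → ℕ} : ZeroJump f ↔ LimC f :=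
  ⟨LimC.of_zeroJump, ZeroJump.of_limC⟩

end Pool.Agent.Lib_helper87.D2
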