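import Pool.Agent.Lib_helper87.D2.LimAPI

/-!
# Primitive recursive functions: compositional closure lemmas
-/

namespace Pool.Agent.Lib_helper87.D2.PR

attribute [fun_prop] Primrec

variable {α β γ σ : Type*} [Primcodable α] [Primcodable β] [Primcodable γ] [Primcodable σ]

@[fun_prop] theorem id' : Primrec (fun x : α => x) := Primrec.id

@[fun_prop] theorem const' (c : β) : Primrec (fun _ : α => c) := Primrec.const c

@[fun_prop] theorem comp' {f : β → γ} {g : α → β} (hf : Primrec f) (hg : Primrec g) :
    Primrec (fun x => f (g x)) := hf.comp hg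

@[fun_prop] theorem fst' {f : α → β × γ} (hf : Primrec f) : Primrec (fun x => (f x).1) :=
  Primrec.fst.comp hf

@[fun_prop] theorem snd' {f : α → β × γ} (hf : Primrec f) : Primrec (fun x => (f x).2) :=
  Primrec.snd.comp hf

@[fun_prop] theorem pair' {f : α → β} {g : α → γ} (hf : Primrec f) (hg : Primrec g) :
    Primrec (fun x => (f x, g x)) := hf.pair hg

@[fun_prop] theorem add' {f g : α → ℕ} (hf : Primrec f) (hg : Primrec g) :
    Primrec (fun x => f x + g x) := Primrec.nat_add.comp hf hg

@[fun_prop] theorem mul' {f g : α → ℕ} (hf : Primrec f) (hg : Primrec g) :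
    Primrec (fun x => f x * g x) := Primrec.nat_mul.comp hf hg

@[fun_prop] theorem sub' {f g : α → ℕ} (hf : Primrec f) (hg : Primrec g) :
    Primrec (fun x => f x - g x) := Primrec.nat_sub.comp hf hg

@[fun_prop] theorem div' {f g : α → ℕ} (hf : Primrec f) (hg : Primrec g) :
    Primrec (fun x => f x / g x) := Primrec.nat_div.comp hf hg

@[fun_prop] theorem mod' {f g : α → ℕ} (hf : Primrec f) (hg : Primrec g) :
    Primrec (fun x => f x % g x) := Primrec.nat_mod.comp hf hg

@[fun_prop] theorem natPair' {f g : α → ℕ} (hf : Primrec f) (hg : Primrec g) :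
    Primrec (fun x => Nat.pair (f x) (g x)) := Primrec₂.natPair.comp hf hg

@[fun_prop] theorem unpair' {f : α → ℕ} (hf : Primrec f) : Primrec (fun x => (f x).unpair) :=
  Primrec.unpair.comp hf

@[fun_prop] theorem pow' {f g : α → ℕ} (hf : Primrec f) (hg : Primrec g) :
    Primrec (fun x => f x ^ g x) := by
  have h : Primrec (fun x => (Nat.rec 1 (fun _ ih => ih * f x) (g x) : ℕ)) :=
    Primrec.nat_rec' (f := g) (g := fun _ => 1) (h := fun x q => q.2 * f x) hg (by fun_prop)
      (by
        have e : Primrec (fun y : α × (ℕ × ℕ) => y.2.2 * f y.1) := by fun_prop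
        exact e)
  refine h.of_eq (fun x => ?_)
  induction g x with
  | zero => simp
  | succ n ih => rw [pow_succ, ← ih]

@[fun_prop] theorem and' {f g : α → Bool} (hf : Primrec f) (hg : Primrec g) :
    Primrec (fun x => f x && g x) := Primrec.and.comp hf hg

@[fun_prop] theorem or' {f g : α → Bool} (hf : Primrec f) (hg : Primrec g) :
    Primrec (fun x => f x || g x) := Primrec.or.comp hf hg

@[fun_prop] theorem not' {f : α → Bool} (hf : Primrec f) : Primrec (fun x => !(f x)) :=
  Primrec.not.comp hf

@[fun_prop] theorem cond' {c : α → Bool} {f g : α → β} (hc : Primrec c) (hf : Primrec f)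
    (hg : Primrec g) : Primrec (fun x => bif c x then f x else g x) := Primrec.cond hc hf hg

@[fun_prop] theorem decide_lt' {f g : α → ℕ} (hf : Primrec f) (hg : Primrec g) :
    Primrec (fun a => decide (f a < g a)) := by
  have : PrimrecPred (fun q : ℕ × ℕ => q.1 < q.2) := Primrec.nat_lt.comp Primrec.fst Primrec.snd
  obtain ⟨_, h⟩ := this
  exact (h.comp (hf.pair hg)).of_eq (fun a => by congr)

@[fun_prop] theorem decide_le' {f g : α → ℕ} (hf : Primrec f) (hg : Primrec g) :
    Primrec (fun a => decide (f a ≤ g a)) := by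
  have : PrimrecPred (fun q : ℕ × ℕ => q.1 ≤ q.2) := Primrec.nat_le.comp Primrec.fst Primrec.snd
  obtain ⟨_, h⟩ := this
  exact (h.comp (hf.pair hg)).of_eq (fun a => by congr)

@[fun_prop] theorem decide_eq' {f g : α → ℕ} (hf : Primrec f) (hg : Primrec g) :
    Primrec (fun a => decide (f a = g a)) := by
  have : PrimrecPred (fun q : ℕ × ℕ => q.1 = q.2) := Primrec.eq.comp Primrec.fst Primrec.snd
  obtain ⟨_, h⟩ := this
  exact (h.comp (hf.pair hg)).of_eq (fun a => by congr)

@[fun_prop] theorem natRec' {f : α → ℕ} {g : α → β} {h : α → ℕ → β → β} (hf : Primrec f)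
    (hg : Primrec g) (hh : Primrec (fun q : α × ℕ × β => h q.1 q.2.1 q.2.2)) :
    Primrec (fun a => (Nat.rec (g a) (fun n ih => h a n ih) (f a) : β)) :=
  Primrec.nat_rec' (f := f) (g := g) (h := fun a q => h a q.1 q.2) hf hg hh

@[fun_prop] theorem ball' {c : α → ℕ → Bool} {f : α → ℕ}
    (hc : Primrec (fun q : α × ℕ => c q.1 q.2)) (hf : Primrec f) :
    Primrec (fun a => ball (fun n => c a n) (f a)) := by
  unfold ball
  refine natRec' (h := fun a n ih => (ih && c a n)) hf (by fun_prop) ?_
  have e : Primrec (fun q : α × ℕ × Bool => (q.1, q.2.1)) := by fun_prop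
  have h0 := hc.comp e
  exact Primrec.and.comp (Primrec.snd.comp Primrec.snd) h0

@[fun_prop] theorem bfind' {c : α → ℕ → Bool} {f : α → ℕ}
    (hc : Primrec (fun q : α × ℕ => c q.1 q.2)) (hf : Primrec f) :
    Primrec (fun a => bfind (fun n => c a n) (f a)) := by
  unfold bfind
  refine natRec' (h := fun a n ih => (bif decide (ih < n) then ih else
    (bif c a n then n else n + 1))) hf (by fun_prop) ?_
  have e : Primrec (fun q : α × ℕ × ℕ => (q.1, q.2.1)) := by fun_prop
  have h0 : Primrec (fun q : α × ℕ × ℕ => c q.1 q.2.1) := hc.comp e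
  fun_prop

@[fun_prop] theorem bcount' {c : α → ℕ → Bool} {f : α → ℕ}
    (hc : Primrec (fun q : α × ℕ => c q.1 q.2)) (hf : Primrec f) :
    Primrec (fun a => bcount (fun n => c a n) (f a)) := by
  unfold bcount
  refine natRec' (h := fun a n ih => (bif c a n then ih + 1 else ih)) hf (by fun_prop) ?_
  have e : Primrec (fun q : α × ℕ × ℕ => (q.1, q.2.1)) := by fun_prop
  have h0 : Primrec (fun q : α × ℕ × ℕ => c q.1 q.2.1) := hc.comp e
  fun_prop

@[fun_prop] theorem getD' {l : α → List β} {n : α → ℕ} {d : β} (hl : Primrec l)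
    (hn : Primrec n) : Primrec (fun a => (l a).getD (n a) d) :=
  (Primrec.list_getD d).comp hl hn

@[fun_prop] theorem mapRange' {f : α → ℕ} {g : α → ℕ → β} (hf : Primrec f)
    (hg : Primrec (fun q : α × ℕ => g q.1 q.2)) :
    Primrec (fun a => (List.range (f a)).map (fun n => g a n)) :=
  Primrec.list_map (Primrec.list_range.comp hf) hg

end Pool.Agent.Lib_helper87.D2.PR
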