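import Pool.Agent.Lib_helper87.D2.Verify

/-!
# Verification of the construction: the true path
-/

namespace Pool.Agent.Lib_helper87.D2

open Filter

theorem const_of_not_inf {f : ℕ → ℕ} (hf : ∀ s, f s ≤ f (s + 1))
    (h : ¬ ∀ n, ∀ᶠ s in atTop, n < f s) : ∃ n, ∀ᶠ s in atTop, f s = n :=
  (mono_cases hf).resolve_left h

namespace Constr

open Tree

variable {E : Env} {p : ℕ}

theorem typ_cases (a : ℕ) : typ a = 0 ∨ typ a = 1 ∨ typ a = 2 ∨ typ a = 3 := by
  unfold typ; omega

theorem TT_0 {s τ : ℕ} (h : typ (len τ) = 0) :
    TT E p s τ = true ↔ E.u (arg (len τ)) s ≠ E.u (arg (len τ)) (s + 1) := by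
  unfold TT tick
  simp [h]

theorem TT_1 {s τ : ℕ} (h : typ (len τ) = 1) :
    TT E p s τ = true ↔ E.q p (arg (len τ)) s ≠ E.q p (arg (len τ)) (s + 1) := by
  unfold TT tick
  simp [h]

theorem TT_2 {s τ : ℕ} (h : typ (len τ) = 2) : TT E p s τ = EE E p s (arg (len τ)) := by
  unfold TT tick
  simp [h, EE]

theorem TT_3 {s τ : ℕ} (h : typ (len τ) = 3) : TT E p s τ = (asg τ && WW E p s τ) := by
  unfold TT tick
  simp [h, WW]

theorem CC_0 {s τ : ℕ} (h : typ (len τ) = 0) : CC E p s τ = E.u (arg (len τ)) s := by
  unfold CC cv; simp [h]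

theorem CC_1 {s τ : ℕ} (h : typ (len τ) = 1) : CC E p s τ = E.q p (arg (len τ)) s := by
  unfold CC cv; simp [h]

theorem CC_2 {s τ : ℕ} (h : typ (len τ) = 2) : CC E p s τ = gg E p s (arg (len τ)) := by
  unfold CC cv; simp [h, gg]

theorem CC_3 {s τ : ℕ} (h : typ (len τ) = 3) : CC E p s τ = yy E p s τ := by
  unfold CC cv; simp [h, yy]

theorem CC_eq_of_not_TT {s τ : ℕ} (h : TT E p s τ = false) : CC E p (s + 1) τ = CC E p s τ := by
  have h' : ¬ TT E p s τ = true := by simp [h]
  rcases typ_cases (len τ) with t | t | t | t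
  · rw [TT_0 t, not_not] at h'
    rw [CC_0 t, CC_0 t, h']
  · rw [TT_1 t, not_not] at h'
    rw [CC_1 t, CC_1 t, h']
  · rw [TT_2 t] at h
    rw [CC_2 t, CC_2 t, gg_step, if_neg]
    rw [h]; simp
  · rw [TT_3 t] at h
    rw [CC_3 t, CC_3 t]
    rcases step (E := E) (p := p) s τ with h1 | h1 | h1
    · unfold yy; rw [h1.1]
    · exact h1.2.2.2.1
    · rw [h1.1, h1.2.2.1] at h
      exact absurd h (by simp)

/-- a node whose counter is unbounded acts infinitely often -/
theorem InfT_of_CC {τ : ℕ} (h : ∀ n, ∀ᶠ s in atTop, n < CC E p s τ) : InfT E p τ := by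
  by_contra hne
  have h1 := not_InfT hne
  obtain ⟨n, hn⟩ := eventually_const_of_eventually_eq (f := fun s => CC E p s τ)
    (h1.mono (fun s hs => (CC_eq_of_not_TT hs).symm))
  exact not_both h (n := n) ((hn.mono (fun s hs => le_of_eq hs)).frequently)

/-- a move of `c` at stage `s` -/
def MV (E : Env) (p s c : ℕ) : Prop :=
  asg c = true ∧ RS E p s c = false ∧ WW E p s c = true ∧ dd E p (s + 1) c = true ∧
    vv E p (s + 1) c = vv E p s c ∧ yy E p s c < yy E p (s + 1) c ∧
    mok E p (st E p s) s c (yy E p (s + 1) c) = true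

theorem freq_move {c : ℕ} (h : ∀ n, ∀ᶠ s in atTop, n < yy E p s c) : ∃ᶠ s in atTop, MV E p s c := by
  by_contra hne
  rw [not_frequently] at hne
  obtain ⟨n, hn⟩ := eventually_const_of_eventually_eq (f := fun s => yy E p s c)
    (hne.mono (fun s hs => by
      rcases step (E := E) (p := p) s c with h1 | h1 | h1
      · unfold yy; rw [h1.1]
      · exact h1.2.2.2.1.symm
      · exact absurd h1 hs))
  exact not_both h (n := n) ((hn.mono (fun s hs => le_of_eq hs)).frequently)

/-- if `c` moves infinitely often, its infinitary guesses are right -/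
theorem CC_inf_of_yy {c a : ℕ} (h : ∀ n, ∀ᶠ s in atTop, n < yy E p s c) (ha : a < len c)
    (h1 : inf c a = true) : ∀ n, ∀ᶠ s in atTop, n < CC E p s (pre c a) := by
  rcases mono_cases (f := fun s => CC E p s (pre c a)) (fun s => CC_mono s _) with h2 | ⟨m, h2⟩
  · exact h2
  · exfalso
    obtain ⟨s, hs1, hs2, hs3⟩ := ((freq_move h).and_eventually
      ((h m).and ((tendsto_add_atTop_nat 1).eventually h2))).exists
    have h3 := inv_inf hs1.2.2.2.1 ha h1
    have h4 := Nat.right_le_pair c (yy E p (s + 1) c)
    have h5 := hs1.2.2.2.2.2.1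
    omega

/-- a node whose finitary guess is wrong is not placed eventually -/
theorem not_eventually_dd {c a : ℕ} (h0 : asg c = true) (ha : a < len c)
    (h1 : inf c a = false) (h2 : InfT E p (pre c a)) : ¬ ∀ᶠ s in atTop, dd E p s c = true := by
  intro h
  obtain ⟨s, hs1, hs2⟩ := ((frequently_not_dd h0 ha h1 h2).and_eventually h).exists
  rw [hs1] at hs2
  exact absurd hs2 (by simp)

/-! ### the counters of the guesses -/

/-- the limiting size of `(m, j)` is infinite -/
def DI (E : Env) (m j : ℕ) : Prop := ∀ n, ∀ᶠ s in atTop, n < E.u (Nat.pair m j) s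

/-- the `m`-th sequence takes its values in the set of sizes -/
def Dv (E : Env) (p m : ℕ) : Prop :=
  ∀ j, DI E m j ∨ ∃ w, (∀ᶠ s in atTop, E.u (Nat.pair m j) s = w) ∧ (w = 0 ∨ XX E p w)

theorem EE_iff {s m : ℕ} : EE E p s m = true ↔ ∀ j < gg E p s m + 1,
    E.u (Nat.pair m j) s = 0 ∨ XS E p s (E.u (Nat.pair m j) s) = true ∨
      gg E p s m < E.u (Nat.pair m j) s := by
  unfold EE expand gg XS
  simp only [ball_eq_true, Bool.or_eq_true, decide_eq_true_eq]

theorem gg_inf_of_EE {m : ℕ} (h : ∃ᶠ s in atTop, EE E p s m = true) :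
    ∀ n, ∀ᶠ s in atTop, n < gg E p s m := by
  rcases mono_cases (f := fun s => gg E p s m) (fun s => gg_mono s m) with h2 | ⟨n, h2⟩
  · exact h2
  · exfalso
    obtain ⟨s, hs1, hs2, hs3, hs4⟩ := (h.and_eventually
      (h2.and (((tendsto_add_atTop_nat 1).eventually h2).and (eventually_ge_atTop m)))).exists
    have h3 := gg_step (E := E) (p := p) s m
    rw [if_pos ⟨by omega, hs1⟩] at h3
    omega

theorem EE_of_gg_inf {m : ℕ} (h : ∀ n, ∀ᶠ s in atTop, n < gg E p s m) :
    ∃ᶠ s in atTop, EE E p s m = true := by
  by_contra hne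
  rw [not_frequently] at hne
  obtain ⟨n, hn⟩ := eventually_const_of_eventually_eq (f := fun s => gg E p s m)
    (hne.mono (fun s hs => by rw [gg_step, if_neg (fun h => hs h.2)]))
  exact not_both h (n := n) ((hn.mono (fun s hs => le_of_eq hs)).frequently)

theorem gg_inf_iff {m : ℕ} : (∀ n, ∀ᶠ s in atTop, n < gg E p s m) ↔ Dv E p m := by
  constructor
  · intro h j
    rcases mono_cases (f := fun s => E.u (Nat.pair m j) s) (fun s => E.umono _ s) with h1 | ⟨w, h1⟩
    · exact Or.inl h1
    · right
      refine ⟨w, h1, ?_⟩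
      by_cases hw : w = 0
      · exact Or.inl hw
      · right
        apply XX_of_frequently
        have h2 := (EE_of_gg_inf h).and_eventually (h1.and ((h j).and (h w)))
        refine h2.mono ?_
        rintro s ⟨hs1, hs2, hs3, hs4⟩
        rcases EE_iff.1 hs1 j (by omega) with h3 | h3 | h3
        · omega
        · rw [hs2] at h3; exact h3
        · omega
  · intro h
    rcases mono_cases (f := fun s => gg E p s m) (fun s => gg_mono s m) with h2 | ⟨n, h2⟩
    · exact h2
    · have h3 : ∀ᶠ s in atTop, ∀ j < n + 1, E.u (Nat.pair m j) s = 0 ∨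
          XS E p s (E.u (Nat.pair m j) s) = true ∨ n < E.u (Nat.pair m j) s := by
        apply eventually_all_lt
        intro j _
        rcases h j with h4 | ⟨w, h4, h5 | h5⟩
        · filter_upwards [h4 n] with s hs
          exact Or.inr (Or.inr hs)
        · filter_upwards [h4] with s hs
          left; omega
        · filter_upwards [h4, h5] with s hs1 hs2
          right; left
          rw [hs1]; exact hs2
      apply gg_inf_of_EE
      apply Eventually.frequently
      filter_upwards [h2, h3] with s hs1 hs2
      rw [EE_iff, hs1]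
      exact hs2

/-! ### the true path -/

open scoped Classical in
/-- the true path -/
noncomputable def tp (E : Env) (p : ℕ) : ℕ → ℕ
  | 0 => Nat.pair 0 0
  | a + 1 => Nat.pair (a + 1) (2 * vl (tp E p a) + if InfT E p (tp E p a) then 0 else 1)

theorem len_tp (a : ℕ) : len (tp E p a) = a := by
  cases a <;> simp [tp, len]

theorem vl_tp_succ (a : ℕ) : (InfT E p (tp E p a) → vl (tp E p (a + 1)) = 2 * vl (tp E p a)) ∧
    (¬ InfT E p (tp E p a) → vl (tp E p (a + 1)) = 2 * vl (tp E p a) + 1) := by
  have h1 : vl (tp E p (a + 1)) = 2 * vl (tp E p a) + (by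
      classical exact if InfT E p (tp E p a) then 0 else 1) := by
    simp only [tp, vl, Nat.unpair_pair]
  rw [h1]
  constructor
  · intro h; simp [h]
  · intro h; simp [h]

theorem pre_tp_succ (a : ℕ) : pre (tp E p (a + 1)) a = tp E p a := by
  apply ext
  · rw [len_pre, len_tp]
  · rw [vl_pre, len_tp]
    have h := vl_tp_succ (E := E) (p := p) a
    have e : a + 1 - a = 1 := by omega
    rw [e, pow_one]
    by_cases hi : InfT E p (tp E p a)
    · rw [h.1 hi]; omega
    · rw [h.2 hi]; omega

theorem pre_tp {a b : ℕ} (h : a ≤ b) : pre (tp E p b) a = tp E p a := by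
  induction b, h using Nat.le_induction with
  | base =>
    have := pre_self (tp E p a)
    rwa [len_tp] at this
  | succ b hb ih =>
    rw [← pre_pre (c := tp E p (b + 1)) (b := b) hb (by rw [len_tp]; omega), pre_tp_succ, ih]

theorem inf_tp {a b : ℕ} (h : a < b) : inf (tp E p b) a = true ↔ InfT E p (tp E p a) := by
  rw [inf_iff, pre_tp (by omega)]
  have h1 := vl_tp_succ (E := E) (p := p) a
  by_cases hi : InfT E p (tp E p a)
  · rw [h1.1 hi]
    exact ⟨fun _ => hi, fun _ => by omega⟩
  · rw [h1.2 hi]
    exact ⟨fun h => by omega, fun h => absurd h hi⟩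

theorem inf_tp_false {a b : ℕ} (h : a < b) : inf (tp E p b) a = false ↔ ¬ InfT E p (tp E p a) := by
  rw [← inf_tp h, Bool.not_eq_true]

theorem valid_tp (a : ℕ) : Valid (tp E p a) := by
  induction a with
  | zero => simp [Valid, tp, vl, len]
  | succ a ih =>
    have h1 := vl_tp_succ (E := E) (p := p) a
    unfold Valid at ih ⊢
    rw [len_tp] at ih ⊢
    rw [pow_succ]
    by_cases hi : InfT E p (tp E p a)
    · rw [h1.1 hi]; omega
    · rw [h1.2 hi]; omega

/-- nodes on the true path are reset finitely often -/
theorem no_reset_tp (a : ℕ) : ∀ᶠ s in atTop, RS E p s (tp E p a) = false := by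
  have h : ∀ᶠ s in atTop, ∀ b < a, ¬ (inf (tp E p a) b = false ∧ TT E p s (tp E p b) = true) := by
    apply eventually_all_lt
    intro b hb
    by_cases hi : inf (tp E p a) b = false
    · rw [inf_tp_false hb] at hi
      filter_upwards [not_InfT hi] with s hs
      rw [hs]; simp
    · exact Eventually.of_forall (fun s h => hi h.1)
  filter_upwards [h] with s hs
  rw [← Bool.not_eq_true]
  unfold RS reset
  rw [bex_eq_true]
  rintro ⟨b, hb, h1⟩
  rw [len_tp] at hb
  rw [pre_tp hb.le, Bool.and_eq_true, Bool.not_eq_true'] at h1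
  exact hs b hb h1

/-- the counters of the true infinitary nodes tend to infinity -/
def CVT (E : Env) (p a : ℕ) : Prop :=
  InfT E p (tp E p a) → ∀ n, ∀ᶠ s in atTop, n < CC E p s (tp E p a)

/-- true nodes are not stuck -/
theorem nonstuck {a : ℕ} (ih : ∀ b < a, CVT E p b) (hasg : asg (tp E p a) = true)
    (hw : ∃ᶠ s in atTop, WW E p s (tp E p a) = true) :
    ∀ n, ∀ᶠ s in atTop, n < yy E p s (tp E p a) := by
  rcases rc_cases (E := E) (p := p) (tp E p a) with h | ⟨r, hr⟩
  · exact h
  · exfalso
    obtain ⟨c, hc⟩ : ∃ c, c = tp E p a := ⟨_, rfl⟩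
    rw [← hc] at hasg hw hr
    have hlen : len c = a := by rw [hc, len_tp]
    have hval : Valid c := by rw [hc]; exact valid_tp a
    have hpre : ∀ b, b ≤ a → pre c b = tp E p b := fun b hb => by rw [hc, pre_tp hb]
    have hinf : ∀ b, b < a → (inf c b = true ↔ InfT E p (tp E p b)) :=
      fun b hb => by rw [hc, inf_tp hb]
    have hnr : ∀ᶠ s in atTop, RS E p s c = false := by rw [hc]; exact no_reset_tp a
    -- `c` wants to move from some stage on
    have hW : ∀ᶠ s in atTop, WW E p s c = true := by
      have h1 : EvC (fun s => WW E p s c) := by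
        refine EvC.congr (b := fun s => (!r.1 || decide (Nat.pair c r.2.1 <
          E.u (Nat.pair (gk c) (Nat.pair c r.2.2)) s))) ?_ ?_
        · exact (EvC.const _).or (EvC.lt (E.umono _) _)
        · filter_upwards [hr] with s hs
          unfold WW wanting
          rw [hs]
      rcases h1.cases with h2 | h2
      · exact h2
      · obtain ⟨s, h3, h4⟩ := (hw.and_eventually h2).exists
        rw [h3] at h4
        exact absurd h4 (by simp)
    -- a bound for the positions considered
    obtain ⟨N, hN⟩ : ∃ N, N = Nat.pair c (r.2.1 + len c + 1) := ⟨_, rfl⟩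
    have hNb : ∀ y', y' ≤ r.2.1 + len c + 1 → Nat.pair c y' ≤ N := by
      intro y' hy'
      rw [hN]
      rcases Nat.eq_or_lt_of_le hy' with h | h
      · rw [h]
      · exact (Nat.pair_lt_pair_right c h).le
    -- M1
    have m1 : ∀ᶠ s in atTop, ∀ b < len c, inf c b = true → N < CC E p s (pre c b) := by
      apply eventually_all_lt
      intro b hb
      by_cases hi : inf c b = true
      · rw [hlen] at hb
        filter_upwards [ih b hb ((hinf b hb).1 hi) N] with s hs _
        rw [hpre b hb.le]
        exact hs
      · exact Eventually.of_forall (fun s h => absurd h hi)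
    -- M2
    have m2 : ∀ b, ∃ w, b < len c → inf c b = false → typ b = 0 →
        ∀ᶠ s in atTop, E.u (arg b) s = w := by
      intro b
      by_cases hh : b < len c ∧ inf c b = false ∧ typ b = 0
      · obtain ⟨hb, hi, ht⟩ := hh
        rw [hlen] at hb
        have hni : ¬ InfT E p (tp E p b) := by
          rw [← hinf b hb, hi]; simp
        obtain ⟨w, hw⟩ := eventually_const_of_eventually_eq (f := fun s => E.u (arg b) s)
          ((not_InfT hni).mono (fun s hs => by
            by_contra hne
            have := (TT_0 (E := E) (p := p) (s := s) (τ := tp E p b)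
              (by rw [len_tp]; exact ht)).2 (by rw [len_tp]; exact hne)
            rw [hs] at this
            exact absurd this (by simp)))
        exact ⟨w, fun _ _ _ => hw⟩
      · exact ⟨0, fun h1 h2 h3 => absurd ⟨h1, h2, h3⟩ hh⟩
    choose ω hω using m2
    obtain ⟨y', hy1, hy2, hy3⟩ : ∃ y', r.2.1 < y' ∧ y' ≤ r.2.1 + len c + 1 ∧
        ∀ b < len c, ω b ≠ Nat.pair c y' := by
      classical
      have hcard : ((Finset.range (len c)).image ω).card <
          ((Finset.range (len c + 1)).image (fun t => Nat.pair c (r.2.1 + 1 + t))).card := by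
        have h1 : ((Finset.range (len c)).image ω).card ≤ len c := by
          refine le_trans Finset.card_image_le ?_
          rw [Finset.card_range]
        have h2 : ((Finset.range (len c + 1)).image
            (fun t => Nat.pair c (r.2.1 + 1 + t))).card = len c + 1 := by
          rw [Finset.card_image_of_injective, Finset.card_range]
          intro t t' h
          have := (Nat.pair_eq_pair.1 h).2
          omega
        omega
      obtain ⟨x, hx1, hx2⟩ := Finset.exists_mem_notMem_of_card_lt_card hcard
      rw [Finset.mem_image] at hx1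
      obtain ⟨t, ht, rfl⟩ := hx1
      rw [Finset.mem_range] at ht
      refine ⟨r.2.1 + 1 + t, by omega, by omega, fun b hb h => hx2 ?_⟩
      rw [Finset.mem_image]
      exact ⟨b, Finset.mem_range.2 hb, h⟩
    have m2 : ∀ᶠ s in atTop, ∀ b < len c, inf c b = false → typ b = 0 →
        E.u (arg b) s ≠ Nat.pair c y' := by
      apply eventually_all_lt
      intro b hb
      by_cases hh : inf c b = false ∧ typ b = 0
      · filter_upwards [hω b hb hh.1 hh.2] with s hs _ _
        rw [hs]
        exact hy3 b hb
      · exact Eventually.of_forall (fun s h1 h2 => absurd ⟨h1, h2⟩ hh)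
    -- M3
    have hpa := (pa_iff.1 (asg_iff.1 hasg).2.1)
    have m3 : ∀ᶠ s in atTop, ∀ m < gi c, inf c (aG m) = true → ∀ j < bound c r.2.1 + 1,
        E.u (Nat.pair m j) s = 0 ∨ Nat.pair c y' < E.u (Nat.pair m j) s ∨
          shelt (st E p s) c (E.u (Nat.pair m j) s) = true := by
      apply eventually_all_lt
      intro m hm
      by_cases hi : inf c (aG m) = true
      swap
      · exact Eventually.of_forall (fun s h => absurd h hi)
      have hmG : aG m < a := hlen ▸ hpa.2.2 m hm
      have hD : Dv E p m := by
        rw [← gg_inf_iff]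
        have h1 := (hinf _ hmG).1 hi
        apply gg_inf_of_EE
        refine h1.mono (fun s hs => ?_)
        rw [TT_2 (by rw [len_tp]; exact typ_aG m), len_tp, arg_aG] at hs
        exact hs
      have : ∀ᶠ s in atTop, ∀ j < bound c r.2.1 + 1,
        E.u (Nat.pair m j) s = 0 ∨ Nat.pair c y' < E.u (Nat.pair m j) s ∨
          shelt (st E p s) c (E.u (Nat.pair m j) s) = true := by
        apply eventually_all_lt
        intro j hj
        rcases hD j with h4 | ⟨w, h4, h5 | h5⟩
        · filter_upwards [h4 (Nat.pair c y')] with s hs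
          exact Or.inr (Or.inl hs)
        · filter_upwards [h4] with s hs
          left; omega
        · -- the value `w` is in the set of sizes
          obtain ⟨μ, hμ⟩ : ∃ μ, μ = w.unpair.1 := ⟨_, rfl⟩
          have h6 : ∀ᶠ s in atTop, asg μ = true ∧ dd E p s μ = true ∧
              yy E p s μ = w.unpair.2 ∧ (WW E p s μ && BB E p s μ) = false := by
            filter_upwards [h5] with s hs
            unfold XS xs at hs
            rw [← hμ] at hs
            simp only [Bool.and_eq_true, decide_eq_true_eq, Bool.not_eq_true'] at hs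
            exact hs
          have hasgμ : asg μ = true := by
            obtain ⟨s, hs⟩ := h6.exists
            exact hs.1
          have hdd : ∀ᶠ s in atTop, dd E p s μ = true := h6.mono (fun s hs => hs.2.1)
          have hlt : ilt μ c := by
            by_contra hnlt
            by_cases hlt' : ilt c μ
            · have hpaμ := (pa_iff.1 (asg_iff.1 hasgμ).2.1)
              rcases ilt_cases hval (asg_iff.1 hasgμ).1 hlt' with h7 | h7 | h7
              · -- `μ` extends `c`, guessing it finitary
                obtain ⟨h8, h9, h10⟩ := h7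
                refine not_eventually_dd hasgμ h8 h10 ?_ hdd
                rw [h9]
                have : ∀ᶠ s in atTop, TT E p s c = true := by
                  filter_upwards [hW] with s hs
                  rw [TT_3 hpa.1, hasg, hs]; rfl
                exact this.frequently
              · -- `c` extends `μ`, guessing it infinitary
                obtain ⟨h8, h9, h10⟩ := h7
                rw [hlen] at h8
                have h11 := ih _ h8 ((hinf _ h8).1 h10)
                rw [← hpre _ h8.le, h9] at h11
                obtain ⟨s, hs1, hs2⟩ := ((h11 w.unpair.2).and h6).exists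
                rw [CC_3 hpaμ.1, hs2.2.2.1] at hs1
                omega
              · -- `μ` is to the right of `c`
                obtain ⟨b, h8, h9, h10, h11, h12⟩ := h7
                refine not_eventually_dd hasgμ h9 h12 ?_ hdd
                rw [hlen] at h8
                rw [← h10, hpre _ h8.le]
                exact (hinf b h8).1 h11
            · -- `μ = c`
              have hμc : μ = c := eq_of_not_ilt hnlt hlt'
              obtain ⟨s, hs1, hs2, hs3, hs4⟩ := (h6.and (hW.and (h4.and hr))).exists
              rw [hμc] at hs1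
              have h7 : w = Nat.pair c r.2.1 := by
                have h8 : yy E p s c = r.2.1 := by unfold yy; rw [hs4]
                rw [← h8, hs1.2.2.1, ← hμc, hμ, Nat.pair_unpair]
              have h9 : BB E p s c = true := by
                unfold BB blocked
                rw [bex_eq_true]
                refine ⟨m, hm, ?_⟩
                rw [hi, Bool.true_and, bex_eq_true, hs4]
                exact ⟨j, hj, by rw [hs3, h7]; simp⟩
              have h10 := hs1.2.2.2
              rw [hs2, h9] at h10
              exact absurd h10 (by simp)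
          filter_upwards [h4, h6] with s hs1 hs2
          right; right
          rw [hs1]
          unfold shelt
          rw [← hμ]
          simp only [Bool.and_eq_true, decide_eq_true_eq]
          exact ⟨hs2.2.1, hs2.2.2.1, iltb_iff.2 hlt⟩
      filter_upwards [this] with s hs _
      exact hs
    -- the contradiction
    obtain ⟨s0, hs0⟩ := eventually_atTop.1 (m1.and (m2.and (m3.and (hr.and (hnr.and hW)))))
    obtain ⟨s, hsa, hsb⟩ : ∃ s, s0 ≤ s ∧ c < s + 1 := ⟨s0 + c, by omega, by omega⟩
    obtain ⟨k1, k2, k3, k4, k5, k6⟩ := hs0 s hsa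
    obtain ⟨_, _, _, k4', _, _⟩ := hs0 (s + 1) (by omega)
    have hy : yy E p s c = r.2.1 := by unfold yy; rw [k4]
    have hy' : yy E p (s + 1) c = r.2.1 := by unfold yy; rw [k4']
    have hmv := move (E := E) (p := p) hsb hasg k5 k6 (y' := y') (by omega) (by omega) (by
      rw [mok_iff]
      refine ⟨fun b hb hi => ?_, k2, fun m hm hi j hj => ?_⟩
      · exact lt_of_le_of_lt (hNb y' hy2) (k1 b hb hi)
      · rw [k4] at hj
        exact k3 m hm hi j hj)
    omega

theorem cvt (a : ℕ) : CVT E p a := by
  induction a using Nat.strong_induction_on with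
  | _ a ih =>
    intro hinf
    rcases typ_cases (len (tp E p a)) with t | t | t | t
    · rcases mono_cases (f := fun s => CC E p s (tp E p a)) (fun s => CC_mono s _) with h | ⟨n, h⟩
      · exact h
      · exfalso
        obtain ⟨s, hs1, hs2, hs3⟩ := (hinf.and_eventually
          (h.and ((tendsto_add_atTop_nat 1).eventually h))).exists
        rw [TT_0 t] at hs1
        rw [CC_0 t] at hs2
        rw [CC_0 t] at hs3
        exact hs1 (hs2.trans hs3.symm)
    · rcases mono_cases (f := fun s => CC E p s (tp E p a)) (fun s => CC_mono s _) with h | ⟨n, h⟩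
      · exact h
      · exfalso
        obtain ⟨s, hs1, hs2, hs3⟩ := (hinf.and_eventually
          (h.and ((tendsto_add_atTop_nat 1).eventually h))).exists
        rw [TT_1 t] at hs1
        rw [CC_1 t] at hs2
        rw [CC_1 t] at hs3
        exact hs1 (hs2.trans hs3.symm)
    · intro n
      have h1 := gg_inf_of_EE (E := E) (p := p) (m := arg (len (tp E p a)))
        (hinf.mono (fun s hs => by rw [TT_2 t] at hs; exact hs))
      filter_upwards [h1 n] with s hs
      rw [CC_2 t]; exact hs
    · intro n
      have h0 : asg (tp E p a) = true := by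
        obtain ⟨s, hs⟩ := hinf.exists
        rw [TT_3 t, Bool.and_eq_true] at hs
        exact hs.1
      have h1 := nonstuck (E := E) (p := p) ih h0
        (hinf.mono (fun s hs => by rw [TT_3 t, Bool.and_eq_true] at hs; exact hs.2))
      filter_upwards [h1 n] with s hs
      rw [CC_3 t]; exact hs

/-- if the hypotheses below `k` are true, there is a true node for `(i, k)` -/
theorem exists_asg {i k : ℕ}
    (h : ∀ k' < k, ∃ x, ∀ n, ∀ᶠ s in atTop, n < E.q p (Nat.pair i (Nat.pair k' x)) s) :
    ∃ a, typ a = 3 ∧ arg a = Nat.pair i k ∧ asg (tp E p a) = true := by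
  classical
  have hx : ∀ k', ∃ x, k' < k → ∀ n, ∀ᶠ s in atTop, n < E.q p (Nat.pair i (Nat.pair k' x)) s := by
    intro k'
    by_cases hk : k' < k
    · obtain ⟨x, hx⟩ := h k' hk; exact ⟨x, fun _ => hx⟩
    · exact ⟨0, fun h => absurd h hk⟩
  choose x hx using hx
  obtain ⟨L, hL⟩ : ∃ L, L = (Finset.range k).sup (fun k' => aQ (Nat.pair i (Nat.pair k' (x k')))) +
    (Finset.range i).sup (fun m => aG m) + 1 := ⟨_, rfl⟩
  have hL1 : ∀ k' < k, aQ (Nat.pair i (Nat.pair k' (x k'))) < L := by
    intro k' hk
    have := Finset.le_sup (f := fun k' => aQ (Nat.pair i (Nat.pair k' (x k'))))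
      (Finset.mem_range.2 hk)
    omega
  have hL2 : ∀ m < i, aG m < L := by
    intro m hm
    have := Finset.le_sup (f := fun m => aG m) (Finset.mem_range.2 hm)
    omega
  have hex : ∃ a, typ a = 3 ∧ arg a = Nat.pair i k ∧ pa (tp E p a) = true := by
    refine ⟨Nat.pair (4 * Nat.pair i k + 3) L, ?_, ?_, ?_⟩
    · simp only [typ, Nat.unpair_pair]; omega
    · simp only [arg, Nat.unpair_pair]; omega
    · have ha : L ≤ Nat.pair (4 * Nat.pair i k + 3) L := Nat.right_le_pair _ _
      have harg : arg (Nat.pair (4 * Nat.pair i k + 3) L) = Nat.pair i k := by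
        simp only [arg, Nat.unpair_pair]; omega
      have hgi : gi (tp E p (Nat.pair (4 * Nat.pair i k + 3) L)) = i := by
        unfold gi; rw [len_tp, harg, Nat.unpair_pair]
      have hgk : gk (tp E p (Nat.pair (4 * Nat.pair i k + 3) L)) = k := by
        unfold gk; rw [len_tp, harg, Nat.unpair_pair]
      rw [pa_iff, hgi, hgk, len_tp]
      refine ⟨by simp only [typ, Nat.unpair_pair]; omega, fun k' hk' => ?_, fun m hm => ?_⟩
      · have h1 := hL1 k' hk'
        refine ⟨x k', by omega, ?_⟩
        rw [inf_tp (by omega)]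
        apply InfT_of_CC
        intro n
        filter_upwards [hx k' hk' n] with s hs
        rw [CC_1 (by rw [len_tp]; exact typ_aQ _), len_tp, arg_aQ]
        exact hs
      · have := hL2 m hm
        omega
  refine ⟨Nat.find hex, (Nat.find_spec hex).1, (Nat.find_spec hex).2.1, ?_⟩
  rw [asg_iff]
  refine ⟨valid_tp _, (Nat.find_spec hex).2.2, fun b hb harg => ?_⟩
  rw [len_tp] at hb harg
  rw [pre_tp hb.le]
  by_contra hne
  rw [Bool.not_eq_false] at hne
  refine Nat.find_min hex hb ⟨?_, ?_, hne⟩
  · have := (pa_iff.1 hne).1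
    rwa [len_tp] at this
  · rw [harg]; exact (Nat.find_spec hex).2.1

end Constr

end Pool.Agent.Lib_helper87.D2
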