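import Pool.Agent.Lib_helper87.D2.Suff
import Mathlib.Data.ENat.Lattice

/-!
# Size functions and the structures they define
-/

namespace Pool.Agent.Lib_helper87.D2

open Filter Set

/-- a uniformly computable sequence of nondecreasing approximations of cardinalities -/
structure SizeFn where
  /-- the approximations -/
  n : ℕ → ℕ → ℕ
  comp : Computable₂ n
  mono : ∀ j s, n j s ≤ n j (s + 1)

namespace SizeFn

variable {v : SizeFn}

theorem monotone (v : SizeFn) (j : ℕ) : Monotone (v.n j) := monotone_nat_of_le_succ (v.mono j)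

/-- the limiting cardinality -/
noncomputable def lim (v : SizeFn) (j : ℕ) : ℕ∞ := ⨆ s, (v.n j s : ℕ∞)

/-- how often `c` is the limiting cardinality -/
noncomputable def cnt (v : SizeFn) (c : ℕ∞) : ℕ∞ := {j | v.lim j = c}.encard

theorem le_lim {j s : ℕ} : ((v.n j s : ℕ) : ℕ∞) ≤ v.lim j :=
  le_iSup (fun s => ((v.n j s : ℕ) : ℕ∞)) s

theorem lim_eq_coe {j m : ℕ} : v.lim j = m ↔ ∀ᶠ s in atTop, v.n j s = m := by
  constructor
  · intro h
    have h1 : ∀ s, v.n j s ≤ m := fun s => by
      have h0 := v.le_lim (j := j) (s := s)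
      rw [h] at h0; exact_mod_cast h0
    have h2 : ∃ s, m ≤ v.n j s := by
      by_contra h3
      push Not at h3
      cases m with
      | zero => exact absurd (h3 0) (by omega)
      | succ m =>
        have h4 : v.lim j ≤ (m : ℕ∞) :=
          iSup_le (fun s => by exact_mod_cast Nat.lt_succ_iff.1 (h3 s))
        rw [h] at h4
        have h5 : m + 1 ≤ m := by exact_mod_cast h4
        omega
    obtain ⟨s0, hs0⟩ := h2
    filter_upwards [eventually_ge_atTop s0] with s hs
    exact le_antisymm (h1 s) (hs0.trans (v.monotone j hs))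
  · intro h
    obtain ⟨s0, hs0⟩ := eventually_atTop.1 h
    apply le_antisymm
    · apply iSup_le; intro s
      have h1 : v.n j s ≤ v.n j (max s s0) := v.monotone j (le_max_left _ _)
      rw [hs0 _ (le_max_right _ _)] at h1
      exact_mod_cast h1
    · rw [← hs0 s0 le_rfl]
      exact v.le_lim

theorem lim_eq_top {j : ℕ} : v.lim j = ⊤ ↔ ∀ m, ∀ᶠ s in atTop, m < v.n j s := by
  constructor
  · intro h m
    have h2 : ∃ s, m < v.n j s := by
      by_contra h3
      push Not at h3
      have h4 : v.lim j ≤ (m : ℕ∞) := iSup_le (fun s => by exact_mod_cast h3 s)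
      rw [h] at h4
      exact absurd h4 (by simp)
    obtain ⟨s0, hs0⟩ := h2
    filter_upwards [eventually_ge_atTop s0] with s hs
    exact lt_of_lt_of_le hs0 (v.monotone j hs)
  · intro h
    by_contra hne
    obtain ⟨m, hm⟩ := ENat.ne_top_iff_exists.1 hne
    obtain ⟨s, h1, h2⟩ := ((lim_eq_coe.1 hm.symm).and (h m)).exists
    omega

theorem lim_eq_zero {j : ℕ} : v.lim j = 0 ↔ ∀ s, v.n j s = 0 := by
  constructor
  · intro h s
    have h0 := v.le_lim (j := j) (s := s)
    rw [h] at h0
    have h1 : v.n j s ≤ 0 := by exact_mod_cast h0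
    omega
  · intro h
    exact lim_eq_coe (m := 0) |>.2 (Eventually.of_forall h)

/-- the set of the first `v.lim j` numbers has cardinality `v.lim j` -/
theorem encard_fam (j : ℕ) : {y | ∃ s, y < v.n j s}.encard = v.lim j := by
  by_cases h : v.lim j = ⊤
  · have h1 : {y | ∃ s, y < v.n j s} = Set.univ := by
      ext y
      simp only [mem_ofPred_eq, mem_univ, iff_true]
      exact ((lim_eq_top.1 h) y).exists
    rw [h1, h]
    exact Set.infinite_univ.encard_eq
  · obtain ⟨m, hm⟩ := ENat.ne_top_iff_exists.1 h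
    have h2 := lim_eq_coe.1 hm.symm
    have h1 : {y | ∃ s, y < v.n j s} = (Finset.range m : Set ℕ) := by
      ext y
      simp only [mem_ofPred_eq, Finset.coe_range, Set.mem_Iio]
      constructor
      · rintro ⟨s, hs⟩
        have h0 := v.le_lim (j := j) (s := s)
        rw [← hm] at h0
        have h3 : v.n j s ≤ m := by exact_mod_cast h0
        omega
      · intro hy
        obtain ⟨s, hs⟩ := h2.exists
        exact ⟨s, by omega⟩
    rw [h1, Set.encard_coe_eq_coe_finsetCard, Finset.card_range, hm]

/-- the structure defined by a size function -/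
def InS (v : SizeFn) (x : ℕ) : Prop :=
  x.unpair.2.unpair.1 < v.n x.unpair.1 x.unpair.2.unpair.2 ∧
    ∀ t < x.unpair.2.unpair.2, ¬ x.unpair.2.unpair.1 < v.n x.unpair.1 t

theorem exists_inS_dec (v : SizeFn) : ∃ c : ℕ → Bool, Computable c ∧ ∀ x, c x = true ↔ v.InS x := by
  refine ⟨fun x => decide (x.unpair.2.unpair.1 < v.n x.unpair.1 x.unpair.2.unpair.2) &&
    ball (fun t => !(decide (x.unpair.2.unpair.1 < v.n x.unpair.1 t))) x.unpair.2.unpair.2,
    ?_, ?_⟩
  · have c1 : Computable (fun x : ℕ => x.unpair.1) := Computable.fst.comp Computable.unpair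
    have c2 : Computable (fun x : ℕ => x.unpair.2) := Computable.snd.comp Computable.unpair
    have c21 : Computable (fun x : ℕ => x.unpair.2.unpair.1) := c1.comp c2
    have c22 : Computable (fun x : ℕ => x.unpair.2.unpair.2) := c2.comp c2
    have e1 := computable_decide_lt c21 (Computable₂.comp v.comp c1 c22)
    have e2 := computable_decide_lt (c21.comp (Computable.fst (α := ℕ) (β := ℕ)))
      (Computable₂.comp v.comp (c1.comp (Computable.fst (α := ℕ) (β := ℕ))) Computable.snd)
    have e3 : Computable₂ (fun (x : ℕ) (t : ℕ) => !(decide (x.unpair.2.unpair.1 < v.n x.unpair.1 t))) :=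
      Primrec.not.to_comp.comp e2
    have e4 := computable_ball e3 c22
    exact Computable₂.comp Primrec.and.to_comp e1 e4
  · intro x
    rw [Bool.and_eq_true, ball_eq_true, decide_eq_true_eq]
    unfold InS
    refine and_congr Iff.rfl (forall_congr' (fun t => forall_congr' (fun _ => ?_)))
    simp

/-- the structure defined by a size function: the classes correspond to the `j` with
`v.lim j ≠ 0`, and the `j`-th class has `v.lim j` elements -/
def toStr (v : SizeFn) : CompEqStr where
  carrier := {x | v.InS x}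
  rel x y := v.InS x ∧ v.InS y ∧ x.unpair.1 = y.unpair.1
  carrier_comp := by
    obtain ⟨c, hc, h⟩ := v.exists_inS_dec
    refine ComputablePred.computable_iff.2 ⟨c, hc, ?_⟩
    funext x
    exact propext (h x).symm
  rel_comp := by
    obtain ⟨c, hc, h⟩ := v.exists_inS_dec
    refine ComputablePred.computable_iff.2
      ⟨fun p => c p.1 && (c p.2 && decide (p.1.unpair.1 = p.2.unpair.1)), ?_, ?_⟩
    · refine Computable₂.comp Primrec.and.to_comp (hc.comp Computable.fst)
        (Computable₂.comp Primrec.and.to_comp (hc.comp Computable.snd) ?_)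
      exact computable_decide_eq (Computable.fst.comp (Computable.unpair.comp Computable.fst))
        (Computable.fst.comp (Computable.unpair.comp Computable.snd))
    · funext p
      refine propext ?_
      rw [Bool.and_eq_true, Bool.and_eq_true, h, h, decide_eq_true_eq]
  rel_sub x y h := ⟨h.1, h.2.1⟩
  refl x hx := ⟨hx, hx, rfl⟩
  symm x y h := ⟨h.2.1, h.1, h.2.2.symm⟩
  trans x y z h h' := ⟨h.1, h'.2.1, h.2.2.trans h'.2.2⟩

theorem encard_comp (j : ℕ) : {x | v.InS x ∧ x.unpair.1 = j}.encard = v.lim j := by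
  rw [← encard_fam]
  have hinj : InjOn (fun x : ℕ => x.unpair.2.unpair.1) {x | v.InS x ∧ x.unpair.1 = j} := by
    rintro x ⟨⟨hx1, hx2⟩, hxj⟩ y ⟨⟨hy1, hy2⟩, hyj⟩ h
    simp only at h
    rw [hxj] at hx1 hx2
    rw [hyj, ← h] at hy1 hy2
    have h3 : x.unpair.2.unpair.2 = y.unpair.2.unpair.2 := by
      rcases lt_trichotomy x.unpair.2.unpair.2 y.unpair.2.unpair.2 with h3 | h3 | h3
      · exact absurd hx1 (hy2 _ h3)
      · exact h3
      · exact absurd hy1 (hx2 _ h3)
    have h4 : x.unpair.2 = y.unpair.2 := by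
      rw [← Nat.pair_unpair x.unpair.2, ← Nat.pair_unpair y.unpair.2, h, h3]
    rw [← Nat.pair_unpair x, ← Nat.pair_unpair y, h4, hxj, hyj]
  rw [← hinj.encard_image]
  congr 1
  ext y
  simp only [mem_image, mem_ofPred_eq]
  constructor
  · rintro ⟨x, ⟨⟨hx1, hx2⟩, hxj⟩, rfl⟩
    rw [hxj] at hx1
    exact ⟨_, hx1⟩
  · intro h
    classical
    refine ⟨Nat.pair j (Nat.pair y (Nat.find h)), ⟨?_, by simp⟩, by simp⟩
    refine ⟨?_, ?_⟩
    · simp only [Nat.unpair_pair]
      exact Nat.find_spec h
    · simp only [Nat.unpair_pair]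
      exact fun t ht => Nat.find_min h ht

theorem cls_toStr {x : ℕ} (hx : v.InS x) :
    v.toStr.cls x = {y | v.InS y ∧ y.unpair.1 = x.unpair.1} := by
  ext y
  exact ⟨fun h => ⟨h.2.1, h.2.2.symm⟩, fun h => ⟨hx, h.1, h.2.symm⟩⟩

theorem cls_toStr_encard {x : ℕ} (hx : v.InS x) :
    (v.toStr.cls x).encard = v.lim x.unpair.1 := by
  rw [cls_toStr hx, encard_comp]

theorem classCount_toStr {c : ℕ∞} (hc : c ≠ 0) : classCount v.toStr c = v.cnt c := by
  unfold classCount cnt
  have hinj : InjOn (fun j => {x | v.InS x ∧ x.unpair.1 = j}) {j | v.lim j = c} := by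
    intro i hi j hj h
    simp only at h
    have h1 : {x | v.InS x ∧ x.unpair.1 = i}.encard ≠ 0 := by
      rw [encard_comp]
      have hi' : v.lim i = c := hi
      rw [hi']; exact hc
    rw [Set.encard_ne_zero] at h1
    obtain ⟨x, hx⟩ := h1
    have hx2 := hx
    rw [h] at hx2
    exact hx.2.symm.trans hx2.2
  rw [← hinj.encard_image]
  congr 1
  ext C
  simp only [mem_image, mem_ofPred_eq]
  constructor
  · rintro ⟨⟨x, hx, rfl⟩, hC⟩
    refine ⟨x.unpair.1, ?_, ?_⟩
    · rw [← cls_toStr_encard hx]; exact hC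
    · rw [← cls_toStr hx]; rfl
  · rintro ⟨j, hj, rfl⟩
    have h1 : {x | v.InS x ∧ x.unpair.1 = j}.encard ≠ 0 := by
      rw [encard_comp, hj]; exact hc
    rw [Set.encard_ne_zero] at h1
    obtain ⟨x, hx, hxj⟩ := h1
    refine ⟨⟨x, hx, ?_⟩, ?_⟩
    · have := cls_toStr hx
      rw [hxj] at this
      exact this.symm
    · rw [encard_comp, hj]

/-- disjoint sum -/
def add (v w : SizeFn) : SizeFn where
  n j s := bif decide (j % 2 = 0) then v.n (j / 2) s else w.n (j / 2) s
  comp := by
    have cm : Computable (fun q : ℕ × ℕ => q.1 % 2) :=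
      (Primrec.nat_mod.comp Primrec.fst (Primrec.const 2)).to_comp
    have cd : Computable (fun q : ℕ × ℕ => q.1 / 2) :=
      (Primrec.nat_div.comp Primrec.fst (Primrec.const 2)).to_comp
    refine Computable.cond (computable_decide_eq cm (Computable.const 0)) ?_ ?_
    · exact Computable₂.comp v.comp cd Computable.snd
    · exact Computable₂.comp w.comp cd Computable.snd
  mono j s := by
    cases h : decide (j % 2 = 0)
    · simpa using w.mono _ _
    · simpa using v.mono _ _

variable {w : SizeFn}

theorem add_even (i : ℕ) : (v.add w).lim (2 * i) = v.lim i := by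
  have h1 : 2 * i % 2 = 0 := by omega
  have h2 : 2 * i / 2 = i := by omega
  simp only [lim, add, h1, h2, decide_true, cond_true]

theorem add_odd (i : ℕ) : (v.add w).lim (2 * i + 1) = w.lim i := by
  have h1 : (2 * i + 1) % 2 = 1 := by omega
  have h2 : (2 * i + 1) / 2 = i := by omega
  simp only [lim, add, h1, h2, one_ne_zero, decide_false, cond_false]

theorem cnt_add (c : ℕ∞) : (v.add w).cnt c = v.cnt c + w.cnt c := by
  have i1 : Function.Injective (fun i : ℕ => 2 * i) := fun a b h => by simp only at h; omega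
  have i2 : Function.Injective (fun i : ℕ => 2 * i + 1) := fun a b h => by simp only at h; omega
  unfold cnt
  rw [← i1.encard_image {j | v.lim j = c}, ← i2.encard_image {j | w.lim j = c},
    ← Set.encard_union_eq]
  · congr 1
    ext j
    simp only [mem_ofPred_eq, mem_union, mem_image]
    constructor
    · intro h
      rcases Nat.even_or_odd' j with ⟨i, rfl | rfl⟩
      · exact Or.inl ⟨i, by rwa [add_even] at h, rfl⟩
      · exact Or.inr ⟨i, by rwa [add_odd] at h, rfl⟩
    · rintro (⟨i, h, rfl⟩ | ⟨i, h, rfl⟩)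
      · rwa [add_even]
      · rwa [add_odd]
  · rw [Set.disjoint_left]
    rintro j ⟨a, _, ha⟩ ⟨b, _, hb⟩
    simp only at ha hb
    omega

/-- the filler components: the component `pair q s₀` has size `q.unpair.2` if `g q` is true from
stage `s₀` on, and `s₀` is least with this property; otherwise it is infinite. -/
def fill (g : ℕ → ℕ → Bool) (hg : Computable₂ g) : SizeFn where
  n k s := bif (ball (fun t => decide (t < k.unpair.2) || g k.unpair.1 t) (s + 1) &&
      (decide (k.unpair.2 = 0) || !(g k.unpair.1 (k.unpair.2 - 1))))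
    then k.unpair.1.unpair.2 else k.unpair.1.unpair.2 + s
  comp := by
    have c1 : Computable (fun x : ℕ => x.unpair.1) := Computable.fst.comp Computable.unpair
    have c2 : Computable (fun x : ℕ => x.unpair.2) := Computable.snd.comp Computable.unpair
    have d1 : Computable (fun q : ℕ × ℕ => q.1.unpair.1) := c1.comp Computable.fst
    have d2 : Computable (fun q : ℕ × ℕ => q.1.unpair.2) := c2.comp Computable.fst
    have d12 : Computable (fun q : ℕ × ℕ => q.1.unpair.1.unpair.2) := c2.comp d1
    refine Computable.cond (Computable₂.comp Primrec.and.to_comp ?_ ?_) d12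
      (Computable₂.comp Primrec.nat_add.to_comp d12 Computable.snd)
    · refine computable_ball
        (c := fun (q : ℕ × ℕ) t => decide (t < q.1.unpair.2) || g q.1.unpair.1 t)
        (f := fun q => q.2 + 1) ?_ (Computable.succ.comp Computable.snd)
      refine Computable₂.comp Primrec.or.to_comp
        (computable_decide_lt Computable.snd (d2.comp Computable.fst)) ?_
      exact Computable₂.comp hg (d1.comp Computable.fst) Computable.snd
    · refine Computable₂.comp Primrec.or.to_comp (computable_decide_eq d2 (Computable.const 0)) ?_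
      refine Primrec.not.to_comp.comp (Computable₂.comp hg d1 ?_)
      exact Computable₂.comp Primrec.nat_sub.to_comp d2 (Computable.const 1)
  mono k s := by
    cases h1 : (ball (fun t => decide (t < k.unpair.2) || g k.unpair.1 t) (s + 1) &&
      (decide (k.unpair.2 = 0) || !(g k.unpair.1 (k.unpair.2 - 1)))) <;>
    cases h2 : (ball (fun t => decide (t < k.unpair.2) || g k.unpair.1 t) (s + 1 + 1) &&
      (decide (k.unpair.2 = 0) || !(g k.unpair.1 (k.unpair.2 - 1))))
    · simp only [cond_false]; omega
    · exfalso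
      rw [Bool.and_eq_true, ball_eq_true] at h2
      have h3 : (ball (fun t => decide (t < k.unpair.2) || g k.unpair.1 t) (s + 1) &&
        (decide (k.unpair.2 = 0) || !(g k.unpair.1 (k.unpair.2 - 1)))) = true := by
        rw [Bool.and_eq_true, ball_eq_true]
        exact ⟨fun t ht => h2.1 t (by omega), h2.2⟩
      rw [h1] at h3
      exact absurd h3 (by simp)
    · simp only [cond_false, cond_true]; omega
    · simp only [cond_true]; omega

/-- the filler component `k` is finite -/
def FillFin (g : ℕ → ℕ → Bool) (k : ℕ) : Prop :=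
  (∀ t, k.unpair.2 ≤ t → g k.unpair.1 t = true) ∧
    (k.unpair.2 = 0 ∨ g k.unpair.1 (k.unpair.2 - 1) = false)

theorem lim_fill_of_fin {g : ℕ → ℕ → Bool} {hg : Computable₂ g} {k : ℕ} (h : FillFin g k) :
    (fill g hg).lim k = k.unpair.1.unpair.2 := by
  rw [lim_eq_coe]
  refine Eventually.of_forall (fun s => ?_)
  have h3 : (ball (fun t => decide (t < k.unpair.2) || g k.unpair.1 t) (s + 1) &&
      (decide (k.unpair.2 = 0) || !(g k.unpair.1 (k.unpair.2 - 1)))) = true := by
    rw [Bool.and_eq_true, ball_eq_true]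
    refine ⟨fun t _ => ?_, ?_⟩
    · rcases lt_or_ge t k.unpair.2 with h1 | h1
      · simp [h1]
      · simp [h.1 t h1]
    · rcases h.2 with h1 | h1
      · simp [h1]
      · simp [h1]
  simp only [fill, h3, cond_true]

theorem lim_fill_of_not_fin {g : ℕ → ℕ → Bool} {hg : Computable₂ g} {k : ℕ}
    (h : ¬ FillFin g k) : (fill g hg).lim k = ⊤ := by
  rw [lim_eq_top]
  intro m
  have h3 : ∀ᶠ s in atTop, (ball (fun t => decide (t < k.unpair.2) || g k.unpair.1 t) (s + 1) &&
      (decide (k.unpair.2 = 0) || !(g k.unpair.1 (k.unpair.2 - 1)))) = false := by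
    unfold FillFin at h
    rw [not_and_or] at h
    rcases h with h | h
    · push Not at h
      obtain ⟨t, ht1, ht2⟩ := h
      filter_upwards [eventually_ge_atTop t] with s hs
      rw [← Bool.not_eq_true, Bool.and_eq_true, ball_eq_true]
      rintro ⟨h4, _⟩
      have := h4 t (by omega)
      rw [Bool.or_eq_true, decide_eq_true_eq] at this
      rcases this with h5 | h5
      · omega
      · exact ht2 h5
    · refine Eventually.of_forall (fun s => ?_)
      rw [not_or] at h
      rw [← Bool.not_eq_true, Bool.and_eq_true]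
      rintro ⟨_, h4⟩
      rw [Bool.or_eq_true, decide_eq_true_eq] at h4
      rcases h4 with h5 | h5
      · exact h.1 h5
      · exact h.2 (by simpa using h5)
  filter_upwards [h3, eventually_gt_atTop m] with s hs1 hs2
  simp only [fill, hs1, cond_false]
  omega

theorem lim_fill_eq_top_iff {g : ℕ → ℕ → Bool} {hg : Computable₂ g} {k : ℕ} :
    (fill g hg).lim k = ⊤ ↔ ¬ FillFin g k := by
  refine ⟨fun h1 h2 => ?_, lim_fill_of_not_fin⟩
  rw [lim_fill_of_fin h2] at h1
  exact absurd h1 (by simp)

/-- every approximated predicate which holds gives exactly one finite filler component -/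
theorem cnt_fill {g : ℕ → ℕ → Bool} {hg : Computable₂ g} {p : ℕ → Prop}
    (h : ∀ q, ∀ᶠ s in atTop, (g q s = true ↔ p q)) (c : ℕ) :
    (fill g hg).cnt c = {i | p (Nat.pair i c)}.encard := by
  classical
  -- the stabilisation stage
  have hstab : ∀ q, p q → ∃ s0, ∀ t, s0 ≤ t → g q t = true := by
    intro q hq
    obtain ⟨s0, hs0⟩ := eventually_atTop.1 (h q)
    exact ⟨s0, fun t ht => (hs0 t ht).2 hq⟩
  let F : ℕ → ℕ := fun i => if hp : p (Nat.pair i c) then
    Nat.pair (Nat.pair i c) (Nat.find (hstab _ hp)) else 0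
  have hF : ∀ i, p (Nat.pair i c) → (F i).unpair.1 = Nat.pair i c ∧ FillFin g (F i) := by
    intro i hp
    simp only [F, dif_pos hp, Nat.unpair_pair, true_and]
    unfold FillFin
    simp only [Nat.unpair_pair]
    refine ⟨Nat.find_spec (hstab _ hp), ?_⟩
    by_cases h0 : Nat.find (hstab _ hp) = 0
    · exact Or.inl h0
    · right
      have h1 := Nat.find_min (hstab _ hp) (m := Nat.find (hstab _ hp) - 1) (by omega)
      push Not at h1
      obtain ⟨t, ht1, ht2⟩ := h1
      have h2 : ¬ Nat.find (hstab _ hp) ≤ t := fun h3 => ht2 (Nat.find_spec (hstab _ hp) t h3)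
      have h3 : t = Nat.find (hstab _ hp) - 1 := by omega
      rw [← h3]
      simpa using ht2
  unfold cnt
  have hinj : InjOn F {i | p (Nat.pair i c)} := by
    intro i hi j hj hij
    have h1 := (hF i hi).1
    have h2 := (hF j hj).1
    rw [hij, h2] at h1
    exact (Nat.pair_eq_pair.1 h1).1.symm
  rw [← hinj.encard_image]
  congr 1
  ext k
  simp only [mem_ofPred_eq, mem_image]
  constructor
  · intro hk
    by_cases hfin : FillFin g k
    · rw [lim_fill_of_fin hfin] at hk
      have hk2 : k.unpair.1.unpair.2 = c := by exact_mod_cast hk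
      have hk3 : Nat.pair k.unpair.1.unpair.1 c = k.unpair.1 := by
        rw [← hk2, Nat.pair_unpair]
      have hp : p (Nat.pair k.unpair.1.unpair.1 c) := by
        rw [hk3]
        obtain ⟨s, hs1, hs2⟩ := ((h k.unpair.1).and (eventually_ge_atTop k.unpair.2)).exists
        exact hs1.1 (hfin.1 s hs2)
      refine ⟨k.unpair.1.unpair.1, hp, ?_⟩
      have h1 := hF _ hp
      -- both are finite components with the same first coordinate
      have h2 : ∀ a b : ℕ, FillFin g a → FillFin g b → a.unpair.1 = b.unpair.1 →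
          a.unpair.2 ≤ b.unpair.2 := by
        intro a b ha hb hab
        by_contra hlt
        rcases ha.2 with h3 | h3
        · omega
        · have := hb.1 (a.unpair.2 - 1) (by omega)
          rw [← hab, h3] at this
          exact absurd this (by simp)
      have h3 : (F k.unpair.1.unpair.1).unpair.1 = k.unpair.1 := by rw [h1.1, hk3]
      have h4 := le_antisymm (h2 _ _ h1.2 hfin h3) (h2 _ _ hfin h1.2 h3.symm)
      calc F k.unpair.1.unpair.1 = Nat.pair (F k.unpair.1.unpair.1).unpair.1
            (F k.unpair.1.unpair.1).unpair.2 := (Nat.pair_unpair _).symm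
        _ = Nat.pair k.unpair.1 k.unpair.2 := by rw [h3, h4]
        _ = k := Nat.pair_unpair k
    · rw [lim_fill_of_not_fin hfin] at hk
      exact absurd hk.symm (by simp)
  · rintro ⟨i, hi, rfl⟩
    have h1 := hF i hi
    rw [lim_fill_of_fin h1.2, h1.1, Nat.unpair_pair]

theorem cnt_fill_top {g : ℕ → ℕ → Bool} {hg : Computable₂ g} {p : ℕ → Prop}
    (h : ∀ q, ∀ᶠ s in atTop, (g q s = true ↔ p q)) (h0 : ∃ q, ¬ p q) :
    (fill g hg).cnt ⊤ = ⊤ := by
  unfold cnt
  obtain ⟨q, hq⟩ := h0
  rw [Set.encard_eq_top_iff]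
  have h1 : ∀ s, (fill g hg).lim (Nat.pair q s) = ⊤ := by
    intro s
    rw [lim_fill_eq_top_iff]
    rintro ⟨h2, _⟩
    simp only [Nat.unpair_pair] at h2
    obtain ⟨t, ht1, ht2⟩ := ((h q).and (eventually_ge_atTop s)).exists
    exact hq (ht1.1 (h2 t ht2))
  refine Set.infinite_of_injective_forall_mem (f := fun s => Nat.pair q s) ?_ h1
  intro a b hab
  exact (Nat.pair_eq_pair.1 hab).2

end SizeFn

end Pool.Agent.Lib_helper87.D2
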