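import Pool.Agent.Lib_helper87.D2.EqStr

/-!
# The sufficiency of the condition
-/

namespace Pool.Agent.Lib_helper87.D2

open Filter Set

namespace CompEqStr

variable (A : CompEqStr)

theorem exists_carrier_dec : ∃ c : ℕ → Bool, Computable c ∧ ∀ x, c x = true ↔ x ∈ A.carrier := by
  obtain ⟨c, hc, h⟩ := ComputablePred.computable_iff.1 A.carrier_comp
  exact ⟨c, hc, fun x => by rw [← congrFun h x]⟩

theorem exists_rel_dec : ∃ r : ℕ → ℕ → Bool, Computable₂ r ∧ ∀ x y, r x y = true ↔ A.rel x y := by
  obtain ⟨r, hr, h⟩ := ComputablePred.computable_iff.1 A.rel_comp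
  refine ⟨fun x y => r (x, y), hr.comp (Computable.fst.pair Computable.snd), fun x y => ?_⟩
  have := congrFun h (x, y)
  simp only at this
  rw [← this]

theorem exists_rep_dec : ∃ c : ℕ → Bool, Computable c ∧ ∀ x, c x = true ↔ A.Rep x := by
  obtain ⟨c, hc, h1⟩ := A.exists_carrier_dec
  obtain ⟨r, hr, h2⟩ := A.exists_rel_dec
  refine ⟨fun x => c x && ball (fun i => !(r i x)) x, ?_, fun x => ?_⟩
  · refine Computable₂.comp Primrec.and.to_comp hc ?_
    refine computable_ball (c := fun x i => !(r i x)) (f := fun x => x) ?_ Computable.id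
    exact Primrec.not.to_comp.comp (Computable₂.comp hr Computable.snd Computable.fst)
  · rw [Bool.and_eq_true, h1, ball_eq_true]
    unfold Rep
    refine and_congr Iff.rfl (forall_congr' (fun i => forall_congr' (fun hi => ?_)))
    rw [← h2]
    cases r i x <;> simp

theorem rp_computable : Computable A.rp := by
  obtain ⟨c, hc, h1⟩ := A.exists_carrier_dec
  obtain ⟨r, hr, h2⟩ := A.exists_rel_dec
  have h : Computable (fun x => bif c x then bfind (fun j => r j x) (x + 1) else 0) := by
    refine Computable.cond hc ?_ (Computable.const 0)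
    refine computable_bfind (c := fun x j => r j x) (f := fun x => x + 1) ?_ Computable.succ
    exact Computable₂.comp hr Computable.snd Computable.fst
  refine h.of_eq (fun x => ?_)
  by_cases hx : x ∈ A.carrier
  · rw [(h1 x).2 hx, cond_true]
    apply bfind_eq
    · have h3 : A.rp x ≤ x := by
        classical
        rw [rp, dif_pos hx]
        exact Nat.find_min' _ (A.refl x hx)
      omega
    · rw [h2]; exact rp_rel hx
    · intro m hm
      rw [← Bool.not_eq_true, h2]
      intro h4
      exact (rp_rep hx).2 m hm (A.trans _ _ _ h4 (A.symm _ _ (rp_rel hx)))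
  · have h3 : c x = false := by
      rw [← Bool.not_eq_true, h1]; exact hx
    rw [h3, cond_false]
    classical
    rw [rp, dif_neg hx]

/-- the classes, indexed by their least elements -/
def clsFam (j : ℕ) : Set ℕ := {y | A.Rep j ∧ A.rel j y}

theorem unifCE_clsFam : UnifCE A.clsFam := by
  obtain ⟨c, hc, h1⟩ := A.exists_rep_dec
  obtain ⟨r, hr, h2⟩ := A.exists_rel_dec
  have h : ComputablePred (fun p : ℕ × ℕ => p.2 ∈ A.clsFam p.1) := by
    refine ComputablePred.computable_iff.2 ⟨fun p => c p.1 && r p.1 p.2, ?_, ?_⟩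
    · exact Computable₂.comp Primrec.and.to_comp (hc.comp Computable.fst)
        (Computable₂.comp hr Computable.fst Computable.snd)
    · funext p
      refine propext ?_
      rw [Bool.and_eq_true, h1, h2]
      rfl
  exact h.to_re

variable {A}

theorem clsFam_of_rep {j : ℕ} (hj : A.Rep j) : A.clsFam j = A.cls j := by
  ext y
  exact ⟨fun h => h.2, fun h => ⟨hj, h⟩⟩

theorem clsFam_of_not_rep {j : ℕ} (hj : ¬ A.Rep j) : A.clsFam j = ∅ := by
  ext y
  simp only [mem_empty_iff_false, iff_false]
  exact fun h => hj h.1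

theorem setOf_clsFam {c : ℕ∞} (hc : c ≠ 0) : {j | (A.clsFam j).encard = c} = A.repSet c := by
  ext j
  by_cases hj : A.Rep j
  · simp only [mem_ofPred_eq, clsFam_of_rep hj, repSet, hj, true_and]
  · simp only [mem_ofPred_eq, clsFam_of_not_rep hj, repSet, hj, false_and, iff_false]
    rw [Set.encard_empty]
    exact fun h => hc h.symm

theorem dominated_clsFam {B : CompEqStr} (h : ∀ c ≠ 0, classCount B c = classCount A c) :
    Dominated B.clsFam A := by
  intro c hc
  rw [setOf_clsFam hc, repSet_encard, h c hc]

/-- the classes of `A` which are infinite are recognised in the limit -/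
def InfLim (A : CompEqStr) : Prop := LimP (fun j => (A.cls j).Infinite)

theorem infLim_of_delta2 (h : Delta2 {j | (A.clsFam j).Infinite}) : A.InfLim := by
  obtain ⟨c, hc, h1⟩ := A.exists_carrier_dec
  rw [delta2_iff_limP] at h
  refine ((LimP.of_computable hc h1).and (h.comp_computable A.rp_computable)).of_iff (fun j => ?_)
  by_cases hj : j ∈ A.carrier
  · simp only [hj, true_and, mem_ofPred_eq, clsFam_of_rep (rp_rep hj), cls_eq (rp_rel hj)]
  · simp only [hj, false_and, false_iff]
    intro h2
    obtain ⟨y, hy⟩ := h2.nonempty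
    exact hj (A.rel_sub _ _ hy).1

theorem sz_eq_zero_iff {j : ℕ} (hj : j ∈ A.carrier) : A.sz j = 0 ↔ (A.cls j).Infinite := by
  rw [← Set.encard_eq_top_iff, ← codeCard_sz hj]
  unfold codeCard
  constructor
  · intro h; rw [if_pos h]
  · intro h
    by_contra h2
    rw [if_neg h2] at h
    exact ENat.coe_ne_top _ h

theorem limC_sz (h : A.InfLim) : LimC A.sz := by
  obtain ⟨r, hr, h2⟩ := A.exists_rel_dec
  obtain ⟨g, hg, h3⟩ := h
  refine ⟨fun j s => bif g j s then 0 else bcount (fun y => r j y) s, ?_, fun j => ?_⟩
  · refine Computable.cond hg (Computable.const 0) ?_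
    refine computable_bcount (α := ℕ × ℕ) (c := fun q y => r q.1 y) (f := fun q => q.2) ?_
      Computable.snd
    exact Computable₂.comp hr (Computable.fst.comp Computable.fst) Computable.snd
  · by_cases hinf : (A.cls j).Infinite
    · filter_upwards [h3 j] with s hs
      rw [hs.2 hinf, cond_true]
      unfold sz
      rw [hinf.encard_eq]; rfl
    · rw [Set.not_infinite] at hinf
      obtain ⟨b, hb⟩ := hinf.bddAbove
      filter_upwards [h3 j, eventually_gt_atTop b] with s hs hsb
      have : g j s = false := by
        rw [← Bool.not_eq_true, hs, Set.not_infinite]; exact hinf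
      rw [this, cond_false, bcount_eq]
      unfold sz
      rw [hinf.encard_eq_coe_toFinset_card, ENat.toNat_coe, Nat.count_eq_card_filter_range]
      congr 1
      ext y
      simp only [Finset.mem_filter, Finset.mem_range, Set.Finite.mem_toFinset, h2]
      constructor
      · exact fun h => h.2
      · exact fun h => ⟨lt_of_le_of_lt (hb h) hsb, h⟩

theorem limP_rep : LimP A.Rep := by
  obtain ⟨c, hc, h1⟩ := A.exists_rep_dec
  exact LimP.of_computable hc h1

theorem limP_carrier : LimP (fun x => x ∈ A.carrier) := by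
  obtain ⟨c, hc, h1⟩ := A.exists_carrier_dec
  exact LimP.of_computable hc h1

theorem limC_rank (h : A.InfLim) : LimC A.rank := by
  classical
  have h1 : LimP (fun q : ℕ × ℕ => A.Rep q.2 ∧ A.sz q.2 = A.sz q.1) :=
    (limP_rep.comp_computable Computable.snd).and
      (LimP.eq ((limC_sz h).comp_computable Computable.snd)
        ((limC_sz h).comp_computable Computable.fst))
  refine (LimP.count (f := fun j => j) h1 (LimC.of_computable Computable.id)).of_eq (fun j => ?_)
  unfold rank
  exact count_congr_iff (fun _ => Iff.rfl) _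

theorem limC_pos : LimC A.pos := by
  obtain ⟨r, hr, h2⟩ := A.exists_rel_dec
  have h1 : LimP (fun q : ℕ × ℕ => A.rel q.1 q.2) := LimP.of_computable hr (fun q => h2 q.1 q.2)
  refine (LimP.count (f := fun j => j) h1 (LimC.of_computable Computable.id)).of_eq (fun j => ?_)
  unfold pos
  exact count_congr_iff (fun _ => Iff.rfl) _

variable {B : CompEqStr}

theorem limP_coord (hA : A.InfLim) (hB : B.InfLim) :
    LimP (fun q : ℕ × ℕ => B.coord q.2 = A.coord q.1) := by
  have h1 := LimP.eq
    (((limC_sz hB).comp_computable B.rp_computable).comp_computable (Computable.snd (α := ℕ)))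
    (((limC_sz hA).comp_computable A.rp_computable).comp_computable (Computable.fst (β := ℕ)))
  have h2 := LimP.eq
    (((limC_rank hB).comp_computable B.rp_computable).comp_computable (Computable.snd (α := ℕ)))
    (((limC_rank hA).comp_computable A.rp_computable).comp_computable (Computable.fst (β := ℕ)))
  have h3 := LimP.eq ((limC_pos (A := B)).comp_computable (Computable.snd (α := ℕ)))
    ((limC_pos (A := A)).comp_computable (Computable.fst (β := ℕ)))
  refine (h1.and (h2.and h3)).of_iff (fun q => ?_)
  simp only [coord, Prod.mk.injEq]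

/-- the canonical isomorphism is computable in `0'` -/
theorem exists_isIso_zeroJump (h : ∀ c ≠ 0, classCount A c = classCount B c) (hA : A.InfLim)
    (hB : B.InfLim) : ∃ f, IsIso A B f ∧ ZeroJump f := by
  obtain ⟨f, hf, h1⟩ := exists_isIso h
  refine ⟨f, hf, ?_⟩
  rw [zeroJump_iff_limC]
  have h2 : LimP (fun q : ℕ × ℕ => (q.1 ∈ A.carrier ∧ (q.2 ∈ B.carrier ∧
      B.coord q.2 = A.coord q.1)) ∨ (¬ q.1 ∈ A.carrier ∧ q.2 = 0)) := by
    refine LimP.or ?_ ?_
    · exact (limP_carrier.comp_computable Computable.fst).and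
        ((limP_carrier.comp_computable Computable.snd).and (limP_coord hA hB))
    · exact (limP_carrier.comp_computable Computable.fst).not.and
        (LimP.eq (LimC.of_computable Computable.snd) (LimC.const 0))
  refine LimP.find h2 (fun x => ?_) (fun x m hm => ?_)
  · by_cases hx : x ∈ A.carrier
    · exact Or.inl ⟨hx, (h1 x).1 hx⟩
    · exact Or.inr ⟨hx, (h1 x).2 hx⟩
  · rintro (⟨hx, hm1, hm2⟩ | ⟨hx, hm1⟩)
    · have h3 := (h1 x).1 hx
      have := coord_inj hm1 h3.1 (hm2.trans h3.2.symm)
      omega
    · have h3 := (h1 x).2 hx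
      simp only at hm1
      omega

end CompEqStr

open CompEqStr in
/-- sufficiency -/
theorem delta2Categorical_of {A : CompEqStr}
    (h : ∀ V : ℕ → Set ℕ, UnifCE V → Dominated V A → Delta2 {j | (V j).Infinite}) :
    Delta2Categorical A := by
  rintro B ⟨f, hf⟩
  have h1 : ∀ c ≠ 0, classCount A c = classCount B c := fun c _ => classCount_eq_of_isIso hf c
  refine exists_isIso_zeroJump h1 ?_ ?_
  · exact infLim_of_delta2 (h _ A.unifCE_clsFam (dominated_clsFam (fun _ _ => rfl)))
  · exact infLim_of_delta2 (h _ B.unifCE_clsFam (dominated_clsFam (fun c hc => (h1 c hc).symm)))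

end Pool.Agent.Lib_helper87.D2
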