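import Pool.Agent.Lib_helper87.D2.Good

/-!
# The universal sequence and the normal form of the given predicate
-/

namespace Pool.Agent.Lib_helper87.D2

open Filter Set
open Nat.Partrec (Code)
open Nat.Partrec.Code

/-- bounded evaluation -/
def ev (s c n : ℕ) : Option ℕ := evaln s (Code.ofNatCode c) n

@[fun_prop] theorem PR.ev' {α : Type*} [Primcodable α] {f g h : α → ℕ} (hf : Primrec f)
    (hg : Primrec g) (hh : Primrec h) : Primrec (fun a => ev (f a) (g a) (h a)) := by
  unfold ev
  have h1 : Primrec Code.ofNatCode := by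
    rw [← ofNatCode_eq]; exact Primrec.ofNat Code
  have := primrec_evaln.comp (f := fun a : (ℕ × Code) × ℕ => evaln a.1.1 a.1.2 a.2)
    (g := fun a : α => ((f a, Code.ofNatCode (g a)), h a))
    ((hf.pair (h1.comp hg)).pair hh)
  exact this

@[fun_prop] theorem PR.isSome' {α β : Type*} [Primcodable α] [Primcodable β] {f : α → Option β}
    (hf : Primrec f) : Primrec (fun a => (f a).isSome) := Primrec.option_isSome.comp hf

@[fun_prop] theorem PR.optGetD' {α β : Type*} [Primcodable α] [Primcodable β] {f : α → Option β}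
    {g : α → β} (hf : Primrec f) (hg : Primrec g) : Primrec (fun a => (f a).getD (g a)) :=
  Primrec.option_getD.comp hf hg

/-- the size at stage `s` of the `j`-th set of the `m`-th sequence, for `e = ⟨m, j⟩` -/
def uU (e s : ℕ) : ℕ := bcount (fun x => (ev s e.unpair.1 (Nat.pair e.unpair.2 x)).isSome) s

theorem ev_mono {s s' c n : ℕ} (h : s ≤ s') (h1 : (ev s c n).isSome = true) :
    (ev s' c n).isSome = true := by
  unfold ev at *
  rw [Option.isSome_iff_exists] at *
  obtain ⟨a, ha⟩ := h1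
  exact ⟨a, evaln_mono h ha⟩

theorem uU_eq (e s : ℕ) : uU e s = ((Finset.range s).filter
    (fun x => (ev s e.unpair.1 (Nat.pair e.unpair.2 x)).isSome = true)).card := by
  unfold uU
  rw [bcount_eq, Nat.count_eq_card_filter_range]

theorem uU_mono (e s : ℕ) : uU e s ≤ uU e (s + 1) := by
  rw [uU_eq, uU_eq]
  apply Finset.card_le_card
  intro y hy
  rw [Finset.mem_filter, Finset.mem_range] at hy ⊢
  exact ⟨by omega, ev_mono (by omega) hy.2⟩

theorem uU_primrec : Primrec (fun x : ℕ × ℕ => uU x.1 x.2) := by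
  unfold uU
  fun_prop

/-- a nondecreasing approximation of the cardinality of `V` -/
theorem card_approx {V : Set ℕ} {g : ℕ → ℕ → Prop} (hg : ∀ s s' x, s ≤ s' → g s x → g s' x)
    (hV : ∀ x, x ∈ V ↔ ∃ s, g s x) {f : ℕ → ℕ}
    (hf : ∀ s, (f s : ℕ∞) = {x | x < s ∧ g s x}.encard) :
    ((∀ n, ∀ᶠ s in atTop, n < f s) ↔ V.Infinite) ∧
      ∀ w : ℕ, V.encard = w → ∀ᶠ s in atTop, f s = w := by
  have sub : ∀ s, {x | x < s ∧ g s x} ⊆ V := fun s x hx => (hV x).2 ⟨s, hx.2⟩
  have lb : ∀ T : Finset ℕ, (T : Set ℕ) ⊆ V → ∀ᶠ s in atTop, T.card ≤ f s := by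
    intro T hT
    have h2 : ∀ y ∈ T, ∃ t, g t y := fun y hy => (hV y).1 (hT hy)
    choose! τ hτ using h2
    filter_upwards [eventually_ge_atTop (T.sup τ + T.sup id + 1)] with s hs
    have h5 : ((T.card : ℕ) : ℕ∞) ≤ (f s : ℕ∞) := by
      rw [hf, ← Set.encard_coe_eq_coe_finsetCard]
      apply Set.encard_le_encard
      intro y hy
      have h3 : τ y ≤ T.sup τ := Finset.le_sup hy
      have h4 : y ≤ T.sup id := Finset.le_sup (f := id) hy
      exact ⟨by omega, hg _ _ _ (by omega) (hτ y hy)⟩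
    exact_mod_cast h5
  refine ⟨⟨fun h hfin => ?_, fun hinf n => ?_⟩, fun w hw => ?_⟩
  · obtain ⟨s, hs⟩ := (h hfin.toFinset.card).exists
    have h1 : (f s : ℕ∞) ≤ V.encard := by rw [hf]; exact Set.encard_le_encard (sub s)
    rw [hfin.encard_eq_coe_toFinset_card] at h1
    have h2 : f s ≤ hfin.toFinset.card := by exact_mod_cast h1
    omega
  · obtain ⟨T, hT, hcard⟩ := Set.Infinite.exists_subset_card_eq hinf (n + 1)
    filter_upwards [lb T hT] with s hs
    omega
  · have hfin : V.Finite := by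
      rw [← Set.encard_lt_top_iff, hw]
      exact ENat.coe_lt_top w
    have hc : hfin.toFinset.card = w := by
      rw [hfin.encard_eq_coe_toFinset_card] at hw
      exact_mod_cast hw
    filter_upwards [lb hfin.toFinset (by simp)] with s hs
    have h1 : (f s : ℕ∞) ≤ V.encard := by rw [hf]; exact Set.encard_le_encard (sub s)
    rw [hw] at h1
    have h2 : f s ≤ w := by exact_mod_cast h1
    omega

/-- the `j`-th set of the `m`-th sequence -/
def WU (m j : ℕ) : Set ℕ := {x | ((Code.ofNatCode m).eval (Nat.pair j x)).Dom}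

theorem mem_WU {m j x : ℕ} : x ∈ WU m j ↔ ∃ s, (ev s m (Nat.pair j x)).isSome = true := by
  unfold WU ev
  rw [mem_ofPred_eq]
  constructor
  · intro hd
    obtain ⟨k, hk⟩ := evaln_complete.1 (Part.get_mem hd)
    exact ⟨k, by rw [Option.isSome_iff_exists]; exact ⟨_, hk⟩⟩
  · rintro ⟨s, hs⟩
    rw [Option.isSome_iff_exists] at hs
    obtain ⟨y, hy⟩ := hs
    exact (Part.dom_iff_mem).2 ⟨y, evaln_sound hy⟩

theorem uU_spec (m j : ℕ) : ((∀ n, ∀ᶠ s in atTop, n < uU (Nat.pair m j) s) ↔ (WU m j).Infinite) ∧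
      ∀ w : ℕ, (WU m j).encard = w → ∀ᶠ s in atTop, uU (Nat.pair m j) s = w := by
  refine card_approx (g := fun s x => (ev s m (Nat.pair j x)).isSome = true) ?_ ?_ ?_
  · exact fun s s' x h h1 => ev_mono h h1
  · exact fun x => mem_WU
  · intro s
    rw [uU_eq, ← Set.encard_coe_eq_coe_finsetCard, Nat.unpair_pair]
    congr 1
    ext x
    simp

/-- every uniformly c.e. sequence is one of the `WU m` -/
theorem exists_WU {V : ℕ → Set ℕ} (h : UnifCE V) : ∃ m, ∀ j, WU m j = V j := by
  obtain ⟨c, hc⟩ := Code.exists_code.1 h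
  refine ⟨Encodable.encode c, fun j => ?_⟩
  ext x
  unfold WU
  rw [mem_ofPred_eq]
  have e1 : Code.ofNatCode (Encodable.encode c) = c := by
    rw [← ofNatCode_eq]; exact Denumerable.ofNat_encode c
  rw [e1, hc]
  have e2 : Encodable.decode (α := ℕ × ℕ) (Nat.pair j x) = some (j, x) := by
    have := Encodable.encodek (α := ℕ × ℕ) (j, x)
    exact this
  show (((Encodable.decode (α := ℕ × ℕ) (Nat.pair j x) : Option (ℕ × ℕ)) :
    Part (ℕ × ℕ)).bind fun a => Part.map Encodable.encode
      (Part.assert (a.2 ∈ V a.1) fun _ => Part.some ())).Dom ↔ x ∈ V j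
  rw [e2]
  simp [Part.assert]

/-! ### the normal form -/

/-- the counter for `∀ y, ∃ t, R ⟨⟨v, y⟩, t⟩`, where `c` computes `R` -/
def cnt2 (c v s : ℕ) : ℕ :=
  Nat.rec (motive := fun _ => ℕ) 0 (fun s ih =>
    bif bex (fun t => decide ((ev s c (Nat.pair (Nat.pair v ih) t)).getD 0 = 1)) s then ih + 1
    else ih) s

theorem cnt2_primrec : Primrec (fun x : ℕ × ℕ × ℕ => cnt2 x.1 x.2.1 x.2.2) := by
  unfold cnt2
  fun_prop

@[fun_prop] theorem PR.cnt2' {α : Type*} [Primcodable α] {f g h : α → ℕ} (hf : Primrec f)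
    (hg : Primrec g) (hh : Primrec h) : Primrec (fun a => cnt2 (f a) (g a) (h a)) := by
  have e : Primrec (fun a => (f a, g a, h a)) := by fun_prop
  have h0 := cnt2_primrec.comp e
  exact h0

theorem cnt2_succ (c v s : ℕ) : cnt2 c v (s + 1) =
    bif bex (fun t => decide ((ev s c (Nat.pair (Nat.pair v (cnt2 c v s)) t)).getD 0 = 1)) s then
      cnt2 c v s + 1 else cnt2 c v s := rfl

theorem cnt2_mono (c v s : ℕ) : cnt2 c v s ≤ cnt2 c v (s + 1) := by
  rw [cnt2_succ]
  cases bex (fun t => decide ((ev s c (Nat.pair (Nat.pair v (cnt2 c v s)) t)).getD 0 = 1)) s <;>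
    simp

/-- `c` computes the characteristic function of `R` -/
def Computes (c : ℕ) (R : ℕ → Prop) : Prop :=
  ∀ n, (R n → 1 ∈ (Code.ofNatCode c).eval n) ∧ (¬ R n → 0 ∈ (Code.ofNatCode c).eval n)

theorem computes_iff {c : ℕ} {R : ℕ → Prop} (h : Computes c R) (n : ℕ) :
    R n ↔ ∃ s, (ev s c n).getD 0 = 1 := by
  constructor
  · intro hR
    obtain ⟨s, hs⟩ := evaln_complete.1 ((h n).1 hR)
    refine ⟨s, ?_⟩
    unfold ev
    rw [Option.mem_def.1 hs]; rfl
  · rintro ⟨s, hs⟩
    by_contra hR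
    obtain ⟨s', hs'⟩ := evaln_complete.1 ((h n).2 hR)
    unfold ev at hs
    cases he : evaln s (Code.ofNatCode c) n with
    | none => rw [he] at hs; exact absurd hs (by simp)
    | some a =>
      rw [he] at hs
      have ha : a = 1 := by simpa using hs
      have h1 := evaln_sound (Option.mem_def.2 he)
      have h2 := evaln_sound hs'
      have := Part.mem_unique h1 h2
      omega

theorem ev_one_mono {s s' c n : ℕ} (h : s ≤ s') (h1 : (ev s c n).getD 0 = 1) :
    (ev s' c n).getD 0 = 1 := by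
  unfold ev at *
  cases he : evaln s (Code.ofNatCode c) n with
  | none => rw [he] at h1; exact absurd h1 (by simp)
  | some a =>
    rw [he] at h1
    have ha : a = 1 := by simpa using h1
    rw [Option.mem_def.1 (evaln_mono h (Option.mem_def.2 he)), ha]; rfl

theorem cnt2_inf_iff {c : ℕ} {R : ℕ → Prop} (h : Computes c R) (v : ℕ) :
    (∀ n, ∀ᶠ s in atTop, n < cnt2 c v s) ↔ ∀ y, ∃ t, R (Nat.pair (Nat.pair v y) t) := by
  constructor
  · intro h1 y
    classical
    have hex : ∃ s, y < cnt2 c v s := (h1 y).exists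
    have h2 := Nat.find_spec hex
    obtain ⟨s, hs⟩ : ∃ s, Nat.find hex = s + 1 := by
      cases hf : Nat.find hex with
      | zero => rw [hf] at h2; exact absurd h2 (by simp [cnt2])
      | succ s => exact ⟨s, rfl⟩
    have h3 : ¬ y < cnt2 c v s := Nat.find_min hex (by omega)
    rw [hs, cnt2_succ] at h2
    cases hb : bex (fun t => decide ((ev s c (Nat.pair (Nat.pair v (cnt2 c v s)) t)).getD 0 = 1)) s
    · rw [hb, cond_false] at h2
      exact absurd h2 h3
    · rw [hb, cond_true] at h2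
      have h4 : cnt2 c v s = y := by omega
      rw [bex_eq_true] at hb
      obtain ⟨t, _, ht⟩ := hb
      rw [decide_eq_true_eq, h4] at ht
      exact ⟨t, (computes_iff h _).2 ⟨s, ht⟩⟩
  · intro h1
    rcases mono_cases (f := fun s => cnt2 c v s) (fun s => cnt2_mono c v s) with h2 | ⟨n, h2⟩
    · exact h2
    · exfalso
      obtain ⟨t, ht⟩ := h1 n
      obtain ⟨s0, hs0⟩ := (computes_iff h _).1 ht
      obtain ⟨s, k1, k2, k3, k4⟩ := (h2.and (((tendsto_add_atTop_nat 1).eventually h2).and
        ((eventually_ge_atTop s0).and (eventually_gt_atTop t)))).exists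
      have k1' : cnt2 c v s = n := k1
      have k2' : cnt2 c v (s + 1) = n := k2
      rw [cnt2_succ, k1'] at k2'
      have hb : bex (fun t => decide ((ev s c (Nat.pair (Nat.pair v n) t)).getD 0 = 1)) s = true := by
        rw [bex_eq_true]
        exact ⟨t, k4, by rw [decide_eq_true_eq]; exact ev_one_mono k3 hs0⟩
      rw [hb, cond_true] at k2'
      omega

theorem exists_computes {R : ℕ → Prop} (h : ComputablePred R) : ∃ c, Computes c R := by
  obtain ⟨f, hf, h1⟩ := ComputablePred.computable_iff.1 h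
  have h2 : Computable (fun n => bif f n then 1 else 0) :=
    Computable.cond hf (Computable.const 1) (Computable.const 0)
  have h3 : Nat.Partrec (fun n => Part.some (bif f n then 1 else 0)) := Partrec.nat_iff.1 h2
  obtain ⟨c, hc⟩ := Code.exists_code.1 h3
  refine ⟨Encodable.encode c, fun n => ?_⟩
  have e1 : Code.ofNatCode (Encodable.encode c) = c := by
    rw [← ofNatCode_eq]; exact Denumerable.ofNat_encode c
  rw [e1, hc]
  have h4 : R n ↔ f n = true := by rw [← congrFun h1 n]
  rw [h4]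
  cases hf : f n <;> simp [hf]

end Pool.Agent.Lib_helper87.D2
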