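import Pool.Agent.Lib_helper87.D2.Hard
import Pool.Agent.Lib_helper87.D2.Arith

/-!
# The index set is `Π⁰₅`
-/

namespace Pool.Agent.Lib_helper87.D2

open Filter Set
open Nat.Partrec (Code)
open Nat.Partrec.Code
open CompEqStr (codeCard codeCard_ne_zero)

theorem mem_eval_iff {b d c n : ℕ} (h : d ≠ b) :
    b ∈ (Code.ofNatCode c).eval n ↔ ∃ s, (ev s c n).getD d = b := by
  constructor
  · intro hb
    obtain ⟨k, hk⟩ := evaln_complete.1 hb
    refine ⟨k, ?_⟩
    unfold ev
    rw [Option.mem_def.1 hk]; rfl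
  · rintro ⟨s, hs⟩
    unfold ev at hs
    cases he : evaln s (Code.ofNatCode c) n with
    | none => rw [he] at hs; exact absurd hs h
    | some a =>
      rw [he] at hs
      have ha : a = b := hs
      rw [← ha]
      exact evaln_sound (Option.mem_def.2 he)

theorem hs_mem {b d : ℕ} (h : d ≠ b) :
    HSi 1 (fun q : ℕ × ℕ => b ∈ (Code.ofNatCode q.1).eval q.2) := by
  have h1 : HSi 1 (fun q : (ℕ × ℕ) × ℕ => decide ((ev q.2 q.1.1 q.1.2).getD d = b) = true) :=
    (HSi.of_bool (Primrec.to_comp (by fun_prop))).mono (by omega)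
  refine h1.ex.of_iff (fun q => ?_)
  rw [mem_eval_iff h]
  simp

theorem uU_monotone (e : ℕ) : Monotone (uU e) := monotone_nat_of_le_succ (uU_mono e)

theorem inf_iff_uU {m j : ℕ} : (WU m j).Infinite ↔ ∀ n, ∃ s, n < uU (Nat.pair m j) s := by
  rw [← (uU_spec m j).1]
  constructor
  · exact fun h n => (h n).exists
  · intro h n
    obtain ⟨s0, hs0⟩ := h n
    filter_upwards [eventually_ge_atTop s0] with s hs
    exact lt_of_lt_of_le hs0 (uU_monotone _ hs)

theorem encard_iff_uU {m j c : ℕ} : (WU m j).encard = c ↔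
    (∃ s, uU (Nat.pair m j) s = c) ∧ ∀ s, uU (Nat.pair m j) s ≤ c := by
  constructor
  · intro h
    have h1 := (uU_spec m j).2 c h
    refine ⟨h1.exists, fun s => ?_⟩
    obtain ⟨s', hs1, hs2⟩ := (h1.and (eventually_ge_atTop s)).exists
    rw [← hs1]
    exact uU_monotone _ hs2
  · rintro ⟨⟨s0, hs0⟩, h⟩
    have hfin : (WU m j).Finite := by
      by_contra hinf
      obtain ⟨s, hs⟩ := inf_iff_uU.1 hinf c
      have := h s
      omega
    have h1 := hfin.encard_eq_coe_toFinset_card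
    obtain ⟨s', hs1, hs2⟩ := (((uU_spec m j).2 _ h1).and (eventually_ge_atTop s0)).exists
    have h2 := uU_monotone (Nat.pair m j) hs2
    have h3 := h s'
    rw [h1]
    have h4 : hfin.toFinset.card = c := by omega
    rw [h4]

theorem inf2 : HPi 2 (fun q : ℕ × ℕ => (WU q.1 q.2).Infinite) := by
  have h1 : HSi 1 (fun q : ((ℕ × ℕ) × ℕ) × ℕ =>
      decide (q.1.2 < uU (Nat.pair q.1.1.1 q.1.1.2) q.2) = true) := by
    have hu := uU_primrec
    exact (HSi.of_bool (Primrec.to_comp (by fun_prop))).mono (by omega)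
  refine (h1.ex.toPi.all).of_iff (fun q => ?_)
  rw [inf_iff_uU]
  simp

theorem card2 : HPi 2 (fun q : (ℕ × ℕ) × ℕ => (WU q.1.1 q.1.2).encard = codeCard q.2) := by
  have hu := uU_primrec
  have h0 : HPi 2 (fun q : (ℕ × ℕ) × ℕ => decide (q.2 = 0) = true) :=
    (HPi.of_bool (Primrec.to_comp (by fun_prop))).mono (by omega)
  have h0' : HPi 2 (fun q : (ℕ × ℕ) × ℕ => (!(decide (q.2 = 0))) = true) :=
    (HPi.of_bool (Primrec.to_comp (by fun_prop))).mono (by omega)
  have h1 : HPi 2 (fun q : (ℕ × ℕ) × ℕ => (WU q.1.1 q.1.2).Infinite) :=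
    inf2.comp Computable.fst
  have h2 : HSi 1 (fun q : ((ℕ × ℕ) × ℕ) × ℕ =>
      decide (uU (Nat.pair q.1.1.1 q.1.1.2) q.2 = q.1.2) = true) :=
    (HSi.of_bool (Primrec.to_comp (by fun_prop))).mono (by omega)
  have h3 : HPi 1 (fun q : ((ℕ × ℕ) × ℕ) × ℕ =>
      decide (uU (Nat.pair q.1.1.1 q.1.1.2) q.2 ≤ q.1.2) = true) :=
    (HPi.of_bool (Primrec.to_comp (by fun_prop))).mono (by omega)
  refine ((h0.and h1).or (h0'.and (h2.ex.toPi.and h3.all.succ))).of_iff (fun q => ?_)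
  simp only [decide_eq_true_eq, Bool.not_eq_true', decide_eq_false_iff_not]
  unfold codeCard
  by_cases hq : q.2 = 0
  · simp [hq, Set.encard_eq_top_iff]
  · rw [if_neg hq, encard_iff_uU]
    simp [hq]

/-- the `i`-th element of the list coded by `σ` -/
def el (σ i : ℕ) : ℕ := ((Encodable.decode (α := List ℕ) σ).getD []).getD i 0

@[fun_prop] theorem PR.el' {α : Type*} [Primcodable α] {f g : α → ℕ} (hf : Primrec f)
    (hg : Primrec g) : Primrec (fun a => el (f a) (g a)) := by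
  unfold el
  have h1 : Primrec (fun a => Encodable.decode (α := List ℕ) (f a)) := Primrec.decode.comp hf
  fun_prop

theorem exists_el (f : ℕ → ℕ) (N : ℕ) : ∃ σ, ∀ i < N, el σ i = f i := by
  refine ⟨Encodable.encode ((List.range N).map f), fun i hi => ?_⟩
  unfold el
  rw [Encodable.encodek, Option.getD_some, Constr.getD_map_range, if_pos hi]

theorem le_encard_iff {φ : ℕ → Prop} {r : ℕ} : (r : ℕ∞) ≤ {j | φ j}.encard ↔
    ∃ σ, (∀ i < r, φ (el σ i)) ∧ ∀ i < r, ∀ i' < i, el σ i' ≠ el σ i := by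
  classical
  constructor
  · intro h
    obtain ⟨σ, hσ⟩ := exists_el (Nat.nth φ) r
    have hlt : ∀ i < r, (i : ℕ∞) < {j | φ j}.encard := fun i hi =>
      lt_of_lt_of_le (by exact_mod_cast hi) h
    refine ⟨σ, fun i hi => ?_, fun i hi i' hi' heq => ?_⟩
    · rw [hσ i hi]
      exact nth_mem_of_lt_encard (hlt i hi)
    · rw [hσ i hi, hσ i' (by omega)] at heq
      have h1 := count_nth_of_lt_encard (hlt i hi)
      have h2 := count_nth_of_lt_encard (hlt i' (by omega))
      rw [heq] at h2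
      omega
  · rintro ⟨σ, h1, h2⟩
    have hinj : InjOn (el σ) {i | i < r} := by
      intro i hi i' hi' heq
      rcases lt_trichotomy i i' with h | h | h
      · exact absurd heq (h2 i' hi' i h)
      · exact h
      · exact absurd heq.symm (h2 i hi i' h)
    have h3 : ({i | i < r} : Set ℕ).encard = r := by
      have : {i | i < r} = (Finset.range r : Set ℕ) := by ext; simp
      rw [this, Set.encard_coe_eq_coe_finsetCard, Finset.card_range]
    rw [← h3, ← hinj.encard_image]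
    apply Set.encard_le_encard
    rintro x ⟨i, hi, rfl⟩
    exact h1 i hi

theorem ge3 : HSi 3 (fun q : (ℕ × ℕ) × ℕ =>
    (q.2 : ℕ∞) ≤ {j | (WU q.1.1 j).encard = codeCard q.1.2}.encard) := by
  have e1 : Computable (fun a : (((ℕ × ℕ) × ℕ) × ℕ) × ℕ =>
      ((a.1.1.1.1, el a.1.2 a.2), a.1.1.1.2)) := Primrec.to_comp (by fun_prop)
  have h1 : HPi 2 (fun a : (((ℕ × ℕ) × ℕ) × ℕ) × ℕ =>
      (WU a.1.1.1.1 (el a.1.2 a.2)).encard = codeCard a.1.1.1.2) := card2.comp e1
  have e2 : Computable (fun a : ((ℕ × ℕ) × ℕ) × ℕ => a.1.2) := Primrec.to_comp (by fun_prop)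
  have h2 := h1.ball e2
  have h3 : HPi 2 (fun a : ((ℕ × ℕ) × ℕ) × ℕ =>
      (ball (fun i => ball (fun i' => !(decide (el a.2 i' = el a.2 i))) i) a.1.2) = true) :=
    (HPi.of_bool (Primrec.to_comp (by fun_prop))).mono (by omega)
  refine ((h2.and h3).toSi.ex).of_iff (fun q => ?_)
  rw [le_encard_iff]
  refine exists_congr (fun σ => and_congr Iff.rfl ?_)
  simp [ball_eq_true]

/-- domination between the universal sequences -/
def DomU (m m' : ℕ) : Prop := ∀ c r : ℕ,
  (r : ℕ∞) ≤ {j | (WU m j).encard = codeCard c}.encard →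
    (r : ℕ∞) ≤ {j | (WU m' j).encard = codeCard c}.encard

theorem dom4 : HPi 4 (fun q : ℕ × ℕ => DomU q.1 q.2) := by
  have e1 : Computable (fun a : ((ℕ × ℕ) × ℕ) × ℕ => ((a.1.1.1, a.1.2), a.2)) :=
    Primrec.to_comp (by fun_prop)
  have e2 : Computable (fun a : ((ℕ × ℕ) × ℕ) × ℕ => ((a.1.1.2, a.1.2), a.2)) :=
    Primrec.to_comp (by fun_prop)
  have h1 := ge3.comp e1
  have h2 := ge3.comp e2
  have h3 := (HPi.imp (h1.succ) (h2.toPi)).all.all
  exact h3.of_iff (fun q => Iff.rfl)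

theorem domU_iff {m m' : ℕ} : DomU m m' ↔
    ∀ c : ℕ∞, c ≠ 0 → {j | (WU m j).encard = c}.encard ≤ {j | (WU m' j).encard = c}.encard := by
  constructor
  · intro h c hc
    obtain ⟨k, hk⟩ : ∃ k, codeCard k = c := by
      by_cases hct : c = ⊤
      · exact ⟨0, by rw [hct]; rfl⟩
      · obtain ⟨n, rfl⟩ := ENat.ne_top_iff_exists.1 hct
        exact ⟨n, by unfold codeCard; rw [if_neg (by exact_mod_cast hc)]⟩
    have h1 := h k
    rw [hk] at h1
    by_contra hlt
    rw [not_le] at hlt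
    obtain ⟨b, hb⟩ := ENat.ne_top_iff_exists.1 (ne_top_of_lt hlt)
    have h2 : ((b + 1 : ℕ) : ℕ∞) ≤ {j | (WU m j).encard = c}.encard := by
      rw [← hb] at hlt
      push_cast
      exact Order.add_one_le_of_lt hlt
    have h3 := h1 _ h2
    rw [← hb] at h3
    have h4 : b + 1 ≤ b := by exact_mod_cast h3
    omega
  · intro h c r hr
    exact hr.trans (h _ (codeCard_ne_zero c))

theorem lim4 : HSi 4 (fun m : ℕ => ∃ k, ∀ j, ((WU m j).Infinite ↔ ¬ (WU k j).Infinite)) := by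
  have e1 : Computable (fun a : (ℕ × ℕ) × ℕ => (a.1.1, a.2)) := Primrec.to_comp (by fun_prop)
  have e2 : Computable (fun a : (ℕ × ℕ) × ℕ => (a.1.2, a.2)) := Primrec.to_comp (by fun_prop)
  have h1 := inf2.comp e1
  have h2 := inf2.comp e2
  have h3 : HPi 3 (fun a : (ℕ × ℕ) × ℕ => ¬ (WU a.1.1 a.2).Infinite) := h1.toSi
  have h4 : HPi 3 (fun a : (ℕ × ℕ) × ℕ => ¬ (WU a.1.2 a.2).Infinite) := h2.toSi
  have h5 := ((h3.or h4).and (h2.succ.or h1.succ)).all.toSi.ex
  refine h5.of_iff (fun m => exists_congr (fun k => forall_congr' (fun j => ?_)))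
  tauto

theorem limP_iff_exists {V : ℕ → Set ℕ} (hV : UnifCE V) : Delta2 {j | (V j).Infinite} ↔
    ∃ k, ∀ j, ((V j).Infinite ↔ ¬ (WU k j).Infinite) := by
  rw [delta2_iff_limP]
  constructor
  · rintro ⟨g, hg, hgl⟩
    have hV' : UnifCE (fun z => {s | g z s = false}) := by
      have h1 : ComputablePred (fun q : ℕ × ℕ => q.2 ∈ ({s | g q.1 s = false} : Set ℕ)) := by
        refine ComputablePred.computable_iff.2 ⟨fun q => !(g q.1 q.2), ?_, ?_⟩
        · exact Primrec.not.to_comp.comp hg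
        · funext q
          simp
      exact h1.to_re
    obtain ⟨k, hk⟩ := exists_WU hV'
    refine ⟨k, fun j => ?_⟩
    rw [hk]
    obtain ⟨s0, hs0⟩ := eventually_atTop.1 (hgl j)
    constructor
    · intro hinf
      rw [Set.not_infinite]
      refine (Set.finite_lt_nat s0).subset (fun s hs => ?_)
      by_contra hlt
      have h2 := (hs0 s (not_lt.1 hlt)).2 hinf
      have h3 : g j s = false := hs
      rw [h2] at h3
      exact absurd h3 (by simp)
    · intro hfin
      by_contra hne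
      apply hfin
      refine (Set.infinite_of_not_bddAbove ?_)
      rintro ⟨b, hb⟩
      have h1 : g j (max s0 (b + 1)) = false := by
        have := hs0 (max s0 (b + 1)) (le_max_left _ _)
        rw [← Bool.not_eq_true, this]
        exact hne
      have h2 := hb h1
      omega
  · rintro ⟨k, hk⟩
    obtain ⟨m, hm⟩ := exists_WU hV
    have hu := uU_primrec
    -- both the set and its complement are `Π⁰₂`
    have key : ∀ a j, ¬ (WU a j).Infinite ↔ ∃ n, ∀ t, decide (uU (Nat.pair a j) t ≤ n) = true := by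
      intro a j
      rw [inf_iff_uU]
      simp
    refine LimP.of_sigma_pi (R := fun j n t => decide (uU (Nat.pair k j) t ≤ n))
      (R' := fun j n t => decide (uU (Nat.pair m j) t ≤ n)) ?_ ?_ (fun j => ?_) (fun j => ?_)
    · exact Primrec.to_comp (by fun_prop)
    · exact Primrec.to_comp (by fun_prop)
    · rw [← key, mem_ofPred_eq, hk]
    · rw [← key, mem_ofPred_eq, hm]

/-! ### the structure coded by an index -/

/-- `e` is an index of a computable equivalence structure -/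
def ValidE (e : ℕ) : Prop :=
  (∀ x : ℕ, 1 ∈ (Code.ofNatCode e.unpair.1).eval x ∨ 0 ∈ (Code.ofNatCode e.unpair.1).eval x) ∧
  (∀ x : ℕ, 1 ∈ (Code.ofNatCode e.unpair.2).eval x ∨ 0 ∈ (Code.ofNatCode e.unpair.2).eval x) ∧
  (∀ x : ℕ, 1 ∈ (Code.ofNatCode e.unpair.2).eval x →
    1 ∈ (Code.ofNatCode e.unpair.1).eval x.unpair.1 ∧
    1 ∈ (Code.ofNatCode e.unpair.1).eval x.unpair.2) ∧
  (∀ x : ℕ, 1 ∈ (Code.ofNatCode e.unpair.1).eval x →
    1 ∈ (Code.ofNatCode e.unpair.2).eval (Nat.pair x x)) ∧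
  (∀ x : ℕ, 1 ∈ (Code.ofNatCode e.unpair.2).eval x →
    1 ∈ (Code.ofNatCode e.unpair.2).eval (Nat.pair x.unpair.2 x.unpair.1)) ∧
  (∀ x : ℕ, 1 ∈ (Code.ofNatCode e.unpair.2).eval (Nat.pair x.unpair.1 x.unpair.2.unpair.1) →
    1 ∈ (Code.ofNatCode e.unpair.2).eval (Nat.pair x.unpair.2.unpair.1 x.unpair.2.unpair.2) →
    1 ∈ (Code.ofNatCode e.unpair.2).eval (Nat.pair x.unpair.1 x.unpair.2.unpair.2))

theorem valid2 : HPi 2 ValidE := by
  have v1 := hs_mem (b := 1) (d := 0) (by omega)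
  have v0 := hs_mem (b := 0) (d := 1) (by omega)
  have c1 : ∀ {f g : ℕ × ℕ → ℕ}, Primrec f → Primrec g →
      HSi 1 (fun a : ℕ × ℕ => 1 ∈ (Code.ofNatCode (f a)).eval (g a)) :=
    fun hf hg => v1.comp (Primrec.to_comp (hf.pair hg))
  have c0 : ∀ {f g : ℕ × ℕ → ℕ}, Primrec f → Primrec g →
      HSi 1 (fun a : ℕ × ℕ => 0 ∈ (Code.ofNatCode (f a)).eval (g a)) :=
    fun hf hg => v0.comp (Primrec.to_comp (hf.pair hg))
  have p1 : Primrec (fun a : ℕ × ℕ => a.1.unpair.1) := by fun_prop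
  have p2 : Primrec (fun a : ℕ × ℕ => a.1.unpair.2) := by fun_prop
  have r0 : Primrec (fun a : ℕ × ℕ => a.2) := by fun_prop
  have r1 : Primrec (fun a : ℕ × ℕ => a.2.unpair.1) := by fun_prop
  have r2 : Primrec (fun a : ℕ × ℕ => a.2.unpair.2) := by fun_prop
  have r3 : Primrec (fun a : ℕ × ℕ => Nat.pair a.2 a.2) := by fun_prop
  have r4 : Primrec (fun a : ℕ × ℕ => Nat.pair a.2.unpair.2 a.2.unpair.1) := by fun_prop
  have r5 : Primrec (fun a : ℕ × ℕ => Nat.pair a.2.unpair.1 a.2.unpair.2.unpair.1) := by fun_prop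
  have r6 : Primrec (fun a : ℕ × ℕ => Nat.pair a.2.unpair.2.unpair.1 a.2.unpair.2.unpair.2) := by
    fun_prop
  have r7 : Primrec (fun a : ℕ × ℕ => Nat.pair a.2.unpair.1 a.2.unpair.2.unpair.2) := by fun_prop
  refine HPi.and ?_ (HPi.and ?_ (HPi.and ?_ (HPi.and ?_ (HPi.and ?_ ?_))))
  · exact ((c1 p1 r0).or (c0 p1 r0)).toPi.all
  · exact ((c1 p2 r0).or (c0 p2 r0)).toPi.all
  · exact (HPi.imp (c1 p2 r0).succ ((c1 p1 r1).and (c1 p1 r2)).toPi).all
  · exact (HPi.imp (c1 p1 r0).succ (c1 p2 r3).toPi).all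
  · exact (HPi.imp (c1 p2 r0).succ (c1 p2 r4).toPi).all
  · exact (HPi.imp (c1 p2 r5).succ (HPi.imp (c1 p2 r6).succ (c1 p2 r7).toPi)).all

theorem computablePred_of_eval {α : Type*} [Primcodable α] {c : ℕ} {f : α → ℕ}
    (hf : Computable f)
    (h : ∀ x, 1 ∈ (Code.ofNatCode c).eval x ∨ 0 ∈ (Code.ofNatCode c).eval x) :
    ComputablePred (fun a => 1 ∈ (Code.ofNatCode c).eval (f a)) := by
  classical
  let F : ℕ → ℕ := fun x => if 1 ∈ (Code.ofNatCode c).eval x then 1 else 0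
  have hF : Computable F := by
    have hp : Partrec (Code.ofNatCode c).eval := by
      rw [Partrec.nat_iff]
      exact Code.exists_code.2 ⟨_, rfl⟩
    refine Partrec.of_eq_tot hp (fun x => ?_)
    simp only [F]
    split_ifs with h1
    · exact h1
    · exact (h x).resolve_left h1
  refine computablePred_iff_bool.2 ⟨fun a => decide (F (f a) = 1), ?_, fun a => ?_⟩
  · exact computable_decide_eq (hF.comp hf) (Computable.const 1)
  · simp only [F, decide_eq_true_eq]
    split_ifs with h1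
    · simp [h1]
    · simp [h1]

/-- the structure with index `e` -/
def strV (e : ℕ) (h : ValidE e) : CompEqStr where
  carrier := {x | 1 ∈ (Code.ofNatCode e.unpair.1).eval x}
  rel x y := 1 ∈ (Code.ofNatCode e.unpair.2).eval (Nat.pair x y)
  carrier_comp := computablePred_of_eval Computable.id h.1
  rel_comp := computablePred_of_eval (f := fun q : ℕ × ℕ => Nat.pair q.1 q.2)
    (Primrec₂.natPair.to_comp) h.2.1
  rel_sub x y hxy := by
    have := h.2.2.1 _ hxy
    simpa using this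
  refl x hx := h.2.2.2.1 x hx
  symm x y hxy := by
    have := h.2.2.2.2.1 _ hxy
    simpa using this
  trans x y z hxy hyz := by
    have := h.2.2.2.2.2 (Nat.pair x (Nat.pair y z))
    simp only [Nat.unpair_pair] at this
    exact this hxy hyz

theorem isIndex_strV {e : ℕ} (h : ValidE e) : IsIndex e (strV e h) := by
  refine ⟨fun x => ⟨fun hx => hx, fun hx => (h.1 x).resolve_left hx⟩, fun x y =>
    ⟨fun hx => hx, fun hx => (h.2.1 _).resolve_left hx⟩⟩

theorem one_mem_iff {c x : ℕ} {P : Prop} (h : (P → 1 ∈ (Code.ofNatCode c).eval x) ∧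
    (¬ P → 0 ∈ (Code.ofNatCode c).eval x)) : 1 ∈ (Code.ofNatCode c).eval x ↔ P := by
  constructor
  · intro h1
    by_contra hP
    have := Part.mem_unique h1 (h.2 hP)
    omega
  · exact h.1

theorem zero_mem_iff {c x : ℕ} {P : Prop} (h : (P → 1 ∈ (Code.ofNatCode c).eval x) ∧
    (¬ P → 0 ∈ (Code.ofNatCode c).eval x)) : 0 ∈ (Code.ofNatCode c).eval x ↔ ¬ P := by
  constructor
  · intro h1 hP
    have := Part.mem_unique h1 (h.1 hP)
    omega
  · exact h.2

theorem validE_of_isIndex {e : ℕ} {A : CompEqStr} (h : IsIndex e A) : ValidE e := by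
  have k1 : ∀ x, 1 ∈ (Code.ofNatCode e.unpair.1).eval x ↔ x ∈ A.carrier :=
    fun x => one_mem_iff (h.1 x)
  have k2 : ∀ x y, 1 ∈ (Code.ofNatCode e.unpair.2).eval (Nat.pair x y) ↔ A.rel x y :=
    fun x y => one_mem_iff (h.2 x y)
  have k3 : ∀ x, 1 ∈ (Code.ofNatCode e.unpair.2).eval x ↔ A.rel x.unpair.1 x.unpair.2 := by
    intro x
    have := k2 x.unpair.1 x.unpair.2
    rwa [Nat.pair_unpair] at this
  refine ⟨fun x => ?_, fun x => ?_, fun x => ?_, fun x => ?_, fun x => ?_, fun x => ?_⟩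
  · by_cases hx : x ∈ A.carrier
    · exact Or.inl ((h.1 x).1 hx)
    · exact Or.inr ((h.1 x).2 hx)
  · have h2 := h.2 x.unpair.1 x.unpair.2
    rw [Nat.pair_unpair] at h2
    by_cases hx : A.rel x.unpair.1 x.unpair.2
    · exact Or.inl (h2.1 hx)
    · exact Or.inr (h2.2 hx)
  · rw [k3, k1, k1]
    exact A.rel_sub _ _
  · rw [k1, k2]
    exact A.refl x
  · rw [k3, k2]
    exact A.symm _ _
  · rw [k2, k2, k2]
    exact A.trans _ _ _

/-- a uniformly c.e. sequence with the classes of the structure with index `e` -/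
def tst (e n s : ℕ) : Bool :=
  decide ((ev s e.unpair.2 n).getD 0 = 1) && (decide ((ev s e.unpair.1 n.unpair.1).getD 0 = 1) &&
    ball (fun i' => decide ((ev s e.unpair.2 (Nat.pair i' n.unpair.1)).getD 1 = 0)) n.unpair.1)

theorem ev_getD_mono {s s' c n b d : ℕ} (hd : d ≠ b) (h : s ≤ s') (h1 : (ev s c n).getD d = b) :
    (ev s' c n).getD d = b := by
  unfold ev at *
  cases he : evaln s (Code.ofNatCode c) n with
  | none => rw [he] at h1; exact absurd h1 hd
  | some a =>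
    rw [he] at h1
    have ha : a = b := h1
    rw [Option.mem_def.1 (evaln_mono h (Option.mem_def.2 he)), ha]; rfl

theorem tst_iff {e : ℕ} {A : CompEqStr} (h : IsIndex e A) (i y : ℕ) :
    (∃ s, tst e (Nat.pair i y) s = true) ↔ y ∈ A.clsFam i := by
  have k1 : ∀ x, (∃ s, (ev s e.unpair.1 x).getD 0 = 1) ↔ x ∈ A.carrier := by
    intro x
    rw [← mem_eval_iff (by omega)]
    exact one_mem_iff (h.1 x)
  have k2 : ∀ x y, (∃ s, (ev s e.unpair.2 (Nat.pair x y)).getD 0 = 1) ↔ A.rel x y := by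
    intro x y
    rw [← mem_eval_iff (by omega)]
    exact one_mem_iff (h.2 x y)
  have k3 : ∀ x y, (∃ s, (ev s e.unpair.2 (Nat.pair x y)).getD 1 = 0) ↔ ¬ A.rel x y := by
    intro x y
    rw [← mem_eval_iff (by omega)]
    exact zero_mem_iff (h.2 x y)
  have hmem : y ∈ A.clsFam i ↔ A.rel i y ∧ i ∈ A.carrier ∧ ∀ i' < i, ¬ A.rel i' i := by
    show (A.Rep i ∧ A.rel i y) ↔ _
    unfold CompEqStr.Rep
    tauto
  rw [hmem]
  unfold tst
  simp only [Nat.unpair_pair, Bool.and_eq_true, decide_eq_true_eq, ball_eq_true]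
  constructor
  · rintro ⟨s, h1, h2, h3⟩
    exact ⟨(k2 _ _).1 ⟨s, h1⟩, (k1 _).1 ⟨s, h2⟩, fun i' hi' => (k3 _ _).1 ⟨s, h3 i' hi'⟩⟩
  · rintro ⟨h1, h2, h3⟩
    obtain ⟨s1, hs1⟩ := (k2 _ _).2 h1
    obtain ⟨s2, hs2⟩ := (k1 _).2 h2
    have h3' : ∀ i' < i, ∀ᶠ s in atTop, (ev s e.unpair.2 (Nat.pair i' i)).getD 1 = 0 := by
      intro i' hi'
      obtain ⟨s3, hs3⟩ := (k3 _ _).2 (h3 i' hi')
      filter_upwards [eventually_ge_atTop s3] with s hs
      exact ev_getD_mono (by omega) hs hs3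
    obtain ⟨s, hs, hs', hs''⟩ := ((eventually_all_lt h3').and
      ((eventually_ge_atTop s1).and (eventually_ge_atTop s2))).exists
    exact ⟨s, ev_getD_mono (by omega) hs' hs1, ev_getD_mono (by omega) hs'' hs2, hs⟩

theorem tst_comp : Computable₂ (fun n s : ℕ => tst n.unpair.1 n.unpair.2 s) := by
  have h0 : Primrec (fun q : ℕ × ℕ => tst q.1.unpair.1 q.1.unpair.2 q.2) := by
    unfold tst
    fun_prop
  exact h0.to_comp

theorem rfind_comp {g : ℕ → ℕ → Bool} (hg : Computable₂ g) :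
    Partrec (fun n : ℕ => Nat.rfind (fun s => Part.some (g n s))) :=
  Partrec.rfind (p := fun n s => Part.some (g n s)) hg.partrec₂

theorem rfind_some_dom {g : ℕ → Bool} :
    (Nat.rfind (fun s => Part.some (g s))).Dom ↔ ∃ s, g s = true := by
  refine Iff.trans Nat.rfind_dom ?_
  constructor
  · rintro ⟨n, hn, _⟩
    exact ⟨n, (Part.mem_some_iff.1 hn).symm⟩
  · rintro ⟨s, hs⟩
    exact ⟨s, Part.mem_some_iff.2 hs.symm, fun _ => trivial⟩

/-- `s-m-n` for computably enumerable sets -/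
theorem exists_smn_re {g : ℕ → ℕ → Bool} (hg : Computable₂ g) : ∃ κ : ℕ → ℕ, Computable κ ∧
    ∀ e n, ((Code.ofNatCode (κ e)).eval n).Dom ↔ ∃ s, g (Nat.pair e n) s = true := by
  obtain ⟨c, hc⟩ := Code.exists_code.1 (Partrec.nat_iff.1 (rfind_comp hg))
  refine ⟨fun e => Encodable.encode (curry c e), ?_, fun e n => ?_⟩
  · exact (Primrec.encode.comp (primrec₂_curry.comp (Primrec.const c) Primrec.id)).to_comp
  · have e1 : Code.ofNatCode (Encodable.encode (curry c e)) = curry c e := by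
      rw [← ofNatCode_eq]; exact Denumerable.ofNat_encode _
    rw [e1, eval_curry, hc, rfind_some_dom]

theorem exists_kappa : ∃ κ : ℕ → ℕ, Computable κ ∧
    ∀ e A, IsIndex e A → ∀ i, WU (κ e) i = A.clsFam i := by
  obtain ⟨κ, h1, h2⟩ := exists_smn_re tst_comp
  refine ⟨κ, h1, fun e A hA i => ?_⟩
  ext y
  rw [← tst_iff hA]
  unfold WU
  rw [mem_ofPred_eq, h2]
  simp only [Nat.unpair_pair]

/-- the upper bound -/
theorem isPi_catIndex : IsPi 5 CatIndex := by
  obtain ⟨κ, hκ, hκ2⟩ := exists_kappa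
  have e1 : Computable (fun a : ℕ × ℕ => (a.2, κ a.1)) :=
    Computable.snd.pair (hκ.comp Computable.fst)
  have h1 : HPi 5 (fun a : ℕ × ℕ => ¬ DomU a.2 (κ a.1)) := (dom4.comp e1).toSi
  have h2 : HPi 5 (fun a : ℕ × ℕ =>
      ∃ k, ∀ j, ((WU a.2 j).Infinite ↔ ¬ (WU k j).Infinite)) := (lim4.comp Computable.snd).toPi
  have h3 := (valid2.mono (show 2 ≤ 5 by omega)).and ((h1.or h2).all)
  refine (h3.of_iff (fun e => ?_)).isPi
  have key : ∀ A, IsIndex e A → (Delta2Categorical A ↔ ∀ m, ¬ DomU m (κ e) ∨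
      ∃ k, ∀ j, ((WU m j).Infinite ↔ ¬ (WU k j).Infinite)) := by
    intro A hA
    have hdom : ∀ m, DomU m (κ e) ↔ Dominated (WU m) A := by
      intro m
      rw [domU_iff]
      refine forall_congr' (fun c => forall_congr' (fun hc => ?_))
      have : {j | (WU (κ e) j).encard = c} = A.repSet c := by
        rw [← CompEqStr.setOf_clsFam hc]
        ext j
        rw [mem_ofPred_eq, mem_ofPred_eq, hκ2 e A hA]
      rw [this, CompEqStr.repSet_encard]
    have hUCE : ∀ m, UnifCE (WU m) := by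
      intro m
      have h4 : Partrec (fun q : ℕ × ℕ => (Code.ofNatCode m).eval (Nat.pair q.1 q.2)) := by
        have hp : Partrec (Code.ofNatCode m).eval := by
          rw [Partrec.nat_iff]
          exact Code.exists_code.2 ⟨_, rfl⟩
        exact hp.comp Primrec₂.natPair.to_comp
      exact h4.dom_re
    rw [delta2Categorical_iff]
    constructor
    · intro h m
      by_cases hd : DomU m (κ e)
      · right
        exact (limP_iff_exists (hUCE m)).1 (h _ (hUCE m) ((hdom m).1 hd))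
      · exact Or.inl hd
    · intro h V hV hd
      obtain ⟨m, hm⟩ := exists_WU hV
      have hVm : V = WU m := funext (fun j => (hm j).symm)
      rw [hVm] at hd ⊢
      rcases h m with h5 | h5
      · exact absurd ((hdom m).2 hd) h5
      · exact (limP_iff_exists (hUCE m)).2 h5
  constructor
  · rintro ⟨hval, h⟩
    exact ⟨strV e hval, isIndex_strV hval, (key _ (isIndex_strV hval)).2 h⟩
  · rintro ⟨A, hA, hcat⟩
    exact ⟨validE_of_isIndex hA, (key A hA).1 hcat⟩

/-- the index set is `Π⁰₅`-complete -/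
theorem piComplete_catIndex : PiComplete 5 CatIndex :=
  ⟨isPi_catIndex, fun _ hQ => hard hQ⟩

end Pool.Agent.Lib_helper87.D2
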