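import Pool.Agent.Lib_helper87.D2.Constr

/-!
# Verification of the construction: basic lemmas
-/

namespace Pool.Agent.Lib_helper87.D2

open Filter

/-! ### monotone sequences -/

theorem mono_cases {f : ℕ → ℕ} (hf : ∀ s, f s ≤ f (s + 1)) :
    (∀ n, ∀ᶠ s in atTop, n < f s) ∨ (∃ n, ∀ᶠ s in atTop, f s = n) := by
  have hm : Monotone f := monotone_nat_of_le_succ hf
  by_cases h : ∀ n, ∃ s, n < f s
  · left
    intro n
    obtain ⟨s0, h0⟩ := h n
    filter_upwards [eventually_ge_atTop s0] with s hs
    exact lt_of_lt_of_le h0 (hm hs)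
  · right
    push Not at h
    obtain ⟨n, hn⟩ := h
    -- the maximum
    classical
    have hex : ∃ k, ∀ s, f s ≤ k := ⟨n, hn⟩
    obtain ⟨hk⟩ : Nonempty (∀ s, f s ≤ Nat.find hex) := ⟨Nat.find_spec hex⟩
    have : ∃ s, f s = Nat.find hex := by
      by_contra hne
      push Not at hne
      rcases Nat.eq_zero_or_pos (Nat.find hex) with h0 | h0
      · have := hk 0
        exact hne 0 (by omega)
      · refine Nat.find_min hex (m := Nat.find hex - 1) (by omega) (fun s => ?_)
        have h1 := hk s
        have h2 := hne s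
        omega
    obtain ⟨s0, hs0⟩ := this
    refine ⟨Nat.find hex, ?_⟩
    filter_upwards [eventually_ge_atTop s0] with s hs
    exact le_antisymm (hk s) (hs0 ▸ hm hs)

theorem eventually_const_of_eventually_eq {f : ℕ → ℕ}
    (h : ∀ᶠ s in atTop, f s = f (s + 1)) : ∃ n, ∀ᶠ s in atTop, f s = n := by
  obtain ⟨s0, hs0⟩ := eventually_atTop.1 h
  refine ⟨f s0, ?_⟩
  filter_upwards [eventually_ge_atTop s0] with s hs
  induction s, hs using Nat.le_induction with
  | base => rfl
  | succ s hs ih => rw [← hs0 s hs, ih]

theorem not_both {f : ℕ → ℕ} (h1 : ∀ n, ∀ᶠ s in atTop, n < f s) {n : ℕ}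
    (h2 : ∃ᶠ s in atTop, f s ≤ n) : False := by
  obtain ⟨s, hs1, hs2⟩ := (h2.and_eventually (h1 n)).exists
  omega

/-- eventually constant boolean sequences -/
def EvC (b : ℕ → Bool) : Prop := ∃ x, ∀ᶠ s in atTop, b s = x

theorem EvC.cases {b : ℕ → Bool} (h : EvC b) :
    (∀ᶠ s in atTop, b s = true) ∨ (∀ᶠ s in atTop, b s = false) := by
  obtain ⟨x, hx⟩ := h
  cases x
  · exact Or.inr hx
  · exact Or.inl hx

theorem EvC.congr {b b' : ℕ → Bool} (h : EvC b) (h' : ∀ᶠ s in atTop, b' s = b s) : EvC b' := by
  obtain ⟨x, hx⟩ := h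
  refine ⟨x, ?_⟩
  filter_upwards [hx, h'] with s h1 h2
  rw [h2, h1]

theorem EvC.const (x : Bool) : EvC (fun _ => x) := ⟨x, Eventually.of_forall (fun _ => rfl)⟩

theorem EvC.and {b c : ℕ → Bool} (h : EvC b) (h' : EvC c) : EvC (fun s => b s && c s) := by
  obtain ⟨x, hx⟩ := h
  obtain ⟨y, hy⟩ := h'
  refine ⟨x && y, ?_⟩
  filter_upwards [hx, hy] with s h1 h2
  rw [h1, h2]

theorem EvC.or {b c : ℕ → Bool} (h : EvC b) (h' : EvC c) : EvC (fun s => b s || c s) := by
  obtain ⟨x, hx⟩ := h
  obtain ⟨y, hy⟩ := h'
  refine ⟨x || y, ?_⟩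
  filter_upwards [hx, hy] with s h1 h2
  rw [h1, h2]

theorem EvC.not {b : ℕ → Bool} (h : EvC b) : EvC (fun s => !(b s)) := by
  obtain ⟨x, hx⟩ := h
  refine ⟨!x, ?_⟩
  filter_upwards [hx] with s h1
  rw [h1]

theorem EvC.ball {b : ℕ → ℕ → Bool} {n : ℕ} (h : ∀ j < n, EvC (fun s => b s j)) :
    EvC (fun s => D2.ball (b s) n) := by
  by_cases h1 : ∀ j < n, ∀ᶠ s in atTop, b s j = true
  · refine ⟨true, ?_⟩
    filter_upwards [eventually_all_lt h1] with s hs
    rw [ball_eq_true]
    exact hs
  · simp only [not_forall] at h1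
    obtain ⟨j, hj, h2⟩ := h1
    refine ⟨false, ?_⟩
    rcases (h j hj).cases with h3 | h3
    · exact absurd h3 h2
    · filter_upwards [h3] with s hs
      rw [← Bool.not_eq_true, ball_eq_true]
      intro h4
      rw [h4 j hj] at hs
      exact absurd hs (by simp)

theorem EvC.bex {b : ℕ → ℕ → Bool} {n : ℕ} (h : ∀ j < n, EvC (fun s => b s j)) :
    EvC (fun s => D2.bex (b s) n) := by
  unfold D2.bex
  exact (EvC.ball (fun j hj => (h j hj).not)).not

theorem EvC.lt {f : ℕ → ℕ} (hf : ∀ s, f s ≤ f (s + 1)) (n : ℕ) :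
    EvC (fun s => decide (n < f s)) := by
  rcases mono_cases hf with h | ⟨m, h⟩
  · refine ⟨true, ?_⟩
    filter_upwards [h n] with s hs
    simpa using hs
  · refine ⟨decide (n < m), ?_⟩
    filter_upwards [h] with s hs
    rw [hs]

theorem EvC.eq {f : ℕ → ℕ} (hf : ∀ s, f s ≤ f (s + 1)) (n : ℕ) :
    EvC (fun s => decide (f s = n)) := by
  rcases mono_cases hf with h | ⟨m, h⟩
  · refine ⟨false, ?_⟩
    filter_upwards [h n] with s hs
    simp only [decide_eq_false_iff_not]
    omega
  · refine ⟨decide (m = n), ?_⟩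
    filter_upwards [h] with s hs
    rw [hs]

namespace Constr

open Tree

theorem typ_aC (e : ℕ) : typ (aC e) = 0 := by simp [typ, aC]
theorem arg_aC (e : ℕ) : arg (aC e) = e := by simp [arg, aC]
theorem typ_aQ (e : ℕ) : typ (aQ e) = 1 := by
  simp only [typ, aQ, Nat.unpair_pair]; omega
theorem arg_aQ (e : ℕ) : arg (aQ e) = e := by
  simp only [arg, aQ, Nat.unpair_pair]; omega
theorem typ_aG (e : ℕ) : typ (aG e) = 2 := by
  simp only [typ, aG, Nat.unpair_pair]; omega
theorem arg_aG (e : ℕ) : arg (aG e) = e := by
  simp only [arg, aG, Nat.unpair_pair]; omega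

theorem iltb_iff {c d : ℕ} : iltb c d = true ↔ ilt c d := by
  unfold iltb ilt; simp

theorem le_aQ (i k x : ℕ) : x ≤ aQ (Nat.pair i (Nat.pair k x)) := by
  unfold aQ
  have h1 := Nat.right_le_pair k x
  have h2 := Nat.right_le_pair i (Nat.pair k x)
  have h3 := Nat.left_le_pair (4 * Nat.pair i (Nat.pair k x) + 1) 0
  omega

theorem pa_iff {c : ℕ} : pa c = true ↔ typ (len c) = 3 ∧
    (∀ k' < gk c, ∃ x, aQ (Nat.pair (gi c) (Nat.pair k' x)) < len c ∧
      inf c (aQ (Nat.pair (gi c) (Nat.pair k' x))) = true) ∧ ∀ m < gi c, aG m < len c := by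
  unfold pa
  simp only [Bool.and_eq_true, ball_eq_true, bex_eq_true, decide_eq_true_eq]
  refine and_congr Iff.rfl (and_congr (forall_congr' (fun k' => forall_congr' (fun _ => ?_)))
    Iff.rfl)
  constructor
  · rintro ⟨x, _, h⟩; exact ⟨x, h⟩
  · rintro ⟨x, h⟩
    have := le_aQ (gi c) k' x
    exact ⟨x, by omega, h⟩

theorem asg_iff {c : ℕ} : asg c = true ↔ Valid c ∧ pa c = true ∧
    ∀ b < len c, arg b = arg (len c) → pa (pre c b) = false := by
  unfold asg Valid
  simp only [Bool.and_eq_true, ball_eq_true, decide_eq_true_eq, Bool.not_eq_true',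
    Bool.and_eq_false_iff, decide_eq_false_iff_not]
  refine and_congr Iff.rfl (and_congr Iff.rfl
    (forall_congr' (fun b => forall_congr' (fun _ => ?_))))
  tauto

variable (E : Env) (p : ℕ)

/-- the pebble of `c` is placed at stage `s` -/
def dd (s c : ℕ) : Bool := (rc (st E p s) c).1
/-- coordinate of `c` at stage `s` -/
def yy (s c : ℕ) : ℕ := (rc (st E p s) c).2.1
/-- version of `c` at stage `s` -/
def vv (s c : ℕ) : ℕ := (rc (st E p s) c).2.2
/-- counter of `m` at stage `s` -/
def gg (s m : ℕ) : ℕ := gt (st E p s) m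
/-- `c` wants to move at stage `s` -/
def WW (s c : ℕ) : Bool := wanting E (st E p s) s c
/-- the node `τ` acts at stage `s` -/
def TT (s τ : ℕ) : Bool := tick E p (st E p s) s τ
/-- the counter of the node `τ` at stage `s` -/
def CC (s τ : ℕ) : ℕ := cv E p (st E p s) s τ
/-- the approximation at stage `s` -/
def XS (s w : ℕ) : Bool := xs E (st E p s) s w
/-- `c` is reset at stage `s` -/
def RS (s c : ℕ) : Bool := reset E p (st E p s) s c
/-- `c` is blocked at stage `s` -/
def BB (s c : ℕ) : Bool := blocked E (st E p s) s c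
/-- stage `s` is expansionary for `m` -/
def EE (s m : ℕ) : Bool := expand E (st E p s) s m

variable {E p}

theorem getD_map_range {β : Type*} (f : ℕ → β) (n c : ℕ) (d : β) :
    ((List.range n).map f).getD c d = if c < n then f c else d := by
  rw [List.getD_eq_getElem?_getD, List.getElem?_map]
  by_cases h : c < n
  · simp [h]
  · simp [h]

theorem rc_zero (c : ℕ) : rc (st E p 0) c = init := by
  simp [rc, st]

theorem rc_succ (s c : ℕ) : rc (st E p (s + 1)) c =
    if c < s + 1 then updR E p (st E p s) s c else init := by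
  have : (st E p (s + 1)).1 = (List.range (s + 1)).map (fun c => updR E p (st E p s) s c) := rfl
  unfold rc
  rw [this, getD_map_range]

theorem rc_ge {s c : ℕ} (h : s ≤ c) : rc (st E p s) c = init := by
  cases s with
  | zero => exact rc_zero c
  | succ s => rw [rc_succ, if_neg (by omega)]

theorem gg_zero (m : ℕ) : gg E p 0 m = 0 := by
  simp [gg, gt, st]

theorem gg_succ (s m : ℕ) : gg E p (s + 1) m =
    if m < s + 1 then updG E (st E p s) s m else 0 := by
  have : (st E p (s + 1)).2 = (List.range (s + 1)).map (fun m => updG E (st E p s) s m) := rfl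
  unfold gg gt
  rw [this, getD_map_range]

theorem gg_ge {s m : ℕ} (h : s ≤ m) : gg E p s m = 0 := by
  cases s with
  | zero => exact gg_zero m
  | succ s => rw [gg_succ, if_neg (by omega)]

theorem gg_step (s m : ℕ) : gg E p (s + 1) m =
    if m < s + 1 ∧ EE E p s m = true then gg E p s m + 1 else gg E p s m := by
  rw [gg_succ]
  by_cases h : m < s + 1
  · rw [if_pos h]
    unfold updG
    have h1 : EE E p s m = expand E (st E p s) s m := rfl
    have h2 : gg E p s m = gt (st E p s) m := rfl
    rw [← h1, ← h2]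
    cases h3 : EE E p s m
    · simp
    · simp [h]
  · rw [if_neg h, if_neg (fun h1 => h h1.1), gg_ge (by omega)]

theorem gg_mono (s m : ℕ) : gg E p s m ≤ gg E p (s + 1) m := by
  rw [gg_step]; split_ifs <;> omega

/-- what can happen to a record -/
theorem step (s c : ℕ) :
    (rc (st E p (s + 1)) c = rc (st E p s) c ∧
      (c < s + 1 → asg c = true → RS E p s c = false)) ∨
    (asg c = true ∧ RS E p s c = true ∧ dd E p (s + 1) c = false ∧
      yy E p (s + 1) c = yy E p s c ∧
      vv E p (s + 1) c = if dd E p s c = true then vv E p s c + 1 else vv E p s c) ∨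
    (asg c = true ∧ RS E p s c = false ∧ WW E p s c = true ∧ dd E p (s + 1) c = true ∧
      vv E p (s + 1) c = vv E p s c ∧ yy E p s c < yy E p (s + 1) c ∧
      mok E p (st E p s) s c (yy E p (s + 1) c) = true) := by
  by_cases hc : c < s + 1
  · have hr := rc_succ (E := E) (p := p) s c
    rw [if_pos hc] at hr
    unfold updR at hr
    cases hasg : asg c
    · left
      rw [hasg, cond_false] at hr
      exact ⟨hr, fun _ h => absurd h (by simp)⟩
    · rw [hasg, cond_true] at hr
      cases hrs : reset E p (st E p s) s c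
      · rw [hrs, cond_false] at hr
        cases hw : (wanting E (st E p s) s c &&
          decide (fnd E p (st E p s) s c < len c + 1))
        · left
          rw [hw, cond_false] at hr
          exact ⟨hr, fun _ _ => hrs⟩
        · right; right
          rw [hw, cond_true] at hr
          rw [Bool.and_eq_true, decide_eq_true_eq] at hw
          have e1 : dd E p (s + 1) c = true := by unfold dd; rw [hr]
          have e2 : vv E p (s + 1) c = vv E p s c := by unfold vv; rw [hr]
          have e3 : yy E p (s + 1) c = yy E p s c + 1 + fnd E p (st E p s) s c := by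
            unfold yy; rw [hr]
          refine ⟨rfl, hrs, hw.1, e1, e2, by omega, ?_⟩
          rw [e3]
          exact (bfind_spec (c := fun t => mok E p (st E p s) s c ((rc (st E p s) c).2.1 + 1 + t))
            (s := len c + 1)).2 hw.2
      · right; left
        rw [hrs, cond_true] at hr
        refine ⟨rfl, hrs, by unfold dd; rw [hr], by unfold yy; rw [hr], ?_⟩
        unfold vv dd
        rw [hr]
        cases h : (rc (st E p s) c).1 <;> simp
  · left
    rw [rc_ge (by omega), rc_ge (by omega)]
    exact ⟨rfl, fun h => absurd h hc⟩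

/-- a node which may move does so -/
theorem move {s c y' : ℕ} (hc : c < s + 1) (h1 : asg c = true) (h2 : RS E p s c = false)
    (h3 : WW E p s c = true) (h4 : yy E p s c < y') (h5 : y' ≤ yy E p s c + len c + 1)
    (h6 : mok E p (st E p s) s c y' = true) : yy E p s c < yy E p (s + 1) c := by
  have hr := rc_succ (E := E) (p := p) s c
  rw [if_pos hc] at hr
  unfold updR at hr
  have hrs : reset E p (st E p s) s c = false := h2
  have hw : wanting E (st E p s) s c = true := h3
  rw [h1, cond_true, hrs, cond_false, hw, Bool.true_and] at hr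
  have hf : fnd E p (st E p s) s c < len c + 1 := by
    by_contra hne
    have h7 := (bfind_spec (c := fun t => mok E p (st E p s) s c
      ((rc (st E p s) c).2.1 + 1 + t)) (s := len c + 1)).1
    have h8 := h7 (y' - yy E p s c - 1) (by
      have : fnd E p (st E p s) s c = bfind (fun t => mok E p (st E p s) s c
        ((rc (st E p s) c).2.1 + 1 + t)) (len c + 1) := rfl
      omega)
    have h9 : (rc (st E p s) c).2.1 + 1 + (y' - yy E p s c - 1) = y' := by
      have : yy E p s c = (rc (st E p s) c).2.1 := rfl
      omega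
    rw [h9, h6] at h8
    exact absurd h8 (by simp)
  rw [decide_eq_true hf, cond_true] at hr
  have e3 : yy E p (s + 1) c = yy E p s c + 1 + fnd E p (st E p s) s c := by
    unfold yy; rw [hr]
  omega

theorem yy_mono (s c : ℕ) : yy E p s c ≤ yy E p (s + 1) c := by
  rcases step (E := E) (p := p) s c with h | h | h
  · unfold yy; rw [h.1]
  · exact h.2.2.2.1.ge
  · exact h.2.2.2.2.2.1.le

theorem vv_mono (s c : ℕ) : vv E p s c ≤ vv E p (s + 1) c := by
  rcases step (E := E) (p := p) s c with h | h | h
  · unfold vv; rw [h.1]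
  · rw [h.2.2.2.2]; split_ifs <;> omega
  · exact h.2.2.2.2.1.ge

theorem dd_table {s c : ℕ} (h : dd E p s c = true) : c < s := by
  by_contra hne
  have := rc_ge (E := E) (p := p) (s := s) (c := c) (by omega)
  unfold dd at h
  rw [this] at h
  exact absurd h (by simp [init])

theorem dd_asg {s c : ℕ} (h : dd E p s c = true) : asg c = true := by
  induction s with
  | zero => exact absurd (dd_table h) (by omega)
  | succ s ih =>
    rcases step (E := E) (p := p) s c with h1 | h1 | h1
    · apply ih
      unfold dd at h ⊢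
      rw [← h1.1]; exact h
    · exact h1.1
    · exact h1.1

theorem CC_mono (s τ : ℕ) : CC E p s τ ≤ CC E p (s + 1) τ := by
  have h1 := E.umono (arg (len τ)) s
  have h2 := E.qmono p (arg (len τ)) s
  have h3 := gg_mono (E := E) (p := p) s (arg (len τ))
  have h4 := yy_mono (E := E) (p := p) s τ
  unfold gg at h3
  unfold yy at h4
  unfold CC cv
  by_cases t0 : typ (len τ) = 0
  · simpa [t0] using h1
  · by_cases t1 : typ (len τ) = 1
    · simpa [t1] using h2
    · by_cases t2 : typ (len τ) = 2
      · simpa [t2] using h3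
      · simpa [t0, t1, t2] using h4

/-- the record converges, or the coordinate tends to infinity -/
theorem rc_cases (c : ℕ) : (∀ n, ∀ᶠ s in atTop, n < yy E p s c) ∨
    (∃ r, ∀ᶠ s in atTop, rc (st E p s) c = r) := by
  rcases mono_cases (f := fun s => yy E p s c) (fun s => yy_mono s c) with h | ⟨n, h⟩
  · exact Or.inl h
  · right
    obtain ⟨s1, hs1⟩ := eventually_atTop.1 h
    have nomove : ∀ s, s1 ≤ s → (rc (st E p (s + 1)) c = rc (st E p s) c) ∨
        (dd E p (s + 1) c = false ∧ yy E p (s + 1) c = yy E p s c ∧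
        vv E p (s + 1) c = if dd E p s c = true then vv E p s c + 1 else vv E p s c) := by
      intro s hs
      rcases step (E := E) (p := p) s c with h1 | h1 | h1
      · exact Or.inl h1.1
      · exact Or.inr ⟨h1.2.2.1, h1.2.2.2.1, h1.2.2.2.2⟩
      · have h2 := hs1 s hs
        have h3 := hs1 (s + 1) (by omega)
        have h4 := h1.2.2.2.2.2.1
        omega
    by_cases hex : ∃ s2, s1 ≤ s2 ∧ dd E p s2 c = false
    · obtain ⟨s2, hs2, hd2⟩ := hex
      refine ⟨rc (st E p s2) c, ?_⟩
      filter_upwards [eventually_ge_atTop s2] with s hs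
      induction s, hs using Nat.le_induction with
      | base => rfl
      | succ s hs ih =>
        have hd : dd E p s c = false := by unfold dd at hd2 ⊢; rw [ih]; exact hd2
        rcases nomove s (by omega) with h1 | ⟨h1, h2, h3⟩
        · rw [h1, ih]
        · rw [← ih]
          rw [hd] at h3
          simp only [Bool.false_eq_true, if_false] at h3
          unfold dd at h1 hd
          unfold yy at h2
          unfold vv at h3
          exact Prod.ext (h1.trans hd.symm) (Prod.ext h2 h3)
    · push Not at hex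
      refine ⟨rc (st E p s1) c, ?_⟩
      filter_upwards [eventually_ge_atTop s1] with s hs
      induction s, hs using Nat.le_induction with
      | base => rfl
      | succ s hs ih =>
        rcases nomove s (by omega) with h1 | ⟨h1, h2, h3⟩
        · rw [h1, ih]
        · exact absurd h1 (hex (s + 1) (by omega))

/-- the approximation converges -/
theorem XS_evc (w : ℕ) : EvC (fun s => XS E p s w) := by
  rcases rc_cases (E := E) (p := p) w.unpair.1 with h | ⟨r, h⟩
  · refine ⟨false, ?_⟩
    filter_upwards [h w.unpair.2] with s hs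
    rw [← Bool.not_eq_true]
    unfold XS xs
    simp only [Bool.and_eq_true, decide_eq_true_eq]
    rintro ⟨_, _, h1, _⟩
    have : yy E p s w.unpair.1 = (rc (st E p s) w.unpair.1).2.1 := rfl
    omega
  · have key : EvC (fun s => asg w.unpair.1 && (r.1 && (decide (r.2.1 = w.unpair.2) &&
      !((!r.1 || decide (Nat.pair w.unpair.1 r.2.1 <
          E.u (Nat.pair (gk w.unpair.1) (Nat.pair w.unpair.1 r.2.2)) s)) &&
        (D2.bex (fun m => inf w.unpair.1 (aG m) &&
          D2.bex (fun j => decide (E.u (Nat.pair m j) s = Nat.pair w.unpair.1 r.2.1))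
          (bound w.unpair.1 r.2.1 + 1)) (gi w.unpair.1)))))) := by
      refine (EvC.const _).and ((EvC.const _).and ((EvC.const _).and (EvC.not (EvC.and ?_ ?_))))
      · exact (EvC.const _).or (EvC.lt (E.umono _) _)
      · refine EvC.bex (fun m _ => (EvC.const _).and (EvC.bex (fun j _ => ?_)))
        exact EvC.eq (E.umono _) _
    refine key.congr ?_
    filter_upwards [h] with s hs
    unfold XS xs wanting blocked
    rw [hs]

/-- the set of sizes -/
def XX (E : Env) (p w : ℕ) : Prop := ∀ᶠ s in atTop, XS E p s w = true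

theorem XX_of_frequently {w : ℕ} (h : ∃ᶠ s in atTop, XS E p s w = true) : XX E p w := by
  rcases (XS_evc (E := E) (p := p) w).cases with h1 | h1
  · exact h1
  · obtain ⟨s, h2, h3⟩ := (h.and_eventually h1).exists
    rw [h2] at h3
    exact absurd h3 (by simp)

theorem not_XX {w : ℕ} (h : ¬ XX E p w) : ∀ᶠ s in atTop, XS E p s w = false := by
  rcases (XS_evc (E := E) (p := p) w).cases with h1 | h1
  · exact absurd h1 h
  · exact h1

/-- the node `τ` acts infinitely often -/
def InfT (E : Env) (p τ : ℕ) : Prop := ∃ᶠ s in atTop, TT E p s τ = true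

theorem not_InfT {τ : ℕ} (h : ¬ InfT E p τ) : ∀ᶠ s in atTop, TT E p s τ = false := by
  unfold InfT at h
  rw [not_frequently] at h
  filter_upwards [h] with s hs
  simpa using hs

theorem reset_of_tick {s c a : ℕ} (ha : a < len c) (h1 : inf c a = false)
    (h2 : TT E p s (pre c a) = true) : RS E p s c = true := by
  unfold RS reset
  rw [bex_eq_true]
  refine ⟨a, ha, ?_⟩
  rw [h1, Bool.not_false, Bool.true_and]
  exact h2

theorem no_tick_of_no_reset {s c a : ℕ} (ha : a < len c) (h1 : inf c a = false)
    (h2 : RS E p s c = false) : TT E p s (pre c a) = false := by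
  by_contra h
  rw [Bool.not_eq_false] at h
  rw [reset_of_tick ha h1 h] at h2
  exact absurd h2 (by simp)

theorem dd_false_of_reset {s c : ℕ} (h1 : asg c = true) (h2 : RS E p s c = true) :
    dd E p (s + 1) c = false := by
  by_contra h
  rw [Bool.not_eq_false] at h
  have hc := dd_table h
  rcases step (E := E) (p := p) s c with h3 | h3 | h3
  · rw [h3.2 hc h1] at h2
    exact absurd h2 (by simp)
  · rw [h3.2.2.1] at h
    exact absurd h (by simp)
  · rw [h3.2.1] at h2
    exact absurd h2 (by simp)

/-- a node with a wrong finitary guess is reset infinitely often -/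
theorem frequently_not_dd {c a : ℕ} (h0 : asg c = true) (ha : a < len c)
    (h1 : inf c a = false) (h2 : InfT E p (pre c a)) : ∃ᶠ s in atTop, dd E p s c = false := by
  have h3 : ∃ᶠ s in atTop, dd E p (s + 1) c = false :=
    h2.mono (fun s hs => dd_false_of_reset h0 (reset_of_tick ha h1 hs))
  rw [frequently_atTop] at h3 ⊢
  intro n
  obtain ⟨s, hs, h4⟩ := h3 n
  exact ⟨s + 1, by omega, h4⟩

/-- if a node is placed at consecutive stages, no event guessed finitary happens in between -/
theorem no_tick_of_dd {s c a : ℕ} (ha : a < len c) (h1 : inf c a = false)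
    (h3 : dd E p (s + 1) c = true) : TT E p s (pre c a) = false := by
  by_contra h
  rw [Bool.not_eq_false] at h
  have h4 := dd_false_of_reset (dd_asg h3) (reset_of_tick ha h1 h)
  rw [h3] at h4
  exact absurd h4 (by simp)

theorem mok_iff {S : State} {s c y' : ℕ} : mok E p S s c y' = true ↔
    (∀ a < len c, inf c a = true → Nat.pair c y' < cv E p S s (pre c a)) ∧
    (∀ a < len c, inf c a = false → typ a = 0 → E.u (arg a) s ≠ Nat.pair c y') ∧
    (∀ m < gi c, inf c (aG m) = true → ∀ j < bound c (rc S c).2.1 + 1,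
      E.u (Nat.pair m j) s = 0 ∨ Nat.pair c y' < E.u (Nat.pair m j) s ∨
        shelt S c (E.u (Nat.pair m j) s) = true) := by
  unfold mok
  simp only [Bool.and_eq_true, ball_eq_true, Bool.or_eq_true, Bool.not_eq_true',
    decide_eq_true_eq, decide_eq_false_iff_not]
  refine and_congr (forall_congr' (fun a => forall_congr' (fun _ => ?_)))
    (and_congr (forall_congr' (fun a => forall_congr' (fun _ => ?_)))
      (forall_congr' (fun m => forall_congr' (fun _ => ?_))))
  · cases inf c a <;> simp
  · cases inf c a
    · simp only [Bool.false_eq_true, false_or, true_imp_iff]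
      tauto
    · simp
  · cases inf c (aG m)
    · simp
    · simp

/-- placed nodes avoid the counters guessed finitary -/
theorem inv_fin {s c : ℕ} (h : dd E p s c = true) {a : ℕ} (ha : a < len c)
    (h1 : inf c a = false) (h2 : typ a = 0) : E.u (arg a) s ≠ Nat.pair c (yy E p s c) := by
  induction s with
  | zero => exact absurd (dd_table h) (by omega)
  | succ s ih =>
    have h3 := no_tick_of_dd ha h1 h
    unfold TT tick at h3
    simp only [len_pre, h2, decide_true, cond_true, Bool.not_eq_false', decide_eq_true_eq] at h3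
    rw [← h3]
    rcases step (E := E) (p := p) s c with h4 | h4 | h4
    · have h5 : yy E p (s + 1) c = yy E p s c := by unfold yy; rw [h4.1]
      rw [h5]
      apply ih
      unfold dd at h ⊢
      rw [← h4.1]; exact h
    · rw [h4.2.2.1] at h; exact absurd h (by simp)
    · exact (mok_iff.1 h4.2.2.2.2.2.2).2.1 a ha h1 h2

/-- placed nodes are below the counters guessed infinitary -/
theorem inv_inf {s c : ℕ} (h : dd E p s c = true) {a : ℕ} (ha : a < len c)
    (h1 : inf c a = true) : Nat.pair c (yy E p s c) < CC E p s (pre c a) := by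
  induction s with
  | zero => exact absurd (dd_table h) (by omega)
  | succ s ih =>
    have h3 := CC_mono (E := E) (p := p) s (pre c a)
    rcases step (E := E) (p := p) s c with h4 | h4 | h4
    · have h5 : yy E p (s + 1) c = yy E p s c := by unfold yy; rw [h4.1]
      rw [h5]
      refine lt_of_lt_of_le (ih ?_) h3
      unfold dd at h ⊢
      rw [← h4.1]; exact h
    · rw [h4.2.2.1] at h; exact absurd h (by simp)
    · exact lt_of_lt_of_le ((mok_iff.1 h4.2.2.2.2.2.2).1 a ha h1) h3

end Constr

end Pool.Agent.Lib_helper87.D2
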